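import Pool.Agent.H250R3.Tor.Iso

set_option autoImplicit false

/-! From the working forms to the definitions of the statement. -/

open MvPolynomial

namespace Pool.Agent.H250R3.Tor

section

universe u

variable (k : Type u) [Field k] {K : Set (Finset (Fin 8))}

/-- the Koszul algebra of the statement -/
abbrev KA (K : Set (Finset (Fin 8))) : Type u := Bet.KAlg (Bet.FaceRing k K) 8

/-- identity map to the working form -/
noncomputable def toK : KA k K →ₗ[k] Koszul k K where
  toFun x := x
  map_add' _ _ := rfl
  map_smul' _ _ := rfl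

/-- identity map from the working form -/
noncomputable def ofK : Koszul k K →ₗ[k] KA k K where
  toFun x := x
  map_add' _ _ := rfl
  map_smul' _ _ := rfl

lemma toK_ofK (x : Koszul k K) : toK k (ofK k x) = x := rfl

lemma ofK_toK (x : KA k K) : ofK k (toK k x) = x := rfl

lemma toK_mul (x y : KA k K) : toK k (x * y) = toK k x * toK k y := rfl

lemma toK_one : toK k (1 : KA k K) = 1 := rfl

lemma toK_dK (x : KA k K) : toK k (Bet.dK (Bet.faceVar k K) x) = dk k K (toK k x) := rfl

lemma prod_faceVar (α : Fin 8 →₀ ℕ) : ∏ i, Bet.faceVar k K i ^ α i =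
    (Ideal.Quotient.mk (srIdeal k K) (monomial α 1) : MvPolynomial (Fin 8) k ⧸ srIdeal k K) := by
  have h : (monomial α (1 : k)) = ∏ i, (X i : MvPolynomial (Fin 8) k) ^ α i := by
    rw [monomial_eq, C_1, one_mul, Finsupp.prod_fintype]
    intro i; rw [pow_zero]
  rw [h, map_prod]
  simp only [map_pow]
  rfl

lemma toK_mono (α : Fin 8 →₀ ℕ) (J : Finset (Fin 8)) :
    toK k (Bet.mono (Bet.faceVar k K) α J) = qq k K α J := by
  have h1 : (∏ i, Bet.faceVar k K i ^ α i : Bet.FaceRing k K) = vmon k K α := prod_faceVar k α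
  rw [Bet.mono, h1]
  rfl

end

end Pool.Agent.H250R3.Tor
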