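import Pool.Agent.H250R3.Bet.NDefs

set_option autoImplicit false

/-! Bounds for the Buchstaber invariants. -/

namespace Pool.Agent.H250R3.Tor

open Pool.Agent.H250R3.Bet (SimplePolytope momentAngle realMomentAngle toricRanks realRanks
  buchstaber realBuchstaber)

variable {m : ℕ} {K : Set (Finset (Fin m))}

/-- the homomorphism of tori of an integer matrix -/
noncomputable def torHom {r : ℕ} (M : Fin m → Fin r → ℤ) :
    (Fin r → Circle) →* (Fin m → Circle) where
  toFun t i := ∏ j, t j ^ M i j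
  map_one' := by ext i; simp
  map_mul' s t := by
    funext i
    simp only [Pi.mul_apply, mul_zpow, Finset.prod_mul_distrib]

lemma torHom_cont {r : ℕ} (M : Fin m → Fin r → ℤ) : Continuous (torHom M) := by
  apply continuous_pi
  intro i
  change Continuous (fun t : Fin r → Circle => ∏ j, t j ^ M i j)
  exact continuous_finsetProd _ (fun j _ => (continuous_apply j).zpow _)

lemma zsum {ι : Type*} (a : Circle) (s : Finset ι) (f : ι → ℤ) :
    ∏ i ∈ s, a ^ f i = a ^ (∑ i ∈ s, f i) := by
  classical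
  induction s using Finset.induction_on with
  | empty => simp
  | insert i s hi ih => rw [Finset.prod_insert hi, Finset.sum_insert hi, zpow_add, ih]

lemma torHom_inv {r : ℕ} (M : Fin m → Fin r → ℤ) (N : Fin r → Fin m → ℤ)
    (h : ∀ j l, ∑ i, N j i * M i l = if j = l then 1 else 0) (t : Fin r → Circle) (j : Fin r) :
    ∏ i, torHom M t i ^ N j i = t j := by
  have h1 : ∏ i, torHom M t i ^ N j i = ∏ l, t l ^ (∑ i, N j i * M i l) := by
    have h2 : ∀ i, torHom M t i ^ N j i = ∏ l, t l ^ (N j i * M i l) := by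
      intro i
      change (∏ l, t l ^ M i l) ^ N j i = _
      rw [← Finset.prod_zpow]
      apply Finset.prod_congr rfl
      intro l _
      rw [← zpow_mul, mul_comm]
    simp only [h2]
    rw [Finset.prod_comm]
    apply Finset.prod_congr rfl
    intro l _
    exact zsum _ _ _
  rw [h1, Finset.prod_eq_single j]
  · rw [h j j, if_pos rfl, zpow_one]
  · intro l _ hl
    rw [h j l, if_neg (Ne.symm hl), zpow_zero]
  · intro hh; exact absurd (Finset.mem_univ _) hh

/-- lower bound for the Buchstaber invariant from an integer matrix -/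
lemma toric_mem {r : ℕ} (M : Fin m → Fin r → ℤ) (h0 : (∅ : Finset (Fin m)) ∈ K)
    (h : ∀ σ ∈ K, ∃ N : Fin r → Fin m → ℤ, (∀ j, ∀ i ∈ σ, N j i = 0) ∧
      ∀ j l, ∑ i, N j i * M i l = if j = l then 1 else 0) : r ∈ toricRanks K := by
  refine ⟨torHom M, torHom_cont M, ?_, ?_⟩
  · obtain ⟨N, _, hN⟩ := h ∅ h0
    intro s t hst
    funext j
    rw [← torHom_inv M N hN s j, ← torHom_inv M N hN t j, hst]
  · rintro t z ⟨σ, hσ, hz⟩ ht
    obtain ⟨N, hN1, hN2⟩ := h σ hσ
    have h1 : ∀ i, i ∉ σ → torHom M t i = 1 := by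
      intro i hi
      have hzi := (hz i).2 hi
      have hz0 : z i ≠ 0 := by
        intro h2; rw [h2, norm_zero] at hzi; exact zero_ne_one hzi
      have h3 : (torHom M t i : ℂ) = 1 := by
        have h4 := ht i
        have h5 : ((torHom M t i : ℂ) - 1) * z i = 0 := by rw [sub_mul, h4, one_mul, sub_self]
        rcases mul_eq_zero.1 h5 with h6 | h6
        · exact sub_eq_zero.1 h6
        · exact absurd h6 hz0
      exact Circle.ext (by rw [h3]; simp)
    have h2 : t = 1 := by
      funext j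
      rw [← torHom_inv M N hN2 t j, Pi.one_apply]
      apply Finset.prod_eq_one
      intro i _
      by_cases hi : i ∈ σ
      · rw [hN1 j i hi, zpow_zero]
      · rw [h1 i hi, one_zpow]
    rw [h2, map_one]

/-- signs in the circle -/
noncomputable def sC : ℤˣ →* Circle where
  toFun ε := if ε = 1 then 1 else -1
  map_one' := by simp
  map_mul' a b := by
    rcases Int.units_eq_one_or a with rfl | rfl <;> rcases Int.units_eq_one_or b with rfl | rfl
    all_goals ext; simp

lemma sC_coe (ε : ℤˣ) : ((sC ε : Circle) : ℂ) = ((ε : ℤ) : ℂ) := by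
  rcases Int.units_eq_one_or ε with rfl | rfl
  · simp [sC]
  · change (((if (-1 : ℤˣ) = 1 then 1 else -1 : Circle)) : ℂ) = _
    rw [if_neg (by decide)]
    simp

lemma sC_inj : Function.Injective sC := by
  intro a b h
  have h1 : ((sC a : Circle) : ℂ) = ((sC b : Circle) : ℂ) := by rw [h]
  rw [sC_coe, sC_coe] at h1
  exact Units.ext (by exact_mod_cast h1)

/-- restricting a torus to its elements of order two -/
lemma toric_sub_real : toricRanks K ⊆ realRanks K := by
  rintro r ⟨φ, _, hinj, hfree⟩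
  let s : (Fin r → ℤˣ) →* (Fin r → Circle) :=
    { toFun := fun ε j => sC (ε j), map_one' := by funext j; simp,
      map_mul' := fun a b => by funext j; simp }
  have hs : Function.Injective s := by
    intro a b h
    funext j
    exact sC_inj (congrFun h j)
  have hsq : ∀ ε, s ε * s ε = 1 := by
    intro ε
    rw [← map_mul]
    have : ε * ε = 1 := by funext j; exact Int.units_mul_self _
    rw [this, map_one]
  have hex : ∀ ε i, ∃ δ : ℤˣ, sC δ = φ (s ε) i := by
    intro ε i
    have h1 : φ (s ε) i * φ (s ε) i = 1 := by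
      have h2 : φ (s ε) * φ (s ε) = 1 := by rw [← map_mul, hsq, map_one]
      exact congrFun h2 i
    have h3 : ((φ (s ε) i : Circle) : ℂ) * ((φ (s ε) i : Circle) : ℂ) = 1 := by
      rw [← Circle.coe_mul, h1, Circle.coe_one]
    rcases mul_self_eq_one_iff.1 h3 with h4 | h4
    · exact ⟨1, Circle.ext (by rw [sC_coe, h4]; simp)⟩
    · exact ⟨-1, Circle.ext (by rw [sC_coe, h4]; simp)⟩
  choose ψ hψ using hex
  refine ⟨⟨⟨ψ, ?_⟩, ?_⟩, ?_, ?_⟩
  · funext i
    apply sC_inj
    rw [hψ, map_one, map_one]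
    simp
  · intro a b
    funext i
    apply sC_inj
    change sC (ψ (a * b) i) = sC (ψ a i * ψ b i)
    rw [map_mul, hψ, hψ, hψ, map_mul, map_mul]
    rfl
  · intro a b hab
    apply hs
    apply hinj
    funext i
    rw [← hψ, ← hψ]
    exact congrArg sC (congrFun hab i)
  · rintro ε x ⟨σ, hσ, hx⟩ hfix
    have h1 := hfree (s ε) (fun i => (x i : ℂ)) ⟨σ, hσ, ?_⟩ ?_
    · funext i
      apply sC_inj
      change sC (ψ ε i) = _
      rw [hψ, h1]
      simp
    · intro i
      simp only [Complex.norm_real, Real.norm_eq_abs]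
      exact hx i
    · intro i
      rw [← hψ, sC_coe]
      have h2 := hfix i
      have h3 : ((((ψ ε i : ℤ) : ℝ) * x i : ℝ) : ℂ) = (x i : ℂ) := by
        exact congrArg _ h2
      push_cast at h3
      exact h3

/-- the support of an element of the image of a sign homomorphism -/
def sup {r : ℕ} (ψ : (Fin r → ℤˣ) →* (Fin m → ℤˣ)) (ε : Fin r → ℤˣ) : Finset (Fin m) :=
  Finset.univ.filter (fun i => ψ ε i = -1)

lemma real_free {r : ℕ} (ψ : (Fin r → ℤˣ) →* (Fin m → ℤˣ))
    (h : ∀ t, ∀ x ∈ realMomentAngle K, (∀ i, (((ψ t i : ℤˣ) : ℤ) : ℝ) * x i = x i) → ψ t = 1)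
    (ε : Fin r → ℤˣ) (hε : sup ψ ε ∈ K) : ψ ε = 1 := by
  apply h ε (fun i => if i ∈ sup ψ ε then 0 else 1) ⟨sup ψ ε, hε, ?_⟩ ?_
  · intro i
    constructor
    · intro hi
      change |if i ∈ sup ψ ε then (0 : ℝ) else 1| ≤ 1
      rw [if_pos hi]; simp
    · intro hi
      change |if i ∈ sup ψ ε then (0 : ℝ) else 1| = 1
      rw [if_neg hi]; simp
  · intro i
    by_cases hi : i ∈ sup ψ ε
    · rw [if_pos hi, mul_zero]
    · rw [if_neg hi, mul_one]
      rcases Int.units_eq_one_or (ψ ε i) with h1 | h1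
      · rw [h1]; simp
      · exact absurd (show i ∈ sup ψ ε from Finset.mem_filter.2 ⟨Finset.mem_univ _, h1⟩) hi

/-- restricting to the complement of a face is injective -/
lemma real_restrict {r : ℕ} (ψ : (Fin r → ℤˣ) →* (Fin m → ℤˣ)) (hinj : Function.Injective ψ)
    (h : ∀ t, ∀ x ∈ realMomentAngle K, (∀ i, (((ψ t i : ℤˣ) : ℤ) : ℝ) * x i = x i) → ψ t = 1)
    (hK : ∀ σ ∈ K, ∀ τ ⊆ σ, τ ∈ K) {σ : Finset (Fin m)} (hσ : σ ∈ K) :
    Function.Injective (fun (ε : Fin r → ℤˣ) (i : {i // i ∉ σ}) => ψ ε i.1) := by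
  intro a b hab
  have h1 : ψ (a * b⁻¹) = 1 := by
    apply real_free ψ h
    apply hK σ hσ
    intro i hi
    by_contra hc
    have h2 : ψ a i = ψ b i := congrFun hab ⟨i, hc⟩
    have h3 : ψ (a * b⁻¹) i = -1 := (Finset.mem_filter.1 hi).2
    rw [map_mul, map_inv, Pi.mul_apply, Pi.inv_apply, h2, mul_inv_cancel] at h3
    exact absurd h3 (by decide)
  have h4 : a * b⁻¹ = 1 := hinj (by rw [h1, map_one])
  exact mul_inv_eq_one.1 h4

lemma real_le {r : ℕ} (hr : r ∈ realRanks K) (hK : ∀ σ ∈ K, ∀ τ ⊆ σ, τ ∈ K)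
    {σ : Finset (Fin m)} (hσ : σ ∈ K) : r ≤ m - σ.card := by
  obtain ⟨ψ, hinj, h⟩ := hr
  have h1 := Fintype.card_le_of_injective _ (real_restrict ψ hinj h hK hσ)
  rw [Fintype.card_fun, Fintype.card_fun, Fintype.card_units_int] at h1
  · have h2 : Fintype.card {i // i ∉ σ} = m - σ.card := by
      rw [Fintype.card_subtype_compl]
      simp
    rw [h2, Fintype.card_fin] at h1
    exact (Nat.pow_le_pow_iff_right (by norm_num)).1 h1

lemma buch_eq {n : ℕ} (h1 : n ∈ toricRanks K) (h2 : ∀ r ∈ realRanks K, r ≤ n) :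
    buchstaber K = n ∧ realBuchstaber K = n := by
  constructor
  · exact IsGreatest.csSup_eq ⟨h1, fun r hr => h2 r (toric_sub_real hr)⟩
  · exact IsGreatest.csSup_eq ⟨toric_sub_real h1, fun r hr => h2 r hr⟩

end Pool.Agent.H250R3.Tor
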