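import Pool.Agent.H250R3.Tor.Htpy

set_option autoImplicit false

/-! Formal linear combinations and the checker, written with raw recursors and raw operations on
`Nat` so that the kernel evaluates them fast. -/

namespace Pool.Agent.H250R3.Tor

/-- right fold by the recursor -/
@[reducible] noncomputable def rf {α : Type} {β : Type} (f : α → β → β) (b : β) (L : List α) : β :=
  @List.rec α (fun _ => β) b (fun x _ ih => f x ih) L

/-- if -/
@[reducible] noncomputable def bi2 {β : Type} (c : Bool) (x y : β) : β :=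
  @Bool.rec (fun _ => β) y x c

lemma bi2_true {β : Type} (x y : β) : bi2 true x y = x := rfl
lemma bi2_false {β : Type} (x y : β) : bi2 false x y = y := rfl

/-- bit test -/
noncomputable def tb (m n : ℕ) : Bool := Nat.beq (Nat.mod (Nat.shiftRight m n) 2) (nat_lit 1)

/-- all -/
noncomputable def ral {α : Type} (f : α → Bool) (L : List α) : Bool :=
  rf (fun x ih => bi2 (f x) ih false) true L

lemma ral_iff {α : Type} (f : α → Bool) (L : List α) : ral f L = true ↔ ∀ x ∈ L, f x = true := by
  induction L with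
  | nil => simp [ral]
  | cons x L ih =>
    have : ral f (x :: L) = bi2 (f x) (ral f L) false := rfl
    rw [this]
    cases h : f x with
    | false => simp [bi2, h]
    | true => simp [bi2, h, ih]

/-- append -/
noncomputable def rap {α : Type} (L M : List α) : List α := rf (fun x ih => x :: ih) M L

/-- and -/
@[reducible] noncomputable def ra (a b : Bool) : Bool := bi2 a b false

lemma ra_iff {a b : Bool} : ra a b = true ↔ a = true ∧ b = true := by
  cases a <;> cases b <;> decide

/-- indexed all -/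
noncomputable def rix {α : Type} (f : ℕ → α → Bool) (L : List α) : ℕ → Bool :=
  @List.rec α (fun _ => ℕ → Bool) (fun _ => true) (fun x _ ih n => ra (f n x) (ih (Nat.succ n))) L

lemma rix_getD {α : Type} (f : ℕ → α → Bool) (d : α) (L : List α) (n : ℕ) (h : rix f L n = true)
    (i : ℕ) (hi : i < L.length) : f (n + i) (L.getD i d) = true := by
  induction L generalizing n i with
  | nil => simp at hi
  | cons x L ih =>
    have h' : ra (f n x) (rix f L (Nat.succ n)) = true := h
    rw [ra_iff] at h'
    cases i with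
    | zero => exact h'.1
    | succ i =>
      have := ih (n + 1) h'.2 i (by simpa using hi)
      rw [List.getD_cons_succ, show n + (i + 1) = n + 1 + i by ring]
      exact this

section evb

variable {V W : Type*} [AddCommGroup V] [AddCommGroup W]

/-- sign -/
def sb (s : Bool) : ℤ := if s = true then -1 else 1

/-- evaluation of a formal signed sum -/
def evb (w : ℕ → V) (L : List (Bool × ℕ)) : V := (L.map (fun p => sb p.1 • w p.2)).sum

@[simp] lemma evb_nil (w : ℕ → V) : evb w [] = 0 := rfl

@[simp] lemma evb_cons (w : ℕ → V) (p : Bool × ℕ) (L : List (Bool × ℕ)) :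
    evb w (p :: L) = sb p.1 • w p.2 + evb w L := by simp [evb]

lemma evb_append (w : ℕ → V) (L M : List (Bool × ℕ)) :
    evb w (L ++ M) = evb w L + evb w M := by simp [evb]

lemma rap_eq {α : Type} (L M : List α) : rap L M = L ++ M := by
  induction L with
  | nil => rfl
  | cons x L ih => exact congrArg (x :: ·) ih

@[simp] lemma evb_rap (w : ℕ → V) (L M : List (Bool × ℕ)) :
    evb w (rap L M) = evb w L + evb w M := by rw [rap_eq, evb_append]

/-- code of the terms of a given sign -/
noncomputable def enc (s : Bool) (L : List (Bool × ℕ)) : ℕ :=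
  rf (fun p ih => bi2 (bi2 p.1 s (Bool.not s))
    (Nat.add (Nat.pow (nat_lit 256) p.2) ih) ih) (nat_lit 0) L

/-- length -/
noncomputable def rle {α : Type} (L : List α) : ℕ := rf (fun _ ih => Nat.succ ih) (nat_lit 0) L

lemma rle_eq {α : Type} (L : List α) : rle L = L.length := by
  induction L with
  | nil => rfl
  | cons x L ih => exact congrArg Nat.succ ih

/-- vanishing test -/
noncomputable def isZ (L : List (Bool × ℕ)) : Bool :=
  ra (Nat.beq (enc true L) (enc false L)) (Nat.ble (rle L) (nat_lit 255))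

/-- counting function -/
noncomputable def cf (s : Bool) (L : List (Bool × ℕ)) : ℕ →₀ ℕ :=
  (L.map (fun p => if p.1 = s then Finsupp.single p.2 1 else 0)).sum

lemma cf_cons (s : Bool) (p : Bool × ℕ) (L : List (Bool × ℕ)) : cf s (p :: L) =
    (if p.1 = s then Finsupp.single p.2 1 else 0) + cf s L := by simp [cf]

lemma cf_le (s : Bool) (L : List (Bool × ℕ)) (a : ℕ) : cf s L a ≤ L.length := by
  induction L with
  | nil => simp [cf]
  | cons p L ih =>
    rw [cf_cons, Finsupp.add_apply, List.length_cons]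
    have : (if p.1 = s then Finsupp.single p.2 1 else 0 : ℕ →₀ ℕ) a ≤ 1 := by
      split_ifs
      · rw [Finsupp.single_apply]; split_ifs <;> norm_num
      · simp
    lia

lemma enc_eq (s : Bool) (L : List (Bool × ℕ)) :
    enc s L = (cf s L).sum (fun a c => c * 256 ^ a) := by
  induction L with
  | nil => simp [cf]; rfl
  | cons p L ih =>
    have h : enc s (p :: L) = bi2 (bi2 p.1 s (Bool.not s)) (256 ^ p.2 + enc s L) (enc s L) := rfl
    rw [h, cf_cons, Finsupp.sum_add_index' (by simp) (by intros; ring), ih]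
    obtain ⟨b, a⟩ := p
    cases b <;> cases s <;> simp [bi2]

lemma evb_eq (w : ℕ → V) (L : List (Bool × ℕ)) :
    evb w L = (cf false L).sum (fun a c => c • w a) - (cf true L).sum (fun a c => c • w a) := by
  induction L with
  | nil => simp [cf]
  | cons p L ih =>
    rw [evb_cons, ih, cf_cons, cf_cons, Finsupp.sum_add_index' (by simp) (by intros; rw [add_smul]),
      Finsupp.sum_add_index' (by simp) (by intros; rw [add_smul])]
    obtain ⟨b, a⟩ := p
    cases b <;> simp [sb] <;> abel

lemma digits_unique (N : ℕ) : ∀ c c' : ℕ → ℕ, (∀ a, c a < 256) → (∀ a, c' a < 256) →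
    ∑ a ∈ Finset.range N, c a * 256 ^ a = ∑ a ∈ Finset.range N, c' a * 256 ^ a →
    ∀ a < N, c a = c' a := by
  induction N with
  | zero => intro c c' _ _ _ a ha; exact absurd ha (Nat.not_lt_zero _)
  | succ N ih =>
    intro c c' hc hc' h a ha
    rw [Finset.sum_range_succ', Finset.sum_range_succ'] at h
    have e : ∀ c : ℕ → ℕ, ∑ a ∈ Finset.range N, c (a + 1) * 256 ^ (a + 1) =
        256 * ∑ a ∈ Finset.range N, c (a + 1) * 256 ^ a := by
      intro c
      rw [Finset.mul_sum]
      apply Finset.sum_congr rfl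
      intro a _
      ring
    rw [e, e, pow_zero, mul_one, mul_one] at h
    have h0 := hc 0
    have h0' := hc' 0
    have h1 : c 0 = c' 0 := by lia
    have h2 : ∑ a ∈ Finset.range N, c (a + 1) * 256 ^ a =
        ∑ a ∈ Finset.range N, c' (a + 1) * 256 ^ a := by lia
    cases a with
    | zero => exact h1
    | succ a =>
      exact ih (fun a => c (a + 1)) (fun a => c' (a + 1)) (fun a => hc _) (fun a => hc' _) h2 a
        (by lia)

lemma cf_unique {f g : ℕ →₀ ℕ} (hf : ∀ a, f a < 256) (hg : ∀ a, g a < 256)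
    (h : f.sum (fun a c => c * 256 ^ a) = g.sum (fun a c => c * 256 ^ a)) : f = g := by
  obtain ⟨N, hN⟩ : ∃ N, f.support ∪ g.support ⊆ Finset.range N := by
    refine ⟨(f.support ∪ g.support).sup id + 1, fun a ha => ?_⟩
    rw [Finset.mem_range]
    have := Finset.le_sup (f := id) ha
    simp only [id] at this
    lia
  rw [Finsupp.sum_of_support_subset f (Finset.subset_union_left.trans hN) _ (by simp),
    Finsupp.sum_of_support_subset g (Finset.subset_union_right.trans hN) _ (by simp)] at h
  ext a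
  by_cases ha : a < N
  · exact digits_unique N f g hf hg h a ha
  · have h1 : a ∉ f.support := fun h1 => ha (Finset.mem_range.1 (hN (Finset.mem_union_left _ h1)))
    have h2 : a ∉ g.support := fun h1 => ha (Finset.mem_range.1 (hN (Finset.mem_union_right _ h1)))
    rw [Finsupp.notMem_support_iff.1 h1, Finsupp.notMem_support_iff.1 h2]

lemma evb_isZ (w : ℕ → V) {L : List (Bool × ℕ)} (h : isZ L = true) : evb w L = 0 := by
  rw [isZ, ra_iff] at h
  obtain ⟨h1, h2⟩ := h
  have h3 : enc true L = enc false L := Nat.eq_of_beq_eq_true h1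
  have h4 : L.length ≤ 255 := by
    rw [← rle_eq]; exact Nat.le_of_ble_eq_true h2
  rw [enc_eq, enc_eq] at h3
  have := cf_unique (fun a => lt_of_le_of_lt (cf_le true L a) (by lia))
    (fun a => lt_of_le_of_lt (cf_le false L a) (by lia)) h3
  rw [evb_eq, this, sub_self]

/-- substitution -/
noncomputable def bnd (L : List (Bool × ℕ)) (g : ℕ → List (Bool × ℕ)) : List (Bool × ℕ) :=
  rf (fun p ih => rf (fun q ih' => (bi2 p.1 (Bool.not q.1) q.1, q.2) :: ih') ih (g p.2)) [] L

lemma sb_xor (a b : Bool) : sb (bi2 a (Bool.not b) b) = sb a * sb b := by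
  cases a <;> cases b <;> rfl

lemma evb_inner (w : ℕ → V) (s : Bool) (M N : List (Bool × ℕ)) :
    evb w (rf (fun q ih' => (bi2 s (Bool.not q.1) q.1, q.2) :: ih') N M) =
      sb s • evb w M + evb w N := by
  induction M with
  | nil => simp [rf]
  | cons q M ih =>
    change evb w ((bi2 s (Bool.not q.1) q.1, q.2) ::
      (rf (fun q ih' => (bi2 s (Bool.not q.1) q.1, q.2) :: ih') N M)) = _
    rw [evb_cons, ih, evb_cons, smul_add, sb_xor, mul_smul, add_assoc]

lemma evb_bnd (w : ℕ → V) (g : ℕ → List (Bool × ℕ)) (L : List (Bool × ℕ)) :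
    evb w (bnd L g) = evb (fun a => evb w (g a)) L := by
  induction L with
  | nil => rfl
  | cons q L ih =>
    change evb w (rf (fun q' ih' => (bi2 q.1 (Bool.not q'.1) q'.1, q'.2) :: ih') (bnd L g)
      (g q.2)) = _
    rw [evb_inner, ih, evb_cons]

lemma evb_congr {w w' : ℕ → V} {L : List (Bool × ℕ)} (h : ∀ p ∈ L, w p.2 = w' p.2) :
    evb w L = evb w' L := by
  induction L with
  | nil => rfl
  | cons q L ih =>
    rw [evb_cons, evb_cons, h q (by simp), ih (fun p hp => h p (List.mem_cons_of_mem _ hp))]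

lemma map_evb {Fn : Type*} [FunLike Fn V W] [AddMonoidHomClass Fn V W] (f : Fn) (w : ℕ → V)
    (L : List (Bool × ℕ)) : f (evb w L) = evb (fun a => f (w a)) L := by
  induction L with
  | nil => simp
  | cons q L ih => rw [evb_cons, map_add, ih, evb_cons, map_zsmul]

end evb

/-! ### masks -/

/-- the finset of a mask -/
def om (a : ℕ) : Finset (Fin 8) := Finset.univ.filter (fun i => a.testBit i = true)

lemma mem_om {a : ℕ} {i : Fin 8} : i ∈ om a ↔ a.testBit i = true := by simp [om]

/-- the mask of a finset -/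
def mo (σ : Finset (Fin 8)) : ℕ := Nat.ofBits (fun i : Fin 8 => decide (i ∈ σ))

lemma mo_lt (σ : Finset (Fin 8)) : mo σ < 256 := Nat.ofBits_lt_two_pow _

lemma om_mo (σ : Finset (Fin 8)) : om (mo σ) = σ := by
  ext i
  rw [mem_om, mo, Nat.testBit_ofBits_lt _ _ i.2]
  simp

lemma testBit_ge {a j : ℕ} (h : a < 256) (hj : 8 ≤ j) : a.testBit j = false := by
  apply Nat.testBit_lt_two_pow
  exact lt_of_lt_of_le h (Nat.pow_le_pow_right (n := 2) (by norm_num) hj)

lemma mo_om {a : ℕ} (h : a < 256) : mo (om a) = a := by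
  apply Nat.eq_of_testBit_eq
  intro j
  by_cases hj : j < 8
  · rw [mo, Nat.testBit_ofBits_lt _ _ hj]
    by_cases hb : a.testBit j = true
    · rw [hb, decide_eq_true_iff, mem_om]; exact hb
    · rw [decide_eq_false (by rw [mem_om]; exact hb)]
      simpa using hb
  · rw [testBit_ge (mo_lt _) (by lia), testBit_ge h (by lia)]

/-- submask -/
lemma om_subset {a f : ℕ} (ha : a < 256) : om a ⊆ om f ↔ a &&& f = a := by
  constructor
  · intro h
    apply Nat.eq_of_testBit_eq
    intro j
    rw [Nat.testBit_and]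
    by_cases hj : j < 8
    · by_cases hb : a.testBit j = true
      · have := h (mem_om (i := ⟨j, hj⟩).2 hb)
        rw [mem_om] at this
        simp only at this
        rw [hb, this]; rfl
      · simp only [Bool.not_eq_true] at hb
        rw [hb]; rfl
    · rw [testBit_ge ha (by lia)]; rfl
  · intro h i hi
    rw [mem_om] at hi ⊢
    rw [← h, Nat.testBit_and] at hi
    simp only [Bool.and_eq_true] at hi
    exact hi.2

/-- powers of two -/
def pws : List ℕ := [nat_lit 1, nat_lit 2, nat_lit 4, nat_lit 8, nat_lit 16, nat_lit 32,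
  nat_lit 64, nat_lit 128]

/-- signed bits of a mask -/
noncomputable def D0 (c : ℕ) : List (Bool × ℕ) :=
  rf (β := Bool → List (Bool × ℕ))
    (fun p ih s => bi2 (Nat.beq (Nat.land c p) (nat_lit 0)) (ih s) ((s, p) :: ih (Bool.not s)))
    (fun _ => []) pws false

/-- the differential in a fixed multidegree; `FB` is the bitmap of the faces -/
noncomputable def Dl (FB : ℕ) (S a : ℕ) : List (Bool × ℕ) :=
  rf (fun e ih => bi2 (tb FB (Nat.lor a e.2)) ((e.1, Nat.lor a e.2) :: ih) ih) []
    (D0 (Nat.xor S a))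

/-- number of elements -/
def pc (b : ℕ) : ℕ := (pws.filter (fun p => Nat.land b p != 0)).length

/-- sign of a product -/
noncomputable def sgpB (b c : ℕ) : Bool :=
  rf (fun p s => bi2 (Nat.beq (Nat.land b p) 0) s
    (bi2 (Nat.beq ((pc (Nat.mod c p)) % 2) 1) (Bool.not s) s)) false pws

/-- the complex with given facets -/
def KF (F : List ℕ) : Set (Finset (Fin 8)) := {σ | ∃ f ∈ F, σ ⊆ om f}

lemma down_KF (F : List ℕ) : Down (KF F) := by
  rintro σ ⟨f, hf, h⟩ τ hτ
  exact ⟨f, hf, hτ.trans h⟩

/-- lookup -/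
noncomputable def lk (L : List (ℕ × List (Bool × ℕ))) (a : ℕ) : List (Bool × ℕ) :=
  rf (fun e ih => bi2 (Nat.beq e.1 a) e.2 ih) [] L

/-- bidegrees of the classes -/
def bi (l : ℕ) : ℕ × ℕ :=
  if l = 0 then (0, 0) else if l < 17 then (1, 3) else if l < 47 then (2, 4) else
    if l < 63 then (3, 5) else (4, 8)

/-- multiplication table -/
def mt (l m : ℕ) : List (Bool × ℕ) :=
  if l = 0 then [(false, m)] else if m = 0 then [(false, l)] else
    if l < 17 then (if m = l + 46 then [(false, 63)] else []) else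
    if l < 47 then (if 17 ≤ m ∧ m < 47 ∧ l ≠ m ∧ (l + 1) / 2 = (m + 1) / 2 then [(false, 63)]
      else []) else
    if l < 63 then (if l = m + 46 then [(true, 63)] else []) else []

/-- table -/
structure Dat where
  /-- facets -/
  F : List ℕ
  /-- bitmap of the faces -/
  FB : ℕ
  /-- faces -/
  fs : List ℕ
  /-- homotopy -/
  H : List (List (ℕ × List (Bool × ℕ)))
  /-- projection -/
  P : List (List (ℕ × List (Bool × ℕ)))
  /-- representatives -/
  Z : List (ℕ × List (Bool × ℕ))

/-- check of one multidegree: identities -/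
noncomputable def okS (FB : ℕ) (fs : List ℕ) (Z : List (ℕ × List (Bool × ℕ)))
    (P : List (List (ℕ × List (Bool × ℕ)))) (S : ℕ) (h : List (ℕ × List (Bool × ℕ))) : Bool :=
  ral (fun a => bi2 (Nat.beq (Nat.land a S) a)
    (ra (isZ (rap (bnd (lk h a) (Dl FB S)) (rap (bnd (Dl FB S a) (lk h))
      (rap (bnd (lk (P.getD S []) a) (fun l => (Z.getD l (0, [])).2)) [(true, a)]))))
     (isZ (bnd (Dl FB S a) (lk (P.getD S []))))) true) fs

/-- side conditions for the homotopy table -/
noncomputable def okH (FB : ℕ) (S : ℕ) (h : List (ℕ × List (Bool × ℕ))) : Bool :=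
  ral (fun e => ral (fun p => ra (Nat.beq (Nat.land p.2 S) p.2) (tb FB p.2)) e.2) h

/-- side conditions for the projection table -/
noncomputable def okP (Z : List (ℕ × List (Bool × ℕ))) (S : ℕ)
    (h : List (ℕ × List (Bool × ℕ))) : Bool :=
  ral (fun e => ral (fun p => ra (Nat.beq (Z.getD p.2 (0, [])).1 S) (ra (Nat.ble p.2 63)
    (ra (Nat.beq (pc (Nat.xor S e.1)) (bi p.2).1) (Nat.beq (pc S) (bi p.2).2)))) e.2) h

/-- check of one representative -/
noncomputable def okZ (FB : ℕ) (P : List (List (ℕ × List (Bool × ℕ)))) (l : ℕ)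
    (z : ℕ × List (Bool × ℕ)) : Bool :=
  ra (Nat.ble z.1 255) (ra (ral (fun p => ra (Nat.beq (Nat.land p.2 z.1) p.2) (ra (tb FB p.2)
    (ra (Nat.beq (pc (Nat.xor z.1 p.2)) (bi l).1) (Nat.beq (pc z.1) (bi l).2)))) z.2)
  (ra (isZ (rap (bnd z.2 (lk (P.getD z.1 []))) [(true, l)])) (isZ (bnd z.2 (Dl FB z.1)))))

/-- formal product -/
noncomputable def pM (FB : ℕ) (S : ℕ) (L : List (Bool × ℕ)) (S' : ℕ) (L' : List (Bool × ℕ)) :
    List (Bool × ℕ) :=
  rf (fun p ih => rf (fun q ih' => bi2 (tb FB (Nat.lor p.2 q.2))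
    ((bi2 p.1 (Bool.not (bi2 q.1 (Bool.not (sgpB (Nat.xor S p.2) (Nat.xor S' q.2)))
      (sgpB (Nat.xor S p.2) (Nat.xor S' q.2)))) (bi2 q.1 (Bool.not (sgpB (Nat.xor S p.2)
      (Nat.xor S' q.2))) (sgpB (Nat.xor S p.2) (Nat.xor S' q.2))), Nat.lor p.2 q.2) :: ih') ih')
    ih L') [] L

/-- check of one product -/
noncomputable def okM (FB : ℕ) (P : List (List (ℕ × List (Bool × ℕ)))) (l : ℕ)
    (z : ℕ × List (Bool × ℕ)) (m : ℕ) (y : ℕ × List (Bool × ℕ)) : Bool :=
  bi2 (Nat.beq (Nat.land z.1 y.1) 0)
    (isZ (rap (bnd (pM FB z.1 z.2 y.1 y.2) (lk (P.getD (Nat.lor z.1 y.1) [])))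
      (bnd [(true, 0)] (fun _ => mt l m))))
    (isZ (mt l m))

/-- tables of faces are right -/
noncomputable def okF (F : List ℕ) (FB : ℕ) (fs : List ℕ) : Bool :=
  ra (ral (fun a => ra (bi2 (tb FB a) (F.any (fun f => Nat.beq (Nat.land a f) a))
    (!(F.any (fun f => Nat.beq (Nat.land a f) a))))
    (bi2 (tb FB a) (fs.any (fun b => Nat.beq a b)) true)) (List.range 256))
    (ral (fun a => Nat.ble a 255) fs)

/-- the table passes the check -/
structure Ok (D : Dat) : Prop where
  f : okF D.F D.FB D.fs = true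
  s : rix (okS D.FB D.fs D.Z D.P) D.H 0 = true
  h : rix (okH D.FB) D.H 0 = true
  p : rix (okP D.Z) D.P 0 = true
  z : rix (okZ D.FB D.P) D.Z 0 = true
  m : rix (fun l z => rix (fun m y => okM D.FB D.P l z m y) D.Z 0) D.Z 0 = true
  lH : D.H.length = 256
  lP : D.P.length = 256
  lZ : D.Z.length = 64
  z0 : D.Z.getD 0 (0, []) = (0, [(false, 0)])

end Pool.Agent.H250R3.Tor
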