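import Pool.Agent.H250R3.Tor.TabP

set_option autoImplicit false

/-! The table passes the check. -/

namespace Pool.Agent.H250R3.Tor

set_option maxRecDepth 10000 in
lemma okTP : Ok DP where
  f := by decide +kernel
  s := by decide +kernel
  h := by decide +kernel
  p := by decide +kernel
  z := by decide +kernel
  m := by decide +kernel
  lH := by decide +kernel
  lP := by decide +kernel
  lZ := by decide +kernel
  z0 := by decide +kernel

end Pool.Agent.H250R3.Tor
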