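import Pool.Agent.H250R3.Tor.Excl
import Pool.Agent.H250R3.Tor.OkQ
import Pool.Agent.H250R3.Tor.OkP

set_option autoImplicit false

/-! The two polytopes: certificates. -/

namespace Pool.Agent.H250R3.Tor

/-- normals of the facets -/
def aQ : Fin 8 → Fin 4 → ℤ :=
  ![![1, 0, 0, 0],
    ![0, 2, 0, 0],
    ![(-1), 2, (-3), (-1)],
    ![1, 0, 1, 0],
    ![0, 3, (-2), 1],
    ![(-3), (-1), 0, (-1)],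
    ![(-1), 0, (-2), 1],
    ![(-3), 2, (-1), (-2)]]

/-- vertices -/
def VQ : List (ℤ × (Fin 4 → ℤ)) := [
  (2, ![2, 1, 0, (-2)]),
  (10, ![10, 5, (-1), (-7)]),
  (2, ![2, 1, 0, (-1)]),
  (1, ![1, 0, 0, (-2)]),
  (15, ![15, (-5), (-14), 2]),
  (9, ![9, (-22), (-16), (-14)]),
  (9, ![9, (-10), (-4), (-26)]),
  (3, ![3, (-1), 0, 6]),
  (1, ![1, (-6), 0, 2]),
  (1, ![1, (-1), 0, (-3)]),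
  (6, ![5, 3, 1, (-8)]),
  (20, ![5, 10, 1, (-8)]),
  (2, ![(-3), 1, 5, 9]),
  (4, ![(-9), 2, 13, 21]),
  (2, ![(-1), 1, 3, 0]),
  (4, ![(-6), 2, 7, 12]),
  (18, ![(-14), 9, 12, 15]),
  (9, ![(-3), 1, (-2), 2]),
  (27, ![(-9), (-2), (-8), 2]),
  (21, ![(-12), 4, 1, 11])]

/-- points of the facets -/
def WQ : List (ℤ × (Fin 4 → ℤ)) := [
  (18, ![18, (-13), (-4), (-8)]),
  (8, ![(-2), 4, 7, 8]),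
  (36, ![12, 11, (-4), (-14)]),
  (4, ![(-1), 1, 5, 5]),
  (36, ![12, 11, (-4), (-5)]),
  (8, ![(-2), (-2), 7, 0]),
  (18, ![6, (-53), (-2), 20]),
  (18, ![6, (-8), (-2), (-25)])]

/-- minimal nonfaces -/
def NQ : List (ℕ × (Fin 8 → ℤ)) := [
  (35, ![(-4), (-2), 0, 1, 0, (-2), 0, 1]),
  (67, ![(-2), (-3), 0, 0, 2, 0, (-2), 0]),
  (131, ![(-6), (-1), 2, 5, 0, 0, 0, (-1)]),
  (49, ![(-7), 0, 0, 0, (-3), (-5), 2, 2]),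
  (145, ![(-4), 3, 2, 0, (-2), 0, 0, (-2)]),
  (193, ![(-3), 0, 1, 0, 0, 0, (-1), (-1)]),
  (38, ![0, (-27), (-20), 0, 0, (-30), 14, 32]),
  (70, ![0, (-9), (-2), 0, 6, 0, (-4), 2]),
  (194, ![0, (-21), 0, 0, 20, 10, (-18), (-4)]),
  (28, ![8, 5, (-2), (-10), (-2), 0, 0, 0]),
  (44, ![8, 0, (-4), (-9), 0, (-2), 0, 3]),
  (76, ![3, 1, (-1), (-5), 0, 0, (-1), 0]),
  (52, ![0, 0, (-7), 0, (-9), (-15), 13, 13]),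
  (56, ![0, 5, 0, (-4), (-4), (-2), 2, 0]),
  (152, ![2, 4, 0, (-5), (-2), 0, 0, (-1)]),
  (200, ![0, 1, 0, (-5), 0, 0, (-2), (-1)])]

/-- bounds -/
def BQ : List (ℤ × (Fin 8 → ℤ) × ℤ × (Fin 8 → ℤ)) := [
  (1, ![1, 0, 0, 0, 0, 0, 0, 0], 4, ![0, 1, 0, 4, 0, 2, 2, 0]),
  (2, ![0, 1, 0, 0, 0, 0, 0, 0], 1, ![2, 0, 0, 2, 0, 1, 1, 0]),
  (4, ![0, 1, 0, 8, 0, 2, 2, 0], 4, ![8, 1, 0, 0, 0, 2, 2, 0]),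
  (1, ![0, 0, 1, 11, 0, 2, 4, 0], 3, ![4, 0, 1, 3, 0, 2, 0, 0])]

set_option maxRecDepth 10000 in
lemma certQ : Cert aQ FQ VQ WQ NQ BQ where
  hV := by decide +kernel
  hN := by decide +kernel
  hN' := by decide +kernel
  hW := by decide +kernel
  hB := by decide +kernel
  hc := by decide +kernel

/-- matrix of a freely acting torus -/
def MQ : Fin 8 → Fin 3 → ℤ :=
  ![![1, 0, 0],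
    ![(-1), (-1), 0],
    ![0, (-1), 0],
    ![1, 1, 1],
    ![1, 0, 0],
    ![0, 1, 0],
    ![0, 0, 1],
    ![(-1), 0, 1]]

/-- left inverses supported off the facets -/
def IQ : List (Fin 3 → Fin 8 → ℤ) := [
  ![![0, 0, 0, 0, 1, 0, 0, 0], ![0, 0, 0, 0, 0, 1, 0, 0], ![0, 0, 0, 0, 0, 0, 1, 0]],
  ![![0, 0, 0, 1, 0, (-1), (-1), 0], ![0, 0, 0, 0, 0, 1, 0, 0], ![0, 0, 0, 0, 0, 0, 1, 0]],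
  ![![0, 0, 0, 0, 0, 0, 1, (-1)], ![0, 0, 0, 0, 0, 1, 0, 0], ![0, 0, 0, 0, 0, 0, 1, 0]],
  ![![0, 0, 0, 0, 1, 0, 0, 0], ![0, (-1), 0, 0, (-1), 0, 0, 0], ![0, 0, 0, 0, 0, 0, 1, 0]],
  ![![0, (-1), 0, 0, 0, (-1), 0, 0], ![0, 0, 0, 0, 0, 1, 0, 0], ![0, 1, 0, 1, 0, 0, 0, 0]],
  ![![0, 0, 0, 0, 1, 0, 0, 0], ![0, (-1), 0, 0, (-1), 0, 0, 0], ![0, 1, 0, 1, 0, 0, 0, 0]],
  ![![0, 0, 0, 0, 1, 0, 0, 0], ![0, (-1), 0, 0, (-1), 0, 0, 0], ![0, 1, 0, 1, 0, 0, 0, 0]],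
  ![![0, (-1), 1, 0, 0, 0, 0, 0], ![0, 0, (-1), 0, 0, 0, 0, 0], ![0, (-1), 1, 0, 0, 0, 0, 1]],
  ![![0, (-1), 1, 0, 0, 0, 0, 0], ![0, 0, (-1), 0, 0, 0, 0, 0], ![0, (-1), 1, 0, 0, 0, 0, 1]],
  ![![0, (-1), 1, 0, 0, 0, 0, 0], ![0, 0, (-1), 0, 0, 0, 0, 0], ![0, 0, 0, 0, 0, 0, 1, 0]],
  ![![1, 0, 0, 0, 0, 0, 0, 0], ![0, 0, 0, 0, 0, 1, 0, 0], ![0, 0, 0, 0, 0, 0, 1, 0]],
  ![![1, 0, 0, 0, 0, 0, 0, 0], ![0, 0, 0, 0, 0, 1, 0, 0], ![(-1), 0, 0, 1, 0, (-1), 0, 0]],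
  ![![1, 0, 0, 0, 0, 0, 0, 0], ![0, 0, (-1), 0, 0, 0, 0, 0], ![1, 0, 0, 0, 0, 0, 0, 1]],
  ![![1, 0, 0, 0, 0, 0, 0, 0], ![0, 0, (-1), 0, 0, 0, 0, 0], ![1, 0, 0, 0, 0, 0, 0, 1]],
  ![![1, 0, 0, 0, 0, 0, 0, 0], ![0, 0, (-1), 0, 0, 0, 0, 0], ![0, 0, 0, 0, 0, 0, 1, 0]],
  ![![1, 0, 0, 0, 0, 0, 0, 0], ![0, 0, (-1), 0, 0, 0, 0, 0], ![(-1), 0, 1, 1, 0, 0, 0, 0]],
  ![![1, 0, 0, 0, 0, 0, 0, 0], ![0, 0, (-1), 0, 0, 0, 0, 0], ![(-1), 0, 1, 1, 0, 0, 0, 0]],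
  ![![1, 0, 0, 0, 0, 0, 0, 0], ![(-1), (-1), 0, 0, 0, 0, 0, 0], ![0, 1, 0, 1, 0, 0, 0, 0]],
  ![![1, 0, 0, 0, 0, 0, 0, 0], ![(-1), (-1), 0, 0, 0, 0, 0, 0], ![0, 1, 0, 1, 0, 0, 0, 0]],
  ![![1, 0, 0, 0, 0, 0, 0, 0], ![(-1), (-1), 0, 0, 0, 0, 0, 0], ![0, 1, 0, 1, 0, 0, 0, 0]]]

set_option maxRecDepth 10000 in
lemma invQ : ∀ f ∈ FQ, ∃ N ∈ IQ, (∀ j, ∀ i ∈ om f, N j i = 0) ∧
    ∀ j l, ∑ i, N j i * MQ i l = if j = l then 1 else 0 := by decide +kernel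

/-- normals of the facets -/
def aP : Fin 8 → Fin 4 → ℤ :=
  ![![0, 0, (-1), 2],
    ![1, (-1), 0, 0],
    ![(-1), (-1), 0, 1],
    ![(-1), (-2), 3, (-2)],
    ![2, (-1), 1, (-2)],
    ![1, 2, (-1), (-1)],
    ![1, 2, 1, (-1)],
    ![(-1), 0, 0, 0]]

/-- vertices -/
def VP : List (ℤ × (Fin 4 → ℤ)) := [
  (5, ![2, (-3), 3, 4]),
  (3, ![(-2), (-5), (-11), (-4)]),
  (15, ![14, (-1), 21, 18]),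
  (3, ![3, 0, (-1), 1]),
  (1, ![1, 0, 1, 1]),
  (5, ![(-2), 3, 7, 6]),
  (1, ![(-1), (-1), (-3), (-1)]),
  (1, ![(-1), 1, 1, 1]),
  (10, ![11, 2, 0, 5]),
  (4, ![(-4), 5, 0, 2]),
  (2, ![(-1), (-3), (-3), (-2)]),
  (1, ![(-1), (-2), (-3), (-2)]),
  (1, ![(-1), (-2), (-4), (-2)]),
  (14, ![13, (-1), 19, 16]),
  (3, ![(-3), (-6), (-11), (-7)]),
  (5, ![(-5), (-9), (-12), (-9)]),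
  (7, ![(-7), 6, 8, 6]),
  (15, ![(-1), 3, 0, (-10)]),
  (1, ![(-1), (-1), (-2), (-2)]),
  (3, ![(-3), 2, 0, (-2)])]

/-- points of the facets -/
def WP : List (ℤ × (Fin 4 → ℤ)) := [
  (2, ![0, (-1), (-2), 0]),
  (2, ![0, (-2), (-3), (-1)]),
  (4, ![(-3), (-5), (-9), (-4)]),
  (10, ![(-3), (-8), (-7), (-6)]),
  (2, ![0, (-1), (-1), (-1)]),
  (6, ![(-5), (-8), (-17), (-10)]),
  (6, ![0, 2, 3, 1]),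
  (2, ![(-2), 0, (-1), (-1)])]

/-- minimal nonfaces -/
def NP : List (ℕ × (Fin 8 → ℤ)) := [
  (131, ![(-1), (-1), 3, 0, 0, 1, 0, (-3)]),
  (21, ![(-2), 7, (-4), 1, (-5), 0, 0, 0]),
  (25, ![(-14), 25, 0, (-1), (-15), 0, 4, 0]),
  (41, ![(-6), 0, 0, (-4), 0, (-5), 1, 0]),
  (137, ![(-7), 0, 10, (-3), 0, 0, 2, (-5)]),
  (145, ![(-1), 1, 0, 0, (-1), 0, 0, (-1)]),
  (70, ![2, (-1), (-3), 1, 0, 0, (-1), 0]),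
  (42, ![0, (-3), 1, (-1), 2, (-1), 0, 0]),
  (138, ![0, (-5), 4, (-1), 3, 0, 0, (-2)]),
  (98, ![10, (-20), 0, 0, 12, (-1), (-3), 0]),
  (194, ![0, (-4), 1, 0, 1, 0, (-1), (-4)]),
  (44, ![0, 1, (-5), (-1), 0, (-3), 0, 4]),
  (52, ![0, 2, (-3), 0, (-1), (-1), 0, 2]),
  (84, ![0, 6, (-7), 2, (-5), 0, (-1), 0]),
  (100, ![2, 0, (-8), 0, 0, (-3), (-1), 4]),
  (208, ![0, 0, 0, 10, (-12), 11, (-7), (-30)])]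

/-- bounds -/
def BP : List (ℤ × (Fin 8 → ℤ) × ℤ × (Fin 8 → ℤ)) := [
  (2, ![0, 2, 2, 0, 0, 1, 1, 0], 1, ![0, 0, 0, 0, 0, 0, 0, 1]),
  (2, ![0, 0, 2, 0, 0, 1, 1, 0], 1, ![0, 1, 0, 0, 0, 0, 0, 1]),
  (1, ![0, 1, 1, 0, 0, 0, 1, 1], 1, ![0, 1, 1, 0, 0, 1, 0, 1]),
  (1, ![2, 0, 0, 1, 0, 1, 0, 0], 2, ![0, 0, 1, 0, 1, 1, 0, 2])]

set_option maxRecDepth 10000 in
lemma certP : Cert aP FP VP WP NP BP where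
  hV := by decide +kernel
  hN := by decide +kernel
  hN' := by decide +kernel
  hW := by decide +kernel
  hB := by decide +kernel
  hc := by decide +kernel

/-- matrix of a freely acting torus -/
def MP : Fin 8 → Fin 4 → ℤ :=
  ![![(-1), 1, 0, 1],
    ![0, 0, 1, (-1)],
    ![0, (-1), 1, (-1)],
    ![1, 1, 1, 0],
    ![1, 0, 0, 0],
    ![0, 1, 0, 0],
    ![0, 0, 1, 0],
    ![0, 0, 0, 1]]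

/-- left inverses supported off the facets -/
def IP : List (Fin 4 → Fin 8 → ℤ) := [
  ![![0, 0, 0, 0, 1, 0, 0, 0], ![0, 0, 0, 0, 0, 1, 0, 0], ![0, 0, 0, 0, 0, 0, 1, 0], ![0, 0, 0, 0, 0, 0, 0, 1]],
  ![![0, 0, 0, 0, 1, 0, 0, 0], ![0, 0, 0, 1, (-1), 0, (-1), 0], ![0, 0, 0, 0, 0, 0, 1, 0], ![0, 0, 0, 0, 0, 0, 0, 1]],
  ![![0, 0, 0, 0, 1, 0, 0, 0], ![0, 0, 0, 0, 0, 1, 0, 0], ![0, 0, 1, 0, 0, 1, 0, 1], ![0, 0, 0, 0, 0, 0, 0, 1]],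
  ![![0, 0, 1, 1, 0, 0, (-2), 1], ![0, 0, (-1), 0, 0, 0, 1, (-1)], ![0, 0, 0, 0, 0, 0, 1, 0], ![0, 0, 0, 0, 0, 0, 0, 1]],
  ![![0, 0, (-1), 1, 0, (-2), 0, (-1)], ![0, 0, 0, 0, 0, 1, 0, 0], ![0, 0, 1, 0, 0, 1, 0, 1], ![0, 0, 0, 0, 0, 0, 0, 1]],
  ![![0, 0, 0, 0, 1, 0, 0, 0], ![0, 0, 0, 0, 0, 1, 0, 0], ![0, 1, 0, 0, 0, 0, 0, 1], ![0, 0, 0, 0, 0, 0, 0, 1]],
  ![![0, 0, 0, 0, 1, 0, 0, 0], ![0, 0, 0, 1, (-1), 0, (-1), 0], ![0, 0, 0, 0, 0, 0, 1, 0], ![0, (-1), 0, 0, 0, 0, 1, 0]],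
  ![![0, 0, 0, 0, 1, 0, 0, 0], ![0, 0, 0, 0, 0, 1, 0, 0], ![0, 0, 0, 1, (-1), (-1), 0, 0], ![0, (-1), 0, 1, (-1), (-1), 0, 0]],
  ![![0, (-2), 1, 1, 0, 0, 0, (-1)], ![0, 1, (-1), 0, 0, 0, 0, 0], ![0, 1, 0, 0, 0, 0, 0, 1], ![0, 0, 0, 0, 0, 0, 0, 1]],
  ![![0, 0, 0, 0, 1, 0, 0, 0], ![0, 1, (-1), 0, 0, 0, 0, 0], ![0, (-1), 1, 1, (-1), 0, 0, 0], ![0, (-2), 1, 1, (-1), 0, 0, 0]],
  ![![(-1), 0, 0, 0, 0, 1, 0, 1], ![0, 0, 0, 0, 0, 1, 0, 0], ![0, 0, 0, 0, 0, 0, 1, 0], ![0, 0, 0, 0, 0, 0, 0, 1]],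
  ![![0, 0, 0, 1, 0, (-1), (-1), 0], ![0, 0, 0, 0, 0, 1, 0, 0], ![0, 0, 0, 0, 0, 0, 1, 0], ![1, 0, 0, 1, 0, (-2), (-1), 0]],
  ![![0, 0, 0, 0, 1, 0, 0, 0], ![0, 0, 0, 1, (-1), 0, (-1), 0], ![0, 0, 0, 0, 0, 0, 1, 0], ![1, 0, 0, (-1), 2, 0, 1, 0]],
  ![![(-1), 0, 0, 0, 0, 1, 0, 1], ![0, 0, 0, 0, 0, 1, 0, 0], ![0, 0, 1, 0, 0, 1, 0, 1], ![0, 0, 0, 0, 0, 0, 0, 1]],
  ![![(-1), 0, (-1), 0, 0, 0, 1, 0], ![1, 0, 1, 1, 0, 0, (-2), 0], ![0, 0, 0, 0, 0, 0, 1, 0], ![(-1), 0, (-2), (-1), 0, 0, 3, 0]],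
  ![![(-1), (-1), 0, 0, 0, 1, 1, 0], ![0, 0, 0, 0, 0, 1, 0, 0], ![0, 0, 0, 0, 0, 0, 1, 0], ![0, (-1), 0, 0, 0, 0, 1, 0]],
  ![![0, 0, 0, 0, 1, 0, 0, 0], ![0, 0, 0, 0, 0, 1, 0, 0], ![1, 1, 0, 0, 1, (-1), 0, 0], ![1, 0, 0, 0, 1, (-1), 0, 0]],
  ![![(-1), 1, (-1), 0, 0, 0, 0, 1], ![0, 1, (-1), 0, 0, 0, 0, 0], ![0, 1, 0, 0, 0, 0, 0, 1], ![0, 0, 0, 0, 0, 0, 0, 1]],
  ![![(-1), 0, (-1), 0, 0, 0, 1, 0], ![0, 1, (-1), 0, 0, 0, 0, 0], ![0, 0, 0, 0, 0, 0, 1, 0], ![0, (-1), 0, 0, 0, 0, 1, 0]],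
  ![![0, 0, 0, 0, 1, 0, 0, 0], ![0, 1, (-1), 0, 0, 0, 0, 0], ![1, 0, 1, 0, 1, 0, 0, 0], ![1, (-1), 1, 0, 1, 0, 0, 0]]]

set_option maxRecDepth 10000 in
lemma invP : ∀ f ∈ FP, ∃ N ∈ IP, (∀ j, ∀ i ∈ om f, N j i = 0) ∧
    ∀ j l, ∑ i, N j i * MP i l = if j = l then 1 else 0 := by decide +kernel

lemma srchQ : srch FBQ = true := by decide +kernel

lemma F15 : om 15 ∈ KF FQ := ⟨15, by decide +kernel, subset_rfl⟩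

end Pool.Agent.H250R3.Tor
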