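import Pool.Agent.H250R3.Bet.NDefs

set_option autoImplicit false

/-!
Working forms of the definitions: the face ring and the Koszul algebra.
-/

open MvPolynomial

namespace Pool.Agent.H250R3.Tor

export Pool.Agent.H250R3.Bet (srIdeal)

section Algebra

universe u

variable (k : Type u) [Field k] {m : ℕ} (K : Set (Finset (Fin m)))

/-- The face ring (Stanley-Reisner ring) `k[K]`. -/
abbrev FaceRing : Type u := MvPolynomial (Fin m) k ⧸ srIdeal k K

/-- The Koszul algebra `Λ[u_1, …, u_m] ⊗ k[K]`, as the exterior algebra over `k[K]` of the free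
module with basis `u_1, …, u_m`. -/
abbrev Koszul : Type u := ExteriorAlgebra (FaceRing k K) (Fin m → FaceRing k K)

/-- the linear form `u_i ↦ v_i` -/
noncomputable def vform : Module.Dual (FaceRing k K) (Fin m → FaceRing k K) :=
  ∑ i, (Ideal.Quotient.mk (srIdeal k K) (X i)) • LinearMap.proj i

/-- The Koszul differential: the antiderivation over `k[K]` with `d u_i = v_i`
(contraction with `vform`). -/
noncomputable def dK : Koszul k K →ₗ[FaceRing k K] Koszul k K :=
  CliffordAlgebra.contractLeft (vform k K)

/-- the exterior generator `u_i` -/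
noncomputable def u (i : Fin m) : Koszul k K :=
  ExteriorAlgebra.ι (FaceRing k K) (Pi.single i 1)

/-- the exterior monomial `u_J`, the product of the `u_i`, `i ∈ J`, in increasing order -/
noncomputable def uJ (J : Finset (Fin m)) : Koszul k K :=
  ((J.sort (· ≤ ·)).map (u k K)).prod

/-- the monomial `v^α` of the face ring -/
noncomputable def vmon (α : Fin m →₀ ℕ) : FaceRing k K :=
  Ideal.Quotient.mk (srIdeal k K) (monomial α 1)

end Algebra

end Pool.Agent.H250R3.Tor
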