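import Pool.Agent.H250R3.Tor.Model

set_option autoImplicit false

/-! Simple polytopes from integer certificates. -/

namespace Pool.Agent.H250R3.Tor

open Pool.Agent.H250R3.Bet (SimplePolytope momentAngle realMomentAngle toricRanks realRanks
  buchstaber realBuchstaber)

/-- certificates for a simple polytope with integer normals and right hand sides one -/
structure Cert (a : Fin 8 → Fin 4 → ℤ) (F : List ℕ) (V : List (ℤ × (Fin 4 → ℤ)))
    (W : List (ℤ × (Fin 4 → ℤ))) (N : List (ℕ × (Fin 8 → ℤ)))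
    (B : List (ℤ × (Fin 8 → ℤ) × ℤ × (Fin 8 → ℤ))) : Prop where
  hV : ∀ f ∈ F, ∃ p ∈ V, 0 < p.1 ∧ (∀ i, ∑ j, a i j * p.2 j ≤ p.1) ∧
    ∀ i ∈ om f, ∑ j, a i j * p.2 j = p.1
  hN : ∀ b ∈ List.range 256, F.any (fun f => Nat.beq (Nat.land b f) b) = true ∨
    ∃ e ∈ N, Nat.land e.1 b = e.1
  hN' : ∀ e ∈ N, e.1 < 256 ∧ (∀ i, i ∉ om e.1 → 0 ≤ e.2 i) ∧ (∀ j, ∑ i, e.2 i * a i j = 0) ∧
    ∑ i, e.2 i < 0
  hW : ∀ i : Fin 8, 0 < (W.getD i (0, 0)).1 ∧
    ∑ j, a i j * (W.getD i (0, 0)).2 j = (W.getD i (0, 0)).1 ∧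
    ∀ i', i' ≠ i → ∑ j, a i' j * (W.getD i (0, 0)).2 j < (W.getD i (0, 0)).1
  hB : ∀ j : Fin 4, 0 < (B.getD j (0, 0, 0, 0)).1 ∧ 0 < (B.getD j (0, 0, 0, 0)).2.2.1 ∧
    (∀ i, 0 ≤ (B.getD j (0, 0, 0, 0)).2.1 i ∧ 0 ≤ (B.getD j (0, 0, 0, 0)).2.2.2 i) ∧
    (∀ j', ∑ i, (B.getD j (0, 0, 0, 0)).2.1 i * a i j' =
      if j' = j then (B.getD j (0, 0, 0, 0)).1 else 0) ∧
    (∀ j', ∑ i, (B.getD j (0, 0, 0, 0)).2.2.2 i * a i j' =
      if j' = j then -(B.getD j (0, 0, 0, 0)).2.2.1 else 0)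
  hc : ∀ f ∈ F, (om f).card ≤ 4

/-- the real normals -/
def nv (a : Fin 8 → Fin 4 → ℤ) (i : Fin 8) (j : Fin 4) : ℝ := a i j

lemma sum_swap (a : Fin 8 → Fin 4 → ℤ) (c : Fin 8 → ℤ) (x : Fin 4 → ℝ) :
    ∑ i, (c i : ℝ) * (nv a i ⬝ᵥ x) = ∑ j, ((∑ i, c i * a i j : ℤ) : ℝ) * x j := by
  simp only [dotProduct, nv, Finset.mul_sum]
  rw [Finset.sum_comm]
  apply Finset.sum_congr rfl
  intro j _
  push_cast
  rw [Finset.sum_mul]
  apply Finset.sum_congr rfl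
  intro i _
  ring

lemma dot_div (a : Fin 8 → Fin 4 → ℤ) (i : Fin 8) (d : ℤ) (v : Fin 4 → ℤ) :
    nv a i ⬝ᵥ (fun j => (v j : ℝ) / d) = ((∑ j, a i j * v j : ℤ) : ℝ) / d := by
  simp only [dotProduct, nv]
  push_cast
  rw [Finset.sum_div]
  apply Finset.sum_congr rfl
  intro j _
  ring

variable {a : Fin 8 → Fin 4 → ℤ} {F : List ℕ} {V : List (ℤ × (Fin 4 → ℤ))}
    {W : List (ℤ × (Fin 4 → ℤ))} {N : List (ℕ × (Fin 8 → ℤ))}
    {B : List (ℤ × (Fin 8 → ℤ) × ℤ × (Fin 8 → ℤ))}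

lemma mem_KF_of_point (h : Cert a F V W N B) {x : Fin 4 → ℝ} (hx : ∀ i, nv a i ⬝ᵥ x ≤ 1)
    {σ : Finset (Fin 8)} (hσ : ∀ i ∈ σ, nv a i ⬝ᵥ x = 1) : σ ∈ KF F := by
  rcases h.hN (mo σ) (List.mem_range.2 (mo_lt σ)) with h1 | ⟨e, he, h1⟩
  · have := (om_mem_KF (mo_lt σ)).2 h1
    rwa [om_mo] at this
  · exfalso
    obtain ⟨h2, h3, h4, h5⟩ := h.hN' e he
    have hsub : om e.1 ⊆ σ := by
      have := (om_subset (f := mo σ) h2).2 h1
      rwa [om_mo] at this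
    have h6 := sum_swap a e.2 x
    have h7 : ∑ j, ((∑ i, e.2 i * a i j : ℤ) : ℝ) * x j = 0 := by
      apply Finset.sum_eq_zero
      intro j _
      rw [h4 j]; simp
    have h8 : ∑ i, (e.2 i : ℝ) * (nv a i ⬝ᵥ x) ≤ ∑ i, (e.2 i : ℝ) := by
      apply Finset.sum_le_sum
      intro i _
      by_cases hi : i ∈ om e.1
      · rw [hσ i (hsub hi), mul_one]
      · have h9 : (0 : ℝ) ≤ e.2 i := by exact_mod_cast h3 i hi
        nlinarith [hx i]
    have h9 : ∑ i, (e.2 i : ℝ) < 0 := by exact_mod_cast h5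
    rw [h6, h7] at h8
    linarith

/-- the polytope -/
noncomputable def mkPoly (h : Cert a F V W N B) : SimplePolytope 4 8 where
  a := nv a
  b := fun _ => 1
  bounded := by
    have key : ∀ j : Fin 4, ∃ C : ℝ, ∀ x : Fin 4 → ℝ, (∀ i, nv a i ⬝ᵥ x ≤ 1) → |x j| ≤ C := by
      intro j
      obtain ⟨h1, h2, h3, h4, h5⟩ := h.hB j
      set D := B.getD j (0, 0, 0, 0) with hD
      have h1' : (1 : ℝ) ≤ D.1 := by exact_mod_cast h1
      have h2' : (1 : ℝ) ≤ D.2.2.1 := by exact_mod_cast h2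
      refine ⟨∑ i, (D.2.1 i : ℝ) + ∑ i, (D.2.2.2 i : ℝ), ?_⟩
      intro x hx
      have s1 := sum_swap a D.2.1 x
      have s2 := sum_swap a D.2.2.2 x
      have t1 : ∑ j', ((∑ i, D.2.1 i * a i j' : ℤ) : ℝ) * x j' = D.1 * x j := by
        rw [Finset.sum_eq_single j]
        · rw [h4 j, if_pos rfl]
        · intro b _ hb
          rw [h4 b, if_neg hb]; simp
        · intro hh; exact absurd (Finset.mem_univ _) hh
      have t2 : ∑ j', ((∑ i, D.2.2.2 i * a i j' : ℤ) : ℝ) * x j' = -D.2.2.1 * x j := by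
        rw [Finset.sum_eq_single j]
        · rw [h5 j, if_pos rfl]; push_cast; ring
        · intro b _ hb
          rw [h5 b, if_neg hb]; simp
        · intro hh; exact absurd (Finset.mem_univ _) hh
      have p1 : ∑ i, (D.2.1 i : ℝ) * (nv a i ⬝ᵥ x) ≤ ∑ i, (D.2.1 i : ℝ) := by
        apply Finset.sum_le_sum
        intro i _
        have h9 : (0 : ℝ) ≤ D.2.1 i := by exact_mod_cast (h3 i).1
        nlinarith [hx i]
      have p2 : ∑ i, (D.2.2.2 i : ℝ) * (nv a i ⬝ᵥ x) ≤ ∑ i, (D.2.2.2 i : ℝ) := by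
        apply Finset.sum_le_sum
        intro i _
        have h9 : (0 : ℝ) ≤ D.2.2.2 i := by exact_mod_cast (h3 i).2
        nlinarith [hx i]
      have q1 : (0 : ℝ) ≤ ∑ i, (D.2.1 i : ℝ) :=
        Finset.sum_nonneg (fun i _ => by exact_mod_cast (h3 i).1)
      have q2 : (0 : ℝ) ≤ ∑ i, (D.2.2.2 i : ℝ) :=
        Finset.sum_nonneg (fun i _ => by exact_mod_cast (h3 i).2)
      rw [s1, t1] at p1
      rw [s2, t2] at p2
      rw [abs_le]
      constructor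
      · by_contra hc
        push Not at hc
        nlinarith
      · by_contra hc
        push Not at hc
        nlinarith
    choose C hC using key
    refine ⟨∑ j, |C j|, ?_⟩
    intro x hx l
    exact ((hC l x hx).trans (le_abs_self _)).trans
      (Finset.single_le_sum (f := fun j => |C j|) (fun _ _ => abs_nonneg _) (Finset.mem_univ l))
  interior := ⟨0, by intro i; simp⟩
  facet := by
    intro i
    obtain ⟨h1, h2, h3⟩ := h.hW i
    have h1' : (0 : ℝ) < (W.getD i (0, 0)).1 := by exact_mod_cast h1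
    refine ⟨fun j => ((W.getD i (0, 0)).2 j : ℝ) / (W.getD i (0, 0)).1, ?_, ?_⟩
    · rw [dot_div, h2, div_self h1'.ne']
    · intro j hj
      rw [dot_div, div_lt_one h1']
      exact_mod_cast h3 j hj
  simple := by
    intro x hx
    by_contra hc
    push Not at hc
    classical
    have h1 : (Finset.univ.filter (fun i => nv a i ⬝ᵥ x = 1)) ∈ KF F := by
      apply mem_KF_of_point h hx
      intro i hi
      exact (Finset.mem_filter.1 hi).2
    obtain ⟨f, hf, h2⟩ := h1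
    have h3 := Finset.card_le_card h2
    have h4 := h.hc f hf
    have h5 : {i | nv a i ⬝ᵥ x = 1} =
        ((Finset.univ.filter (fun i => nv a i ⬝ᵥ x = 1) : Finset (Fin 8)) : Set (Fin 8)) := by
      ext i; simp
    rw [h5, Set.ncard_coe_finset] at hc
    lia

lemma mkPoly_K (h : Cert a F V W N B) : (mkPoly h).K = KF F := by
  ext σ
  constructor
  · rintro ⟨x, hx, hσ⟩
    exact mem_KF_of_point h hx hσ
  · rintro ⟨f, hf, hσ⟩
    obtain ⟨p, _, h1, h2, h3⟩ := h.hV f hf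
    have h1' : (0 : ℝ) < p.1 := by exact_mod_cast h1
    refine ⟨fun j => (p.2 j : ℝ) / p.1, ?_, ?_⟩
    · intro i
      change nv a i ⬝ᵥ _ ≤ 1
      rw [dot_div, div_le_one h1']
      exact_mod_cast h2 i
    · intro i hi
      change nv a i ⬝ᵥ _ = 1
      rw [dot_div, h3 i (hσ hi), div_self h1'.ne']

end Pool.Agent.H250R3.Tor
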