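import Pool.Agent.H250R3.Tor.Buch
import Pool.Agent.H250R3.Tor.Poly

set_option autoImplicit false

/-! Excluding free subgroups of rank four by a finite search. -/

namespace Pool.Agent.H250R3.Tor

open Pool.Agent.H250R3.Bet (realRanks)

/-- or -/
@[reducible] noncomputable def ro (a b : Bool) : Bool := bi2 a true b

lemma ro_iff {a b : Bool} : ro a b = true ↔ a = true ∨ b = true := by
  cases a <;> cases b <;> decide

/-- sixteen consecutive numbers -/
def L16 (s : ℕ) : List ℕ := (List.range 16).map (fun i => s + i)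

/-- the search -/
noncomputable def srch (FB : ℕ) : Bool :=
  ral (fun a => ro (tb FB a) (ral (fun b => ro (tb FB b) (ro (tb FB (Nat.xor a b))
    (ral (fun c => ro (tb FB c) (ro (tb FB (Nat.xor a c)) (ro (tb FB (Nat.xor b c))
      (ro (tb FB (Nat.xor a (Nat.xor b c)))
        (ral (fun d => ro (tb FB d) (ro (tb FB (Nat.xor a d)) (ro (tb FB (Nat.xor b d))
          (ro (tb FB (Nat.xor c d)) (ro (tb FB (Nat.xor a (Nat.xor b d)))
            (ro (tb FB (Nat.xor a (Nat.xor c d))) (ro (tb FB (Nat.xor b (Nat.xor c d)))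
              (tb FB (Nat.xor a (Nat.xor b (Nat.xor c d))))))))))) (L16 128))))))
        (L16 64)))) (L16 32))) (L16 16)

lemma tx (a b : ℕ) (j : ℕ) : (Nat.xor a b).testBit j = (a.testBit j ^^ b.testBit j) :=
  Nat.testBit_xor _ _ _

lemma mem4 : ∀ a ∈ List.range 256, a.testBit 4 = true → a.testBit 5 = false →
    a.testBit 6 = false → a.testBit 7 = false → a ∈ L16 16 := by decide +kernel

lemma mem5 : ∀ a ∈ List.range 256, a.testBit 4 = false → a.testBit 5 = true →
    a.testBit 6 = false → a.testBit 7 = false → a ∈ L16 32 := by decide +kernel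

lemma mem6 : ∀ a ∈ List.range 256, a.testBit 4 = false → a.testBit 5 = false →
    a.testBit 6 = true → a.testBit 7 = false → a ∈ L16 64 := by decide +kernel

lemma mem7 : ∀ a ∈ List.range 256, a.testBit 4 = false → a.testBit 5 = false →
    a.testBit 6 = false → a.testBit 7 = true → a ∈ L16 128 := by decide +kernel

lemma om15 : ∀ i : Fin 8, i ∉ om 15 ↔ 4 ≤ (i : ℕ) := by decide +kernel

lemma card_compl : Fintype.card {i : Fin 8 // i ∉ om 15} = 4 := by decide +kernel

lemma not_four {F : List ℕ} {FB : ℕ} {fs : List ℕ} (hF : okF F FB fs = true)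
    (h15 : om 15 ∈ KF F) (hs : srch FB = true) : 4 ∉ realRanks (KF F) := by
  rintro ⟨ψ, hinj, h⟩
  have hres := real_restrict ψ hinj h (down_KF F) h15
  have hbij := (Fintype.bijective_iff_injective_and_card _).2 ⟨hres, by
    rw [Fintype.card_fun, Fintype.card_fun, card_compl, Fintype.card_fin]⟩
  have hex : ∀ p : Fin 8, ∃ ε, ∀ i : Fin 8, 4 ≤ (i : ℕ) → ψ ε i = if i = p then -1 else 1 := by
    intro p
    obtain ⟨ε, hε⟩ := hbij.2 (fun i => if i.1 = p then -1 else 1)
    exact ⟨ε, fun i hi => congrFun hε ⟨i, (om15 i).2 hi⟩⟩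
  choose e he using hex
  let c : (Fin 4 → ℤˣ) → ℕ := fun ε => mo (sup ψ ε)
  have hcb : ∀ ε, ∀ j : Fin 8, (c ε).testBit j = decide (ψ ε j = -1) := by
    intro ε j
    change (mo (sup ψ ε)).testBit j = _
    rw [mo, Nat.testBit_ofBits_lt _ _ j.2]
    simp [sup]
  have hclt : ∀ ε, c ε < 256 := fun ε => mo_lt _
  have hcmul : ∀ ε ε', c (ε * ε') = Nat.xor (c ε) (c ε') := by
    intro ε ε'
    apply Nat.eq_of_testBit_eq
    intro j
    rw [tx]
    by_cases hj : j < 8
    · have h1 := hcb (ε * ε') ⟨j, hj⟩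
      have h2 := hcb ε ⟨j, hj⟩
      have h3 := hcb ε' ⟨j, hj⟩
      simp only at h1 h2 h3
      rw [h1, h2, h3, map_mul, Pi.mul_apply]
      rcases Int.units_eq_one_or (ψ ε ⟨j, hj⟩) with p | p <;>
        rcases Int.units_eq_one_or (ψ ε' ⟨j, hj⟩) with q | q <;> rw [p, q] <;> decide
    · rw [testBit_ge (hclt _) (by lia), testBit_ge (hclt _) (by lia),
        testBit_ge (hclt _) (by lia)]
      rfl
  have hface : ∀ ε, tb FB (c ε) = true → c ε = 0 := by
    intro ε hε
    have h1 := (okF_iff hF (hclt ε)).1 hε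
    rw [om_mo] at h1
    have h2 := real_free ψ h ε h1
    apply Nat.eq_of_testBit_eq
    intro j
    rw [Nat.zero_testBit]
    by_cases hj : j < 8
    · have h3 := hcb ε ⟨j, hj⟩
      simp only at h3
      rw [h3, h2]
      exact decide_eq_false (by rw [Pi.one_apply]; decide)
    · exact testBit_ge (hclt _) (by lia)
  have key : ∀ ε (j : ℕ), (c ε).testBit j = true → tb FB (c ε) = true → False := by
    intro ε j hj hε
    rw [hface ε hε, Nat.zero_testBit] at hj
    exact absurd hj (by decide)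
  have bit : ∀ p j : Fin 8, 4 ≤ (j : ℕ) → (c (e p)).testBit j = decide (j = p) := by
    intro p j hj
    rw [hcb, he p j hj]
    by_cases hjp : j = p
    · rw [if_pos hjp]; simp [hjp]
    · rw [if_neg hjp]; simp only [hjp, decide_false]; decide
  have b44 := bit 4 4 (by decide)
  have b45 := bit 4 5 (by decide)
  have b46 := bit 4 6 (by decide)
  have b47 := bit 4 7 (by decide)
  have b54 := bit 5 4 (by decide)
  have b55 := bit 5 5 (by decide)
  have b56 := bit 5 6 (by decide)
  have b57 := bit 5 7 (by decide)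
  have b64 := bit 6 4 (by decide)
  have b65 := bit 6 5 (by decide)
  have b66 := bit 6 6 (by decide)
  have b67 := bit 6 7 (by decide)
  have b74 := bit 7 4 (by decide)
  have b75 := bit 7 5 (by decide)
  have b76 := bit 7 6 (by decide)
  have b77 := bit 7 7 (by decide)
  change (c (e 4)).testBit 4 = true at b44
  change (c (e 4)).testBit 5 = false at b45
  change (c (e 4)).testBit 6 = false at b46
  change (c (e 4)).testBit 7 = false at b47
  change (c (e 5)).testBit 4 = false at b54
  change (c (e 5)).testBit 5 = true at b55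
  change (c (e 5)).testBit 6 = false at b56
  change (c (e 5)).testBit 7 = false at b57
  change (c (e 6)).testBit 4 = false at b64
  change (c (e 6)).testBit 5 = false at b65
  change (c (e 6)).testBit 6 = true at b66
  change (c (e 6)).testBit 7 = false at b67
  change (c (e 7)).testBit 4 = false at b74
  change (c (e 7)).testBit 5 = false at b75
  change (c (e 7)).testBit 6 = false at b76
  change (c (e 7)).testBit 7 = true at b77
  have m4 := mem4 _ (List.mem_range.2 (hclt (e 4))) b44 b45 b46 b47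
  have m5 := mem5 _ (List.mem_range.2 (hclt (e 5))) b54 b55 b56 b57
  have m6 := mem6 _ (List.mem_range.2 (hclt (e 6))) b64 b65 b66 b67
  have m7 := mem7 _ (List.mem_range.2 (hclt (e 7))) b74 b75 b76 b77
  have k4 := key (e 4) 4 b44
  have k5 := key (e 5) 5 b55
  have k6 := key (e 6) 6 b66
  have k7 := key (e 7) 7 b77
  have k45 := key (e 4 * e 5) 4 (by rw [hcmul, tx, b44, b54]; rfl)
  have k46 := key (e 4 * e 6) 4 (by rw [hcmul, tx, b44, b64]; rfl)
  have k47 := key (e 4 * e 7) 4 (by rw [hcmul, tx, b44, b74]; rfl)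
  have k56 := key (e 5 * e 6) 5 (by rw [hcmul, tx, b55, b65]; rfl)
  have k57 := key (e 5 * e 7) 5 (by rw [hcmul, tx, b55, b75]; rfl)
  have k67 := key (e 6 * e 7) 6 (by rw [hcmul, tx, b66, b76]; rfl)
  have k456 := key (e 4 * (e 5 * e 6)) 4 (by rw [hcmul, hcmul, tx, tx, b44, b54, b64]; rfl)
  have k457 := key (e 4 * (e 5 * e 7)) 4 (by rw [hcmul, hcmul, tx, tx, b44, b54, b74]; rfl)
  have k467 := key (e 4 * (e 6 * e 7)) 4 (by rw [hcmul, hcmul, tx, tx, b44, b64, b74]; rfl)
  have k567 := key (e 5 * (e 6 * e 7)) 5 (by rw [hcmul, hcmul, tx, tx, b55, b65, b75]; rfl)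
  have k4567 := key (e 4 * (e 5 * (e 6 * e 7))) 4
    (by rw [hcmul, hcmul, hcmul, tx, tx, tx, b44, b54, b64, b74]; rfl)
  simp only [hcmul] at k45 k46 k47 k56 k57 k67 k456 k457 k467 k567 k4567
  rw [srch, ral_iff] at hs
  have h1 := hs _ m4
  rw [ro_iff] at h1
  rcases h1 with h1 | h1
  · exact k4 h1
  rw [ral_iff] at h1
  have h2 := h1 _ m5
  rw [ro_iff, ro_iff] at h2
  rcases h2 with h2 | h2 | h2
  · exact k5 h2
  · exact k45 h2
  rw [ral_iff] at h2
  have h3 := h2 _ m6
  rw [ro_iff, ro_iff, ro_iff, ro_iff] at h3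
  rcases h3 with h3 | h3 | h3 | h3 | h3
  · exact k6 h3
  · exact k46 h3
  · exact k56 h3
  · exact k456 h3
  rw [ral_iff] at h3
  have h4 := h3 _ m7
  rw [ro_iff, ro_iff, ro_iff, ro_iff, ro_iff, ro_iff, ro_iff] at h4
  rcases h4 with h4 | h4 | h4 | h4 | h4 | h4 | h4 | h4
  · exact k7 h4
  · exact k47 h4
  · exact k57 h4
  · exact k67 h4
  · exact k457 h4
  · exact k467 h4
  · exact k567 h4
  · exact k4567 h4

end Pool.Agent.H250R3.Tor
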