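import Mathlib

set_option autoImplicit false

/-! Exterior monomials over an arbitrary commutative ring. -/

namespace Pool.Agent.H250R3.Tor

section Ext

variable (R : Type*) [CommRing R] {m : ℕ}

/-- the number of elements of `J` below `j`, as a sign -/
def sg (j : Fin m) (J : Finset (Fin m)) : ℤ := (-1) ^ (J.filter (· < j)).card

/-- exterior generator -/
noncomputable def eu (i : Fin m) : ExteriorAlgebra R (Fin m → R) :=
  ExteriorAlgebra.ι R (Pi.single i 1)

/-- exterior monomial -/
noncomputable def euJ (J : Finset (Fin m)) : ExteriorAlgebra R (Fin m → R) :=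
  ((J.sort (· ≤ ·)).map (eu R)).prod

lemma euJ_empty : euJ R (∅ : Finset (Fin m)) = 1 := by simp [euJ]

lemma euJ_insert_min {a : Fin m} {J : Finset (Fin m)} (h : ∀ b ∈ J, a < b) :
    euJ R (insert a J) = eu R a * euJ R J := by
  have ha : a ∉ J := fun h1 => lt_irrefl _ (h a h1)
  rw [euJ, Finset.sort_insert (r := (· ≤ ·)) (fun b hb => (h b hb).le) ha, List.map_cons,
    List.prod_cons, euJ]

lemma eu_mul_self (a : Fin m) : eu R a * eu R a = 0 := ExteriorAlgebra.ι_sq_zero _

lemma eu_mul_comm (a b : Fin m) : eu R a * eu R b = -(eu R b * eu R a) := by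
  have := ExteriorAlgebra.ι_add_mul_swap (R := R) (Pi.single a 1 : Fin m → R) (Pi.single b 1)
  exact eq_neg_of_add_eq_zero_left this

lemma sg_of_lt {j : Fin m} {J : Finset (Fin m)} (h : ∀ b ∈ J, j < b) : sg j J = 1 := by
  rw [sg, Finset.filter_eq_empty_iff.2 (fun b hb => not_lt.2 (h b hb).le)]
  simp

lemma sg_insert_lt {j a : Fin m} {J : Finset (Fin m)} (ha : a ∉ J) (h : a < j) :
    sg j (insert a J) = - sg j J := by
  rw [sg, sg, Finset.filter_insert, if_pos h, Finset.card_insert_of_notMem
    (fun h1 => ha (Finset.mem_filter.1 h1).1), pow_succ]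
  ring

lemma sg_insert_not_lt {j a : Fin m} {J : Finset (Fin m)} (h : ¬ a < j) :
    sg j (insert a J) = sg j J := by
  rw [sg, sg, Finset.filter_insert, if_neg h]

lemma sg_insert_self {j : Fin m} {J : Finset (Fin m)} : sg j (insert j J) = sg j J :=
  sg_insert_not_lt (lt_irrefl j)

lemma sg_erase_self {j : Fin m} {J : Finset (Fin m)} : sg j (J.erase j) = sg j J := by
  rw [sg, sg]
  congr 2
  ext b
  simp only [Finset.mem_filter, Finset.mem_erase]
  constructor
  · rintro ⟨⟨_, h1⟩, h2⟩; exact ⟨h1, h2⟩
  · rintro ⟨h1, h2⟩; exact ⟨⟨h2.ne, h1⟩, h2⟩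

lemma sg_mul_self (j : Fin m) (J : Finset (Fin m)) : sg j J * sg j J = 1 := by
  rw [sg, ← pow_add, ← two_mul, pow_mul]; norm_num

lemma eu_mul_euJ (j : Fin m) (J : Finset (Fin m)) :
    eu R j * euJ R J = if j ∈ J then 0 else sg j J • euJ R (insert j J) := by
  induction J using Finset.induction_on_min with
  | empty => simp [euJ_empty, sg, euJ]
  | insert a J ha ih =>
    have haJ : a ∉ J := fun h1 => lt_irrefl _ (ha a h1)
    rw [euJ_insert_min R ha]
    rcases lt_trichotomy j a with hlt | heq | hgt
    · have h1 : ∀ b ∈ insert a J, j < b := by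
        intro b hb
        rcases Finset.mem_insert.1 hb with rfl | hb
        · exact hlt
        · exact hlt.trans (ha b hb)
      have hj : j ∉ insert a J := fun h2 => lt_irrefl _ (h1 j h2)
      rw [if_neg hj, sg_of_lt h1, one_smul, euJ_insert_min R h1, euJ_insert_min R ha]
    · subst heq
      rw [if_pos (Finset.mem_insert_self _ _), ← mul_assoc, eu_mul_self, zero_mul]
    · rw [← mul_assoc, eu_mul_comm, neg_mul, mul_assoc, ih]
      by_cases hj : j ∈ J
      · rw [if_pos hj, if_pos (Finset.mem_insert_of_mem hj), mul_zero, neg_zero]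
      · have hj2 : j ∉ insert a J := by
          rw [Finset.mem_insert, not_or]; exact ⟨hgt.ne', hj⟩
        rw [if_neg hj, if_neg hj2, mul_smul_comm, sg_insert_lt haJ hgt, neg_smul]
        congr 2
        rw [← euJ_insert_min R, Finset.insert_comm]
        intro b hb
        rcases Finset.mem_insert.1 hb with rfl | hb
        · exact hgt
        · exact ha b hb

/-- sign of the product of two exterior monomials -/
def sgp (I J : Finset (Fin m)) : ℤ := ∏ a ∈ I, sg a J

lemma euJ_mul_euJ (I J : Finset (Fin m)) :
    euJ R I * euJ R J = if Disjoint I J then sgp I J • euJ R (I ∪ J) else 0 := by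
  induction I using Finset.induction_on_min with
  | empty => simp [euJ_empty, sgp]
  | insert a I ha ih =>
    have haI : a ∉ I := fun h1 => lt_irrefl _ (ha a h1)
    rw [euJ_insert_min R ha, mul_assoc, ih]
    by_cases hd : Disjoint I J
    · rw [if_pos hd, mul_smul_comm, eu_mul_euJ]
      by_cases haJ : a ∈ J
      · rw [if_pos (Finset.mem_union_right _ haJ), smul_zero, if_neg]
        rw [Finset.disjoint_insert_left]
        exact fun h => h.1 haJ
      · rw [if_neg (by rw [Finset.mem_union, not_or]; exact ⟨haI, haJ⟩),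
          if_pos (Finset.disjoint_insert_left.2 ⟨haJ, hd⟩), Finset.insert_union, smul_smul]
        congr 1
        rw [sgp, sgp, Finset.prod_insert haI, mul_comm]
        congr 1
        rw [sg, sg]
        congr 2
        ext b
        simp only [Finset.mem_filter, Finset.mem_union]
        constructor
        · rintro ⟨h1 | h1, h2⟩
          · exact absurd h2 (not_lt.2 (ha b h1).le)
          · exact ⟨h1, h2⟩
        · rintro ⟨h1, h2⟩; exact ⟨Or.inr h1, h2⟩
    · rw [if_neg hd, mul_zero, if_neg]
      rw [Finset.disjoint_insert_left]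
      exact fun h => hd h.2

/-- the Koszul form -/
def kform (v : Fin m → R) : Module.Dual R (Fin m → R) := ∑ i, v i • LinearMap.proj i

lemma kform_single (v : Fin m → R) (i : Fin m) : kform R v (Pi.single i 1) = v i := by
  simp [kform, Pi.single_apply]

lemma contract_eu_mul (v : Fin m → R) (a : Fin m) (x : ExteriorAlgebra R (Fin m → R)) :
    CliffordAlgebra.contractLeft (kform R v) (eu R a * x) =
      v a • x - eu R a * CliffordAlgebra.contractLeft (kform R v) x := by
  have := CliffordAlgebra.contractLeft_ι_mul (Q := (0 : QuadraticForm R (Fin m → R)))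
    (kform R v) (Pi.single a 1) x
  rw [kform_single] at this
  exact this

lemma contract_euJ (v : Fin m → R) (J : Finset (Fin m)) :
    CliffordAlgebra.contractLeft (kform R v) (euJ R J) =
      ∑ j ∈ J, sg j J • (v j • euJ R (J.erase j)) := by
  induction J using Finset.induction_on_min with
  | empty => rw [euJ_empty]; simpa using CliffordAlgebra.contractLeft_one _ _
  | insert a J ha ih =>
    have haJ : a ∉ J := fun h1 => lt_irrefl _ (ha a h1)
    rw [euJ_insert_min R ha, contract_eu_mul, ih, Finset.sum_insert haJ]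
    have hsa : sg a (insert a J) = 1 := by rw [sg_insert_self, sg_of_lt ha]
    rw [hsa, one_smul, Finset.erase_insert haJ, sub_eq_add_neg]
    congr 1
    rw [Finset.mul_sum, ← Finset.sum_neg_distrib]
    apply Finset.sum_congr rfl
    intro j hj
    have hja : j ≠ a := fun h => haJ (h ▸ hj)
    rw [sg_insert_lt haJ (ha j hj), neg_smul, mul_smul_comm, mul_smul_comm,
      Finset.erase_insert_of_ne hja.symm, euJ_insert_min R]
    intro b hb
    exact ha b (Finset.mem_of_mem_erase hb)

/-- the basis of exterior monomials -/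
noncomputable def extBasis : Module.Basis (Finset (Fin m)) R (ExteriorAlgebra R (Fin m → R)) :=
  (Pi.basisFun R (Fin m)).ExteriorAlgebra

lemma extBasis_apply (J : Finset (Fin m)) : extBasis R J = euJ R J := by
  rw [extBasis, ExteriorAlgebra.basis_apply_ofCard (n := J.card) _ rfl]
  change ExteriorAlgebra.ιMulti R J.card _ = _
  rw [ExteriorAlgebra.ιMulti_apply, euJ]
  congr 1
  apply List.ext_getElem
  · simp
  · intro i h1 h2
    simp only [List.getElem_ofFn, List.getElem_map, Function.comp, eu]
    congr 1
    exact Pi.basisFun_apply _ _ _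

lemma g_zero (x : ExteriorAlgebra R (Fin m → R)) : (0 : R) • x = 0 := zero_smul _ _

lemma g_one (x : ExteriorAlgebra R (Fin m → R)) : (1 : R) • x = x := one_smul _ _

lemma g_contract (r : R) (v : Fin m → R) (J : Finset (Fin m)) :
    CliffordAlgebra.contractLeft (kform R v) (r • euJ R J) =
      ∑ j ∈ J, sg j J • ((r * v j) • euJ R (J.erase j)) := by
  rw [map_smul, contract_euJ, Finset.smul_sum]
  apply Finset.sum_congr rfl
  intro j _
  rw [smul_comm, smul_smul]

lemma g_mul (r s : R) (I J : Finset (Fin m)) : (r • euJ R I) * (s • euJ R J) =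
    if Disjoint I J then sgp I J • ((r * s) • euJ R (I ∪ J)) else 0 := by
  rw [smul_mul_smul_comm, euJ_mul_euJ]
  split_ifs
  · rw [smul_comm]
  · rw [smul_zero]

end Ext

end Pool.Agent.H250R3.Tor
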