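import Pool.Agent.H250R3.Tor.Defs
import Pool.Agent.H250R3.Tor.Ext

set_option autoImplicit false

/-! Monomial basis of the Koszul algebra of a face ring. -/

open MvPolynomial

namespace Pool.Agent.H250R3.Tor

section

universe u

variable (k : Type u) [Field k] {m : ℕ} {K : Set (Finset (Fin m))}

/-- down-closed families -/
def Down (K : Set (Finset (Fin m))) : Prop := ∀ σ ∈ K, ∀ τ ⊆ σ, τ ∈ K

/-- exponent of a squarefree monomial -/
noncomputable def ind (σ : Finset (Fin m)) : Fin m →₀ ℕ := ∑ i ∈ σ, Finsupp.single i 1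

lemma ind_apply (σ : Finset (Fin m)) (i : Fin m) : ind σ i = if i ∈ σ then 1 else 0 := by
  simp [ind, Finsupp.finsetSum_apply, Finsupp.single_apply]

lemma support_ind (σ : Finset (Fin m)) : (ind σ).support = σ := by
  ext i
  rw [Finsupp.mem_support_iff, ind_apply]
  by_cases h : i ∈ σ <;> simp [h]

lemma ind_le {σ : Finset (Fin m)} {α : Fin m →₀ ℕ} : ind σ ≤ α ↔ σ ⊆ α.support := by
  constructor
  · intro h i hi
    rw [Finsupp.mem_support_iff]
    have := h i
    rw [ind_apply, if_pos hi] at this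
    lia
  · intro h i
    rw [ind_apply]
    by_cases hi : i ∈ σ
    · rw [if_pos hi]
      have := Finsupp.mem_support_iff.1 (h hi)
      lia
    · rw [if_neg hi]; exact Nat.zero_le _

lemma prod_X (σ : Finset (Fin m)) : (∏ i ∈ σ, X i : MvPolynomial (Fin m) k) =
    monomial (ind σ) 1 := by
  rw [ind, monomial_sum_one]
  rfl

lemma mem_srIdeal (hK : Down K) (p : MvPolynomial (Fin m) k) :
    p ∈ srIdeal k K ↔ ∀ α ∈ p.support, α.support ∉ K := by
  have h1 : srIdeal k K = Ideal.span ((fun s => monomial s (1 : k)) ''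
      {α : Fin m →₀ ℕ | ∃ σ : Finset (Fin m), σ ∉ K ∧ α = ind σ}) := by
    rw [srIdeal]
    congr 1
    ext p
    constructor
    · rintro ⟨σ, hσ, rfl⟩
      exact ⟨ind σ, ⟨σ, hσ, rfl⟩, (prod_X k σ).symm⟩
    · rintro ⟨_, ⟨σ, hσ, rfl⟩, rfl⟩
      exact ⟨σ, hσ, (prod_X k σ).symm⟩
  rw [h1, mem_ideal_span_monomial_image]
  constructor
  · intro h α hα hαK
    obtain ⟨_, ⟨σ, hσ, rfl⟩, h2⟩ := h α hα
    exact hσ (hK _ hαK _ (ind_le.1 h2))
  · intro h α hα
    exact ⟨ind α.support, ⟨α.support, h α hα, rfl⟩, ind_le.2 subset_rfl⟩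

lemma vmon_eq_zero (hK : Down K) {α : Fin m →₀ ℕ} (h : α.support ∉ K) : vmon k K α = 0 := by
  rw [vmon, Ideal.Quotient.eq_zero_iff_mem, mem_srIdeal k hK]
  intro β hβ
  have : β = α := by
    have := support_monomial_subset hβ
    simpa using this
  rw [this]; exact h

lemma vmon_mul (α β : Fin m →₀ ℕ) : vmon k K α * vmon k K β = vmon k K (α + β) := by
  rw [vmon, vmon, vmon, ← map_mul, monomial_mul, one_mul]

lemma vmon_zero : vmon k K 0 = 1 := by
  rw [vmon]; exact map_one _

lemma mk_eq_sum (p : MvPolynomial (Fin m) k) :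
    Ideal.Quotient.mk (srIdeal k K) p = ∑ α ∈ p.support, coeff α p • vmon k K α := by
  conv_lhs => rw [p.as_sum]
  rw [map_sum]
  apply Finset.sum_congr rfl
  intro α _
  have h2 : monomial α (coeff α p) = coeff α p • (monomial α (1 : k)) := by
    rw [smul_monomial, smul_eq_mul, mul_one]
  rw [h2]
  rfl

lemma vmon_li (hK : Down K) : LinearIndependent k
    (fun α : {α : Fin m →₀ ℕ // α.support ∈ K} => vmon k K α.1) := by
  rw [linearIndependent_iff']
  intro s g hg α hα
  by_contra hne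
  have h1 : Ideal.Quotient.mk (srIdeal k K) (∑ β ∈ s, g β • monomial β.1 (1 : k)) = 0 := by
    rw [map_sum]
    exact hg
  rw [Ideal.Quotient.eq_zero_iff_mem, mem_srIdeal k hK] at h1
  refine h1 α.1 ?_ α.2
  rw [mem_support_iff, coeff_sum]
  simp only [coeff_smul, coeff_monomial, smul_eq_mul, mul_ite, mul_one, mul_zero]
  rw [Finset.sum_eq_single α]
  · simpa using hne
  · intro β _ hβ
    rw [if_neg]
    intro h; exact hβ (Subtype.ext h)
  · intro h; exact absurd hα h

lemma vmon_span (hK : Down K) : ⊤ ≤ Submodule.span k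
    (Set.range (fun α : {α : Fin m →₀ ℕ // α.support ∈ K} => vmon k K α.1)) := by
  intro x _
  obtain ⟨p, rfl⟩ := Ideal.Quotient.mk_surjective x
  rw [mk_eq_sum]
  apply Submodule.sum_mem
  intro α _
  apply Submodule.smul_mem
  by_cases h : α.support ∈ K
  · exact Submodule.subset_span ⟨⟨α, h⟩, rfl⟩
  · rw [vmon_eq_zero k hK h]; exact Submodule.zero_mem _

/-- monomial basis of the face ring -/
noncomputable def faceBasis (hK : Down K) :
    Module.Basis {α : Fin m →₀ ℕ // α.support ∈ K} k (FaceRing k K) :=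
  Module.Basis.mk (vmon_li k hK) (vmon_span k hK)

/-- monomials of the Koszul algebra -/
noncomputable def qq (K : Set (Finset (Fin m))) (β : Fin m →₀ ℕ) (J : Finset (Fin m)) :
    Koszul k K := vmon k K β • uJ k K J

/-- monomial basis of the Koszul algebra -/
noncomputable def kBasis (hK : Down K) :
    Module.Basis ({α : Fin m →₀ ℕ // α.support ∈ K} × Finset (Fin m)) k (Koszul k K) :=
  (faceBasis k hK).smulTower (extBasis (FaceRing k K))

lemma kBasis_apply (hK : Down K) (p : {α : Fin m →₀ ℕ // α.support ∈ K} × Finset (Fin m)) :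
    kBasis k hK p = qq k K p.1.1 p.2 := by
  rw [kBasis, Module.Basis.smulTower_apply, faceBasis, Module.Basis.mk_apply, extBasis_apply]
  rfl

lemma qq_eq_zero (hK : Down K) {β : Fin m →₀ ℕ} {J : Finset (Fin m)} (h : β.support ∉ K) :
    qq k K β J = 0 := by
  rw [qq, vmon_eq_zero k hK h]
  exact g_zero (FaceRing k K) (euJ (FaceRing k K) J)

variable {V : Type*} [AddCommGroup V] [Module k V]

/-- linear map with given values on monomials -/
noncomputable def Lm (hK : Down K) (f : (Fin m →₀ ℕ) → Finset (Fin m) → V) :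
    Koszul k K →ₗ[k] V := (kBasis k hK).constr k (fun p => f p.1.1 p.2)

lemma Lm_apply (hK : Down K) (f : (Fin m →₀ ℕ) → Finset (Fin m) → V) {β : Fin m →₀ ℕ}
    {J : Finset (Fin m)} (h : β.support ∈ K) : Lm k hK f (qq k K β J) = f β J := by
  have := (kBasis k hK).constr_basis k (fun p => f p.1.1 p.2) (⟨β, h⟩, J)
  rw [kBasis_apply] at this
  exact this

lemma ext_qq (hK : Down K) {f g : Koszul k K →ₗ[k] V}
    (h : ∀ (β : Fin m →₀ ℕ) (J : Finset (Fin m)), β.support ∈ K →
      f (qq k K β J) = g (qq k K β J)) : f = g := by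
  apply (kBasis k hK).ext
  rintro ⟨⟨β, hβ⟩, J⟩
  rw [kBasis_apply]
  exact h β J hβ

/-- the differential as a `k`-linear map -/
noncomputable def dk (K : Set (Finset (Fin m))) : Koszul k K →ₗ[k] Koszul k K :=
  (dK k K).restrictScalars k

lemma dk_qq (β : Fin m →₀ ℕ) (J : Finset (Fin m)) :
    dk k K (qq k K β J) = ∑ j ∈ J, sg j J • qq k K (β + Finsupp.single j 1) (J.erase j) := by
  refine (g_contract (FaceRing k K) (vmon k K β)
    (fun i => Ideal.Quotient.mk (srIdeal k K) (X i)) J).trans (Finset.sum_congr rfl ?_)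
  intro j _
  have h : vmon k K β * Ideal.Quotient.mk (srIdeal k K) (X j) =
    vmon k K (β + Finsupp.single j 1) := vmon_mul k β _
  rw [h]
  rfl

lemma qq_mul (α β : Fin m →₀ ℕ) (I J : Finset (Fin m)) : qq k K α I * qq k K β J =
    if Disjoint I J then sgp I J • qq k K (α + β) (I ∪ J) else 0 := by
  have h := g_mul (FaceRing k K) (vmon k K α) (vmon k K β) I J
  rw [vmon_mul] at h
  exact h

lemma qq_one : qq k K 0 ∅ = 1 := by
  rw [qq, vmon_zero]
  exact (g_one (FaceRing k K) (euJ (FaceRing k K) ∅)).trans (euJ_empty _)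

end

end Pool.Agent.H250R3.Tor
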