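import Pool.Agent.H250R3.Tor.Face

set_option autoImplicit false

/-! The homotopy killing the multidegrees that are not squarefree. -/

namespace Pool.Agent.H250R3.Tor

section

universe u

variable (k : Type u) [Field k] {m : ℕ} {K : Set (Finset (Fin m))}

lemma sg_swap {i j : Fin m} {J : Finset (Fin m)} (hi : i ∉ J) (hj : j ∈ J) :
    sg i J * sg j (insert i J) = - (sg j J * sg i (J.erase j)) := by
  have hij : i ≠ j := fun h => hi (h ▸ hj)
  rcases lt_or_gt_of_ne hij with h | h
  · rw [sg_insert_lt hi h]
    have h1 : sg i (J.erase j) = sg i J := by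
      conv_rhs => rw [← Finset.insert_erase hj]
      rw [sg_insert_not_lt (not_lt.2 h.le)]
    rw [h1]; ring
  · rw [sg_insert_not_lt (not_lt.2 h.le)]
    have h1 : sg i J = - sg i (J.erase j) := by
      conv_lhs => rw [← Finset.insert_erase hj]
      rw [sg_insert_lt (Finset.notMem_erase _ _) h]
    rw [h1]; ring

open Classical in
/-- an index of multiplicity at least two -/
noncomputable def ix [Nonempty (Fin m)] (γ : Fin m →₀ ℕ) : Fin m :=
  Classical.epsilon (fun i => 2 ≤ γ i)

/-- the homotopy on a monomial -/
noncomputable def h0 [Nonempty (Fin m)] (K : Set (Finset (Fin m))) (β : Fin m →₀ ℕ)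
    (J : Finset (Fin m)) : Koszul k K :=
  if ix (β + ind J) ∈ J then 0 else
    sg (ix (β + ind J)) J • qq k K (β - Finsupp.single (ix (β + ind J)) 1)
      (insert (ix (β + ind J)) J)

/-- squarefree multidegree -/
def Sqf (β : Fin m →₀ ℕ) (J : Finset (Fin m)) : Prop := ∀ i, (β + ind J) i ≤ 1

lemma gam_eq (β : Fin m →₀ ℕ) {J : Finset (Fin m)} {j : Fin m} (hj : j ∈ J) :
    β + Finsupp.single j 1 + ind (J.erase j) = β + ind J := by
  ext i
  simp only [Finsupp.add_apply, ind_apply, Finsupp.single_apply, Finset.mem_erase]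
  by_cases h : j = i
  · subst h; simp [hj]
  · have h' : i ≠ j := fun e => h e.symm
    simp [h, h']

lemma h0_eq_zero [Nonempty (Fin m)] (hK : Down K) {β : Fin m →₀ ℕ} {J : Finset (Fin m)}
    (hs : ¬ Sqf β J) (h : β.support ∉ K) : h0 k K β J = 0 := by
  rw [h0]
  split_ifs with h1
  · rfl
  · have h2 : ∃ i, 2 ≤ (β + ind J) i := by
      by_contra hc
      push Not at hc
      exact hs (fun i => by have := hc i; lia)
    have h3 : 2 ≤ (β + ind J) (ix (β + ind J)) := Classical.epsilon_spec h2
    rw [Finsupp.add_apply, ind_apply, if_neg h1] at h3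
    rw [qq_eq_zero k hK, smul_zero]
    have h4 : (β - Finsupp.single (ix (β + ind J)) 1).support = β.support := by
      ext i
      rw [Finsupp.mem_support_iff, Finsupp.mem_support_iff, Finsupp.tsub_apply,
        Finsupp.single_apply]
      split_ifs with h5
      · rw [h5] at h3; lia
      · simp
    rw [h4]; exact h

/-- If a linear map agrees with `h0` on the monomials that are not squarefree then it is a
contraction of these multidegrees. -/
lemma h0_htpy [Nonempty (Fin m)] (H : Koszul k K →ₗ[k] Koszul k K)
    (hH : ∀ β J, ¬ Sqf β J → H (qq k K β J) = h0 k K β J) {β : Fin m →₀ ℕ}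
    {J : Finset (Fin m)} (hs : ¬ Sqf β J) :
    dk k K (H (qq k K β J)) + H (dk k K (qq k K β J)) = qq k K β J := by
  have h2 : ∃ i, 2 ≤ (β + ind J) i := by
    by_contra hc
    push Not at hc
    exact hs (fun i => by have := hc i; lia)
  have h3 : 2 ≤ (β + ind J) (ix (β + ind J)) := Classical.epsilon_spec h2
  have hsj : ∀ j ∈ J, ¬ Sqf (β + Finsupp.single j 1) (J.erase j) := by
    intro j hj hh
    apply hs
    intro i
    have := hh i
    rwa [gam_eq β hj] at this
  have hd : H (dk k K (qq k K β J)) =
      ∑ j ∈ J, sg j J • h0 k K (β + Finsupp.single j 1) (J.erase j) := by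
    rw [dk_qq, map_sum]
    apply Finset.sum_congr rfl
    intro j hj
    rw [map_zsmul, hH _ _ (hsj j hj)]
  have hh0 : ∀ j ∈ J, h0 k K (β + Finsupp.single j 1) (J.erase j) =
      if ix (β + ind J) ∈ J.erase j then 0 else
        sg (ix (β + ind J)) (J.erase j) •
          qq k K (β + Finsupp.single j 1 - Finsupp.single (ix (β + ind J)) 1)
            (insert (ix (β + ind J)) (J.erase j)) := by
    intro j hj
    rw [h0, gam_eq β hj]
  rw [hd, hH _ _ hs, h0]
  set i := ix (β + ind J) with hi
  by_cases hiJ : i ∈ J
  · rw [if_pos hiJ, map_zero, zero_add]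
    rw [Finset.sum_eq_single_of_mem i hiJ]
    · rw [hh0 i hiJ, if_neg (Finset.notMem_erase _ _), smul_smul, sg_erase_self, sg_mul_self,
        one_smul, Finset.insert_erase hiJ]
      congr 1
      ext l
      simp only [Finsupp.tsub_apply, Finsupp.add_apply]
      lia
    · intro j hj hji
      rw [hh0 j hj, if_pos (Finset.mem_erase.2 ⟨fun h => hji h.symm, hiJ⟩), smul_zero]
  · rw [if_neg hiJ, map_zsmul, dk_qq, Finset.sum_insert hiJ, smul_add, smul_smul,
      sg_insert_self, sg_mul_self, one_smul, Finset.erase_insert hiJ]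
    rw [Finsupp.add_apply, ind_apply, if_neg hiJ] at h3
    have h4 : β - Finsupp.single i 1 + Finsupp.single i 1 = β := by
      ext l
      simp only [Finsupp.tsub_apply, Finsupp.add_apply, Finsupp.single_apply]
      split_ifs with h5
      · subst h5; lia
      · simp
    rw [h4, add_assoc]
    have h5 : sg i J • ∑ j ∈ J, sg j (insert i J) •
        qq k K (β - Finsupp.single i 1 + Finsupp.single j 1) ((insert i J).erase j) +
        ∑ j ∈ J, sg j J • h0 k K (β + Finsupp.single j 1) (J.erase j) = 0 := by
      rw [Finset.smul_sum, ← Finset.sum_add_distrib]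
      apply Finset.sum_eq_zero
      intro j hj
      have hij : i ≠ j := fun h => hiJ (h ▸ hj)
      rw [hh0 j hj, if_neg (fun h => hiJ (Finset.mem_of_mem_erase h)), smul_smul, smul_smul,
        sg_swap hiJ hj, Finset.erase_insert_of_ne hij]
      have h6 : β - Finsupp.single i 1 + Finsupp.single j 1 =
          β + Finsupp.single j 1 - Finsupp.single i 1 := by
        ext l
        simp only [Finsupp.tsub_apply, Finsupp.add_apply, Finsupp.single_apply]
        by_cases hl : i = l
        · subst hl
          simp only [if_neg (Ne.symm hij)]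
          simp
        · simp [hl]
      rw [h6, neg_smul, neg_add_cancel]
    rw [h5, add_zero]

end

end Pool.Agent.H250R3.Tor
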