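import Pool.Agent.H250R3.Tor.Sdr

set_option autoImplicit false

/-! The Tor-algebra of a table. -/

namespace Pool.Agent.H250R3.Tor

section

universe u

variable (k : Type u) [Field k] {D : Dat}

lemma Qm_mul_disj {F : List ℕ} {S a S' b : ℕ} (hS : S < 256) (ha : Nat.land a S = a)
    (hS' : S' < 256) (hb : Nat.land b S' = b) (hd : Nat.land S S' = 0) :
    Qm k F S a * Qm k F S' b = sb (sgpB (Nat.xor S a) (Nat.xor S' b)) •
      Qm k F (Nat.lor S S') (Nat.lor a b) := by
  have haS := sub_of_land hS ha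
  have hbS := sub_of_land hS' hb
  have hdS : Disjoint (om S) (om S') := by
    rw [Finset.disjoint_iff_inter_eq_empty, ← om_land, hd]
    decide +kernel
  have h1 : Disjoint (om S \ om a) (om S' \ om b) :=
    Disjoint.mono Finset.sdiff_subset Finset.sdiff_subset hdS
  have h2 : Disjoint (om a) (om b) := Disjoint.mono haS hbS hdS
  rw [Qm, Qm, qq_mul, if_pos h1, ← ind_union h2, ← om_lor, ← om_xor haS, ← om_xor hbS,
    sgp_eq (xor_lt hS (land_lt hS ha)) (xor_lt hS' (land_lt hS' hb)), Qm]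
  congr 2
  rw [om_xor haS, om_xor hbS, om_lor, om_lor]
  rw [Finset.disjoint_left] at hdS
  ext i
  simp only [Finset.mem_union, Finset.mem_sdiff, not_or]
  constructor
  · rintro (⟨p1, p2⟩ | ⟨p1, p2⟩)
    · exact ⟨Or.inl p1, p2, fun p3 => hdS p1 (hbS p3)⟩
    · exact ⟨Or.inr p1, fun p3 => hdS (haS p3) p1, p2⟩
  · rintro ⟨p1 | p1, p2, p3⟩
    · exact Or.inl ⟨p1, p2⟩
    · exact Or.inr ⟨p1, p3⟩

lemma POp_mul_nd {S a S' b : ℕ} (hS : S < 256) (ha : Nat.land a S = a)
    (hS' : S' < 256) (hb : Nat.land b S' = b) (hd : Nat.land S S' ≠ 0) :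
    POp k D (Qm k D.F S a * Qm k D.F S' b) = 0 := by
  have haS := sub_of_land hS ha
  have hbS := sub_of_land hS' hb
  have hne : (om S ∩ om S').Nonempty := by
    rw [Finset.nonempty_iff_ne_empty]
    intro h
    apply hd
    rw [← om_land] at h
    have h1 : mo (om (Nat.land S S')) = mo ∅ := by rw [h]
    rw [mo_om (a := Nat.land S S') (lt_of_le_of_lt Nat.and_le_right hS')] at h1
    rw [h1]
    decide +kernel
  obtain ⟨i, hi⟩ := hne
  rw [Finset.mem_inter] at hi
  rw [Qm, Qm, qq_mul]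
  split_ifs with h1
  · rw [map_zsmul, POp_nsq k, smul_zero]
    intro hs
    have h2 := hs i
    rw [Finsupp.add_apply, Finsupp.add_apply, ind_apply, ind_apply, ind_apply] at h2
    have h3 : i ∈ om S \ om a → i ∉ om S' \ om b := fun hh => Finset.disjoint_left.1 h1 hh
    simp only [Finset.mem_union, Finset.mem_sdiff] at h2 h3
    by_cases p1 : i ∈ om a <;> by_cases p2 : i ∈ om b <;> simp_all
  · rw [map_zero]

lemma POp_pM (hD : Ok D) {S S' : ℕ} (hS : S < 256) (hS' : S' < 256) (hd : Nat.land S S' = 0)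
    (L L' : List (Bool × ℕ)) (hL : ∀ p ∈ L, Nat.land p.2 S = p.2)
    (hL' : ∀ p ∈ L', Nat.land p.2 S' = p.2) :
    evb (Qm k D.F S) L * evb (Qm k D.F S') L' =
      evb (Qm k D.F (Nat.lor S S')) (pM D.FB S L S' L') ∧
    ∀ e ∈ pM D.FB S L S' L', tb D.FB e.2 = true ∧ Nat.land e.2 (Nat.lor S S') = e.2 := by
  have inner : ∀ (p : Bool × ℕ), Nat.land p.2 S = p.2 → ∀ (M L' : List (Bool × ℕ)),
      (∀ p ∈ L', Nat.land p.2 S' = p.2) →
      (∀ e ∈ M, tb D.FB e.2 = true ∧ Nat.land e.2 (Nat.lor S S') = e.2) →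
      (evb (Qm k D.F (Nat.lor S S')) (rf (fun q ih' => bi2 (tb D.FB (Nat.lor p.2 q.2))
        ((bi2 p.1 (Bool.not (bi2 q.1 (Bool.not (sgpB (Nat.xor S p.2) (Nat.xor S' q.2)))
          (sgpB (Nat.xor S p.2) (Nat.xor S' q.2)))) (bi2 q.1 (Bool.not (sgpB (Nat.xor S p.2)
          (Nat.xor S' q.2))) (sgpB (Nat.xor S p.2) (Nat.xor S' q.2))), Nat.lor p.2 q.2) :: ih')
          ih') M L') =
        (sb p.1 • Qm k D.F S p.2) * evb (Qm k D.F S') L' +
          evb (Qm k D.F (Nat.lor S S')) M) ∧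
      ∀ e ∈ (rf (fun q ih' => bi2 (tb D.FB (Nat.lor p.2 q.2))
        ((bi2 p.1 (Bool.not (bi2 q.1 (Bool.not (sgpB (Nat.xor S p.2) (Nat.xor S' q.2)))
          (sgpB (Nat.xor S p.2) (Nat.xor S' q.2)))) (bi2 q.1 (Bool.not (sgpB (Nat.xor S p.2)
          (Nat.xor S' q.2))) (sgpB (Nat.xor S p.2) (Nat.xor S' q.2))), Nat.lor p.2 q.2) :: ih')
          ih') M L'), tb D.FB e.2 = true ∧ Nat.land e.2 (Nat.lor S S') = e.2 := by
    intro p hp M L' hL' hM
    induction L' with
    | nil =>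
      refine ⟨?_, hM⟩
      simp [rf]
    | cons q L' ih =>
      have ih' := ih (fun p hp => hL' p (List.mem_cons_of_mem _ hp))
      have hq := hL' q (by simp)
      have hlt : Nat.lor p.2 q.2 < 256 := lor_lt (land_lt hS hp) (land_lt hS' hq)
      have hsub : Nat.land (Nat.lor p.2 q.2) (Nat.lor S S') = Nat.lor p.2 q.2 := by
        apply (om_subset hlt).1
        rw [om_lor, om_lor]
        exact Finset.union_subset_union (sub_of_land hS hp) (sub_of_land hS' hq)
      have hmul := Qm_mul_disj k (F := D.F) hS hp hS' hq hd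
      set X := rf (fun q ih' => bi2 (tb D.FB (Nat.lor p.2 q.2))
        ((bi2 p.1 (Bool.not (bi2 q.1 (Bool.not (sgpB (Nat.xor S p.2) (Nat.xor S' q.2)))
          (sgpB (Nat.xor S p.2) (Nat.xor S' q.2)))) (bi2 q.1 (Bool.not (sgpB (Nat.xor S p.2)
          (Nat.xor S' q.2))) (sgpB (Nat.xor S p.2) (Nat.xor S' q.2))), Nat.lor p.2 q.2) :: ih')
          ih') M L' with hX
      change evb _ (bi2 (tb D.FB (Nat.lor p.2 q.2))
        ((bi2 p.1 (Bool.not (bi2 q.1 (Bool.not (sgpB (Nat.xor S p.2) (Nat.xor S' q.2)))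
          (sgpB (Nat.xor S p.2) (Nat.xor S' q.2)))) (bi2 q.1 (Bool.not (sgpB (Nat.xor S p.2)
          (Nat.xor S' q.2))) (sgpB (Nat.xor S p.2) (Nat.xor S' q.2))), Nat.lor p.2 q.2) :: X)
          X) = _ ∧ ∀ e ∈ (bi2 (tb D.FB (Nat.lor p.2 q.2))
        ((bi2 p.1 (Bool.not (bi2 q.1 (Bool.not (sgpB (Nat.xor S p.2) (Nat.xor S' q.2)))
          (sgpB (Nat.xor S p.2) (Nat.xor S' q.2)))) (bi2 q.1 (Bool.not (sgpB (Nat.xor S p.2)
          (Nat.xor S' q.2))) (sgpB (Nat.xor S p.2) (Nat.xor S' q.2))), Nat.lor p.2 q.2) :: X)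
          X), _
      cases hb : tb D.FB (Nat.lor p.2 q.2) with
      | false =>
        rw [bi2_false]
        refine ⟨?_, ih'.2⟩
        rw [ih'.1, evb_cons, mul_add, smul_mul_smul_comm, hmul, Qm_zero k
          (S := Nat.lor S S') (a := Nat.lor p.2 q.2), smul_zero, smul_zero, zero_add]
        rw [← okF_iff hD.f hlt, hb]
        simp
      | true =>
        rw [bi2_true]
        constructor
        · rw [evb_cons, ih'.1, evb_cons, mul_add, smul_mul_smul_comm, hmul]
          change sb (bi2 p.1 (Bool.not (bi2 q.1 (Bool.not (sgpB (Nat.xor S p.2)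
            (Nat.xor S' q.2))) (sgpB (Nat.xor S p.2) (Nat.xor S' q.2)))) (bi2 q.1
            (Bool.not (sgpB (Nat.xor S p.2) (Nat.xor S' q.2))) (sgpB (Nat.xor S p.2)
            (Nat.xor S' q.2)))) • Qm k D.F (Nat.lor S S') (Nat.lor p.2 q.2) + _ = _
          rw [sb_xor, sb_xor, smul_smul, mul_assoc, add_assoc]
        · intro e he
          rw [List.mem_cons] at he
          rcases he with he | he
          · subst he
            exact ⟨hb, hsub⟩
          · exact ih'.2 e he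
  induction L with
  | nil => refine ⟨by simp [pM, rf], ?_⟩; intro e he; exact absurd he (by simp [pM, rf])
  | cons p L ih =>
    have ih' := ih (fun p hp => hL p (List.mem_cons_of_mem _ hp))
    have := inner p (hL p (by simp)) (pM D.FB S L S' L') L' hL' ih'.2
    refine ⟨?_, this.2⟩
    rw [evb_cons, add_mul, ih'.1]
    exact this.1.symm

lemma evb_nd {S S' : ℕ} (hS : S < 256) (hS' : S' < 256) (hd : Nat.land S S' ≠ 0)
    (L L' : List (Bool × ℕ)) (hL : ∀ p ∈ L, Nat.land p.2 S = p.2)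
    (hL' : ∀ p ∈ L', Nat.land p.2 S' = p.2) :
    POp k D (evb (Qm k D.F S) L * evb (Qm k D.F S') L') = 0 := by
  induction L with
  | nil => simp
  | cons p L ih =>
    rw [evb_cons, add_mul, map_add, ih (fun p hp => hL p (List.mem_cons_of_mem _ hp)), add_zero,
      smul_mul_assoc, map_zsmul]
    have hp := hL p (by simp)
    have : POp k D (Qm k D.F S p.2 * evb (Qm k D.F S') L') = 0 := by
      clear ih
      induction L' with
      | nil => simp
      | cons q L' ih' =>
        rw [evb_cons, mul_add, map_add, ih' (fun p hp => hL' p (List.mem_cons_of_mem _ hp)),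
          add_zero, mul_smul_comm, map_zsmul, POp_mul_nd k hS hp hS' (hL' q (by simp)) hd,
          smul_zero]
    rw [this, smul_zero]

/-- products of representatives -/
lemma POp_zmul (hD : Ok D) {l m : ℕ} (hl : l < 64) (hm : m < 64) :
    POp k D (zc k D l * zc k D m) = evb (eP k) (mt l m) := by
  have h0 := rix_getD _ (0, []) _ _ hD.m l (by rw [hD.lZ]; exact hl)
  have h1 := rix_getD _ (0, []) _ _ h0 m (by rw [hD.lZ]; exact hm)
  rw [zero_add, zero_add, okM] at h1
  have hS := zS hD hl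
  have hS' := zS hD hm
  by_cases hd : Nat.land (D.Z.getD l (0, [])).1 (D.Z.getD m (0, [])).1 = 0
  · have h2 : Nat.beq (Nat.land (D.Z.getD l (0, [])).1 (D.Z.getD m (0, [])).1) 0 = true := by
      rw [hd]; rfl
    rw [h2, bi2_true] at h1
    have h3 := evb_isZ (eP k) h1
    rw [evb_rap, evb_bnd, evb_bnd, evb_cons, evb_nil, add_zero] at h3
    have h4 : sb true = -1 := rfl
    rw [h4, neg_one_smul, ← sub_eq_add_neg, sub_eq_zero] at h3
    obtain ⟨h5, h6⟩ := POp_pM k hD hS hS' hd (D.Z.getD l (0, [])).2 (D.Z.getD m (0, [])).2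
      (fun p hp => (zT hD hl hp).1) (fun p hp => (zT hD hm hp).1)
    rw [zc, zc, h5, map_evb, ← h3]
    apply evb_congr
    intro e he
    obtain ⟨h7, h8⟩ := h6 e he
    have h9 : Nat.lor (D.Z.getD l (0, [])).1 (D.Z.getD m (0, [])).1 < 256 := lor_lt hS hS'
    exact POp_Qm k h9 h8 ((okF_iff hD.f (land_lt h9 h8)).1 h7)
  · have h2 : Nat.beq (Nat.land (D.Z.getD l (0, [])).1 (D.Z.getD m (0, [])).1) 0 = false := by
      rw [← Bool.not_eq_true]
      intro h; exact hd (Nat.eq_of_beq_eq_true h)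
    rw [h2, bi2_false] at h1
    rw [evb_isZ (eP k) h1]
    exact evb_nd k hS hS' hd _ _ (fun p hp => (zT hD hl hp).1) (fun p hp => (zT hD hm hp).1)

end

end Pool.Agent.H250R3.Tor
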