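import Pool.Agent.H250R3.Tor.Bridge

set_option autoImplicit false

/-! The Tor-algebra of a table. -/

namespace Pool.Agent.H250R3.Tor

section

universe u

variable (k : Type u) [Field k] {D : Dat}

/-- the algebra of cycles of the statement -/
abbrev CY (K : Set (Finset (Fin 8))) : Type u := Bet.Cyc k (Bet.faceVar k K)

/-- cycles as elements of the working form of the Koszul algebra -/
noncomputable def cval (K : Set (Finset (Fin 8))) : CY k K →ₗ[k] Koszul k K where
  toFun x := toK k x.val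
  map_add' _ _ := rfl
  map_smul' _ _ := rfl

lemma cval_mul (K : Set (Finset (Fin 8))) (x y : CY k K) :
    cval k K (x * y) = cval k K x * cval k K y := rfl

lemma cval_one (K : Set (Finset (Fin 8))) : cval k K 1 = 1 := rfl

lemma dk_cval (K : Set (Finset (Fin 8))) (x : CY k K) : dk k K (cval k K x) = 0 := x.2

/-- a cycle from its value -/
noncomputable def mkC (K : Set (Finset (Fin 8))) (x : Koszul k K) (h : dk k K x = 0) : CY k K :=
  ⟨ofK k x, h⟩

lemma cval_mkC (K : Set (Finset (Fin 8))) (x : Koszul k K) (h : dk k K x = 0) :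
    cval k K (mkC k K x h) = x := rfl

/-- the representatives as cycles -/
noncomputable def zcy (hD : Ok D) (l : Fin 64) : CY k (KF D.F) :=
  mkC k (KF D.F) (zc k D l) (dk_zc k hD l.2)

/-- coordinates of a cycle -/
noncomputable def fc (D : Dat) : CY k (KF D.F) →ₗ[k] (Fin 64 → k) :=
  POp k D ∘ₗ cval k (KF D.F)

lemma fc_apply (x : CY k (KF D.F)) : fc k D x = POp k D (cval k (KF D.F) x) := rfl

lemma fc_zcy (hD : Ok D) (l : Fin 64) : fc k D (zcy k hD l) = eP k l := POp_zc k hD l.2

lemma eP_eq (l : Fin 64) : eP k l = Pi.single l 1 := by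
  ext l'
  rw [eP, Pi.single_apply]
  by_cases h : l' = l
  · rw [if_pos h, if_pos (by rw [h])]
  · rw [if_neg h, if_neg (fun h2 => h (Fin.ext h2))]

lemma sum_eP (v : Fin 64 → k) : ∑ l : Fin 64, v l • eP k l = v := by
  simp only [eP_eq]
  ext l'
  simp [Finset.sum_apply, Pi.single_apply]

lemma fc_surj (hD : Ok D) : Function.Surjective (fc k D) := by
  intro v
  refine ⟨∑ l : Fin 64, v l • zcy k hD l, ?_⟩
  rw [map_sum]
  simp only [map_smul, fc_zcy]
  exact sum_eP k v

/-- the class of a cycle, as a linear map -/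
noncomputable def clsL (K : Set (Finset (Fin 8))) : CY k K →ₗ[k] Bet.TorAlg k K :=
  (Ideal.Quotient.mkₐ k (Bet.boundaries k (Bet.faceVar k K))).toLinearMap

lemma clsL_apply (K : Set (Finset (Fin 8))) (x : CY k K) :
    clsL k K x = Bet.cls k (Bet.faceVar k K) x := rfl

lemma cls_surj (K : Set (Finset (Fin 8))) : Function.Surjective (clsL k K) :=
  Ideal.Quotient.mkₐ_surjective k _

lemma ker_eq (hD : Ok D) : LinearMap.ker (clsL k (KF D.F)) = LinearMap.ker (fc k D) := by
  ext x
  rw [LinearMap.mem_ker, LinearMap.mem_ker]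
  have h1 : clsL k (KF D.F) x = 0 ↔ x ∈ Bet.boundaries k (Bet.faceVar k (KF D.F)) :=
    Ideal.Quotient.eq_zero_iff_mem
  rw [h1]
  constructor
  · rintro ⟨y, hy⟩
    have h2 : dk k (KF D.F) (toK k y) = cval k (KF D.F) x := hy
    rw [fc_apply, ← h2]
    exact dP k hD _
  · intro h
    rw [fc_apply] at h
    have h2 := sdr k hD (cval k (KF D.F) x)
    rw [h, dk_cval, map_zero, map_zero, add_zero, add_zero] at h2
    exact ⟨ofK k (HOp k D (cval k (KF D.F) x)), h2⟩

/-- the coordinates of a class -/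
noncomputable def Th (hD : Ok D) : Bet.TorAlg k (KF D.F) ≃ₗ[k] (Fin 64 → k) :=
  ((clsL k (KF D.F)).quotKerEquivOfSurjective (cls_surj k _)).symm ≪≫ₗ
    Submodule.quotEquivOfEq _ _ (ker_eq k hD) ≪≫ₗ
    (fc k D).quotKerEquivOfSurjective (fc_surj k hD)

lemma Th_cls (hD : Ok D) (x : CY k (KF D.F)) : Th k hD (clsL k (KF D.F) x) = fc k D x := by
  have h1 : ((clsL k (KF D.F)).quotKerEquivOfSurjective (cls_surj k _)).symm
      (clsL k (KF D.F) x) = Submodule.Quotient.mk x := by
    rw [LinearEquiv.symm_apply_eq]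
    rfl
  rw [Th, LinearEquiv.trans_apply, LinearEquiv.trans_apply, h1]
  rfl

lemma cls_mul (K : Set (Finset (Fin 8))) (x y : CY k K) :
    clsL k K (x * y) = clsL k K x * clsL k K y :=
  map_mul (Ideal.Quotient.mkₐ k (Bet.boundaries k (Bet.faceVar k K))) x y

lemma cls_one (K : Set (Finset (Fin 8))) : clsL k K 1 = 1 :=
  map_one (Ideal.Quotient.mkₐ k (Bet.boundaries k (Bet.faceVar k K)))

lemma eq_sum_cls (hD : Ok D) (X : Bet.TorAlg k (KF D.F)) :
    X = ∑ l : Fin 64, Th k hD X l • clsL k (KF D.F) (zcy k hD l) := by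
  apply (Th k hD).injective
  rw [map_sum]
  simp only [map_smul, Th_cls, fc_zcy]
  exact (sum_eP k _).symm

lemma Th_mul (hD : Ok D) (X Y : Bet.TorAlg k (KF D.F)) : Th k hD (X * Y) =
    ∑ l : Fin 64, ∑ m : Fin 64, (Th k hD X l * Th k hD Y m) • evb (eP k) (mt l m) := by
  conv_lhs => rw [eq_sum_cls k hD X, eq_sum_cls k hD Y]
  rw [Finset.sum_mul_sum, map_sum]
  apply Finset.sum_congr rfl
  intro l _
  rw [map_sum]
  apply Finset.sum_congr rfl
  intro m _
  rw [smul_mul_smul_comm, map_smul, ← cls_mul, Th_cls]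
  congr 1
  exact POp_zmul k hD l.2 m.2

lemma zc_zero (hD : Ok D) : zc k D 0 = 1 := by
  rw [zc, hD.z0, evb_cons, evb_nil, add_zero]
  have h1 : sb false = 1 := rfl
  rw [h1, one_smul, ← qq_one k (K := KF D.F), Qm]
  have h2 : om 0 = ∅ := by decide +kernel
  simp only [h2]
  rw [Finset.sdiff_self]
  congr 1

lemma Th_one (hD : Ok D) : Th k hD 1 = eP k 0 := by
  rw [← cls_one, Th_cls, fc_apply, cval_one, ← zc_zero k hD]
  exact POp_zc k hD (by norm_num)

lemma deg_ind (A : Finset (Fin 8)) : (ind A).degree = A.card := by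
  rw [ind, map_sum]
  simp [Finsupp.degree_single]

lemma bi_mono (hD : Ok D) {i j : ℕ} {J : Finset (Fin 8)} {α : Fin 8 →₀ ℕ} (hJ : J.card = i)
    (hα : α.degree + J.card = j) : POp k D (qq k (KF D.F) α J) ∈ Submodule.span k
      {v | ∃ l : Fin 64, bi l = (i, j) ∧ v = eP k l} := by
  by_cases hs : Sqf α J
  · by_cases hf : α.support ∈ KF D.F
    · rw [qq_eq_Qm k hs, POp_Qm k (mo_lt _) (land_mo _ _) (om_mo_mem hf)]
      obtain ⟨h1, h2⟩ := sqf_eq hs
      have h3 : ∀ L : List (Bool × ℕ), (∀ q ∈ L, ∃ l : Fin 64, bi l = (i, j) ∧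
          eP k q.2 = eP k l) → evb (eP k) L ∈ Submodule.span k
          {v | ∃ l : Fin 64, bi l = (i, j) ∧ v = eP k l} := by
        intro L hL
        induction L with
        | nil => exact Submodule.zero_mem _
        | cons q L ih =>
          rw [evb_cons]
          apply Submodule.add_mem
          · rw [← Int.cast_smul_eq_zsmul k]
            apply Submodule.smul_mem
            obtain ⟨l, h4, h5⟩ := hL q (by simp)
            exact Submodule.subset_span ⟨l, h4, h5⟩
          · exact ih (fun q hq => hL q (List.mem_cons_of_mem _ hq))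
      apply h3
      intro q hq
      obtain ⟨p1, p2, p3, p4⟩ := okP_at hD (mo_lt _) hq
      refine ⟨⟨q.2, p2⟩, ?_, rfl⟩
      have hsub : om (mo α.support) ⊆ om (mo (α.support ∪ J)) := by
        rw [om_mo, om_mo]; exact Finset.subset_union_left
      rw [← pc_eq _ (List.mem_range.2 (xor_lt (mo_lt _) (mo_lt _))), om_xor hsub, om_mo, om_mo,
        Finset.union_sdiff_left, Finset.sdiff_eq_self_of_disjoint h2.symm, hJ] at p3
      rw [← pc_eq _ (List.mem_range.2 (mo_lt _)), om_mo, Finset.card_union_of_disjoint h2] at p4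
      have h5 : α.degree = α.support.card := by
        conv_lhs => rw [h1, deg_ind]
      rw [h5] at hα
      rw [hα] at p4
      exact Prod.ext p3.symm p4.symm
    · rw [qq_eq_zero k (down_KF D.F) hf, map_zero]
      exact Submodule.zero_mem _
  · rw [POp_nsq k hs]
    exact Submodule.zero_mem _

lemma bi_le (hD : Ok D) {i j : ℕ} {x : KA k (KF D.F)}
    (hx : x ∈ Bet.koszulBi k (Bet.faceVar k (KF D.F)) i j) :
    POp k D (toK k x) ∈ Submodule.span k {v | ∃ l : Fin 64, bi l = (i, j) ∧ v = eP k l} := by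
  rw [Bet.koszulBi] at hx
  induction hx using Submodule.span_induction with
  | mem x h =>
    obtain ⟨J, α, hJ, hα, rfl⟩ := h
    rw [toK_mono]
    exact bi_mono k hD hJ hα
  | zero => rw [map_zero, map_zero]; exact Submodule.zero_mem _
  | add x y _ _ hx hy => rw [map_add, map_add]; exact Submodule.add_mem _ hx hy
  | smul r x _ hx => rw [map_smul, map_smul]; exact Submodule.smul_mem _ r hx

lemma zc_mem (hD : Ok D) (l : Fin 64) :
    ofK k (zc k D l) ∈ Bet.koszulBi k (Bet.faceVar k (KF D.F)) (bi l).1 (bi l).2 := by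
  have h3 : ∀ L : List (Bool × ℕ), (∀ q ∈ L, ofK k (Qm k D.F (D.Z.getD l (0, [])).1 q.2) ∈
      Bet.koszulBi k (Bet.faceVar k (KF D.F)) (bi l).1 (bi l).2) →
      ofK k (evb (Qm k D.F (D.Z.getD l (0, [])).1) L) ∈
      Bet.koszulBi k (Bet.faceVar k (KF D.F)) (bi l).1 (bi l).2 := by
    intro L hL
    induction L with
    | nil => rw [evb_nil, map_zero]; exact Submodule.zero_mem _
    | cons q L ih =>
      rw [evb_cons, map_add]
      apply Submodule.add_mem
      · rw [← Int.cast_smul_eq_zsmul k, map_smul]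
        exact Submodule.smul_mem _ _ (hL q (by simp))
      · exact ih (fun q hq => hL q (List.mem_cons_of_mem _ hq))
  apply h3
  intro q hq
  obtain ⟨p1, p2, p3, p4⟩ := zT hD l.2 hq
  have hS := zS hD l.2
  have hsub := sub_of_land hS p1
  apply Submodule.subset_span
  refine ⟨om (D.Z.getD l (0, [])).1 \ om q.2, ind (om q.2), ?_, ?_, ?_⟩
  · rw [← om_xor hsub, pc_eq _ (List.mem_range.2 (xor_lt hS (land_lt hS p1))), p3]
  · rw [deg_ind, Finset.card_sdiff_of_subset hsub,
      Nat.add_sub_cancel' (Finset.card_le_card hsub), pc_eq _ (List.mem_range.2 hS), p4]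
  · have h5 := toK_mono k (K := KF D.F) (ind (om q.2)) (om (D.Z.getD l (0, [])).1 \ om q.2)
    rw [Qm, ← h5]
    rfl

/-- the coordinates of the bigraded components -/
lemma Th_bi (hD : Ok D) (i j : ℕ) : (Bet.TorBi k (KF D.F) i j).map (Th k hD).toLinearMap =
    Submodule.span k {v | ∃ l : Fin 64, bi l = (i, j) ∧ v = eP k l} := by
  rw [Bet.TorBi, Bet.homologyBi, Submodule.map_span]
  apply le_antisymm
  · rw [Submodule.span_le]
    rintro _ ⟨_, ⟨x, hx, rfl⟩, rfl⟩
    have h1 : (Th k hD).toLinearMap (Bet.cls k (Bet.faceVar k (KF D.F)) x) =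
      POp k D (toK k x.val) := Th_cls k hD x
    rw [h1]
    exact bi_le k hD hx
  · rw [Submodule.span_le]
    rintro _ ⟨l, hl, rfl⟩
    apply Submodule.subset_span
    refine ⟨clsL k (KF D.F) (zcy k hD l), ⟨zcy k hD l, ?_, rfl⟩, ?_⟩
    · have := zc_mem k hD l
      rw [hl] at this
      exact this
    · have h1 : (Th k hD).toLinearMap (clsL k (KF D.F) (zcy k hD l)) = fc k D (zcy k hD l) :=
        Th_cls k hD _
      rw [h1, fc_zcy]

/-- Two complexes with tables have isomorphic bigraded Tor-algebras. -/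
theorem tor_iso {D' : Dat} (hD : Ok D) (hD' : Ok D') :
    ∃ φ : Bet.TorAlg k (KF D.F) ≃ₐ[k] Bet.TorAlg k (KF D'.F),
      ∀ i j, (Bet.TorBi k (KF D.F) i j).map φ.toLinearMap = Bet.TorBi k (KF D'.F) i j := by
  let e : Bet.TorAlg k (KF D.F) ≃ₗ[k] Bet.TorAlg k (KF D'.F) := Th k hD ≪≫ₗ (Th k hD').symm
  have he : ∀ X, Th k hD' (e X) = Th k hD X := fun X => (Th k hD').apply_symm_apply _
  have h1 : e 1 = 1 := by
    apply (Th k hD').injective
    rw [he, Th_one, Th_one]
  have hm : ∀ X Y, e (X * Y) = e X * e Y := by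
    intro X Y
    apply (Th k hD').injective
    rw [he, Th_mul, Th_mul, he, he]
  refine ⟨AlgEquiv.ofLinearEquiv e h1 hm, ?_⟩
  intro i j
  have h2 := Th_bi k hD i j
  have h3 := Th_bi k hD' i j
  have h4 : (Bet.TorBi k (KF D.F) i j).map (AlgEquiv.ofLinearEquiv e h1 hm).toLinearMap =
      ((Bet.TorBi k (KF D.F) i j).map (Th k hD).toLinearMap).map
        (Th k hD').symm.toLinearMap := by
    rw [← Submodule.map_comp]
    rfl
  rw [h4, h2, ← h3, ← Submodule.map_comp]
  have h5 : (Th k hD').symm.toLinearMap ∘ₗ (Th k hD').toLinearMap = LinearMap.id :=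
    LinearMap.ext (fun x => (Th k hD').symm_apply_apply x)
  rw [h5, Submodule.map_id]

end

end Pool.Agent.H250R3.Tor
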