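import Pool.Agent.H250R3.Tor.Chk

set_option autoImplicit false

/-! Soundness of the check. -/

namespace Pool.Agent.H250R3.Tor

/-! ### masks again -/

lemma land_lt {a S : ℕ} (hS : S < 256) (h : Nat.land a S = a) : a < 256 := by
  rw [← h]; exact lt_of_le_of_lt Nat.and_le_right hS

lemma sub_of_land {a S : ℕ} (hS : S < 256) (h : Nat.land a S = a) : om a ⊆ om S :=
  (om_subset (land_lt hS h)).2 h

lemma om_mem_KF {F : List ℕ} {a : ℕ} (ha : a < 256) :
    om a ∈ KF F ↔ F.any (fun f => Nat.beq (Nat.land a f) a) = true := by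
  rw [List.any_eq_true]
  constructor
  · rintro ⟨f, hf, h⟩
    refine ⟨f, hf, ?_⟩
    rw [Nat.beq_eq]
    exact (om_subset ha).1 h
  · rintro ⟨f, hf, h⟩
    rw [Nat.beq_eq] at h
    exact ⟨f, hf, (om_subset ha).2 h⟩

lemma okF_iff {F : List ℕ} {FB : ℕ} {fs : List ℕ} (h : okF F FB fs = true) {a : ℕ}
    (ha : a < 256) : tb FB a = true ↔ om a ∈ KF F := by
  rw [okF, ra_iff, ral_iff] at h
  have h1 := h.1 a (List.mem_range.2 ha)
  rw [ra_iff] at h1
  rw [om_mem_KF ha]
  have h2 := h1.1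
  cases hb : tb FB a with
  | false =>
    rw [hb, bi2_false] at h2
    constructor
    · intro h3; exact absurd h3 (by simp)
    · intro h3; rw [h3] at h2; exact absurd h2 (by simp)
  | true =>
    rw [hb, bi2_true] at h2
    exact ⟨fun _ => h2, fun _ => rfl⟩

lemma okF_mem {F : List ℕ} {FB : ℕ} {fs : List ℕ} (h : okF F FB fs = true) {a : ℕ}
    (ha : a < 256) (hf : om a ∈ KF F) : a ∈ fs := by
  have hb := (okF_iff h ha).2 hf
  rw [okF, ra_iff, ral_iff] at h
  have h1 := h.1 a (List.mem_range.2 ha)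
  rw [ra_iff] at h1
  have h3 := h1.2
  rw [hb, bi2_true, List.any_eq_true] at h3
  obtain ⟨b, hb1, hb2⟩ := h3
  rw [Nat.beq_eq] at hb2
  rw [hb2]; exact hb1

lemma om_xor {S a : ℕ} (h : om a ⊆ om S) : om (Nat.xor S a) = om S \ om a := by
  ext i
  rw [Finset.mem_sdiff, mem_om, mem_om, mem_om]
  have h1 : (Nat.xor S a).testBit i = (S.testBit i ^^ a.testBit i) := Nat.testBit_xor _ _ _
  have h2 : a.testBit i = true → S.testBit i = true := fun h3 => mem_om.1 (h (mem_om.2 h3))
  rw [h1]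
  cases h3 : S.testBit i <;> cases h4 : a.testBit i <;> simp_all

lemma om_lor (a b : ℕ) : om (Nat.lor a b) = om a ∪ om b := by
  ext i
  rw [Finset.mem_union, mem_om, mem_om, mem_om]
  have h1 : (Nat.lor a b).testBit i = (a.testBit i || b.testBit i) := Nat.testBit_or _ _ _
  rw [h1, Bool.or_eq_true]

lemma om_land (a b : ℕ) : om (Nat.land a b) = om a ∩ om b := by
  ext i
  rw [Finset.mem_inter, mem_om, mem_om, mem_om]
  have h1 : (Nat.land a b).testBit i = (a.testBit i && b.testBit i) := Nat.testBit_and _ _ _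
  rw [h1, Bool.and_eq_true]

lemma om_two_pow (j : Fin 8) : om (2 ^ (j : ℕ)) = {j} := by
  revert j; decide +kernel

lemma lor_lt {a b : ℕ} (ha : a < 256) (hb : b < 256) : Nat.lor a b < 256 :=
  Nat.or_lt_two_pow (n := 8) ha hb

lemma xor_lt {a b : ℕ} (ha : a < 256) (hb : b < 256) : Nat.xor a b < 256 :=
  Nat.xor_lt_two_pow (n := 8) ha hb

lemma ind_insert {m : ℕ} {j : Fin m} {A : Finset (Fin m)} (h : j ∉ A) :
    ind (insert j A) = ind A + Finsupp.single j 1 := by
  rw [ind, Finset.sum_insert h, add_comm]; rfl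

lemma ind_union {m : ℕ} {A B : Finset (Fin m)} (h : Disjoint A B) :
    ind (A ∪ B) = ind A + ind B := by
  rw [ind, Finset.sum_union h]; rfl

lemma D0_eq : ∀ c ∈ List.range 256, D0 c = ((List.finRange 8).filter (fun j => j ∈ om c)).map
    (fun j => (decide (sg j (om c) = -1), 2 ^ (j : ℕ))) := by decide +kernel

lemma pc_eq : ∀ b ∈ List.range 256, (om b).card = pc b := by decide +kernel

lemma land_pow : ∀ c ∈ List.range 256, ∀ j : Fin 8,
    Nat.beq (Nat.land c (2 ^ (j : ℕ))) 0 = !(decide (j ∈ om c)) := by decide +kernel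

lemma sg_par : ∀ c ∈ List.range 256, ∀ j : Fin 8,
    sg j (om c) = sb (Nat.beq ((pc (Nat.mod c (2 ^ (j : ℕ)))) % 2) 1) := by decide +kernel

lemma sg_cases {m : ℕ} (j : Fin m) (J : Finset (Fin m)) : sg j J = 1 ∨ sg j J = -1 := by
  rw [sg]; exact neg_one_pow_eq_or ℤ _

lemma sb_decide {m : ℕ} (j : Fin m) (J : Finset (Fin m)) : sb (decide (sg j J = -1)) = sg j J := by
  rcases sg_cases j J with h | h <;> rw [h] <;> rfl

lemma sum_filter_list {V : Type*} [AddCommGroup V] {α : Type*} (L : List α) (P : α → Bool)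
    (f : α → V) : ((L.filter P).map f).sum = (L.map (fun j => if P j = true then f j else 0)).sum := by
  induction L with
  | nil => rfl
  | cons x L ih =>
    rw [List.filter_cons, List.map_cons, List.sum_cons, ← ih]
    split_ifs <;> simp

lemma evb_D0 {V : Type*} [AddCommGroup V] (w : ℕ → V) {c : ℕ} (hc : c < 256) :
    evb w (D0 c) = ∑ j ∈ om c, sg j (om c) • w (2 ^ (j : ℕ)) := by
  rw [D0_eq c (List.mem_range.2 hc), evb, List.map_map, sum_filter_list]
  simp only [Function.comp, sb_decide]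
  rw [← Fin.sum_univ_def, ← Finset.sum_filter]
  apply Finset.sum_congr
  · ext j; simp
  · intros; rfl

lemma D0_lt {c : ℕ} (hc : c < 256) {e : Bool × ℕ} (he : e ∈ D0 c) :
    ∃ j ∈ om c, e.2 = 2 ^ (j : ℕ) := by
  rw [D0_eq c (List.mem_range.2 hc), List.mem_map] at he
  obtain ⟨j, hj, rfl⟩ := he
  rw [List.mem_filter] at hj
  exact ⟨j, by simpa using hj.2, rfl⟩

lemma evb_Dl_aux {V : Type*} [AddCommGroup V] (w : ℕ → V) (FB a : ℕ) (M : List (Bool × ℕ))
    (h : ∀ e ∈ M, tb FB (Nat.lor a e.2) = false → w (Nat.lor a e.2) = 0) :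
    evb w (rf (fun e ih => bi2 (tb FB (Nat.lor a e.2)) ((e.1, Nat.lor a e.2) :: ih) ih) [] M) =
      evb (fun p => w (Nat.lor a p)) M := by
  induction M with
  | nil => rfl
  | cons e M ih =>
    have ih' := ih (fun e he => h e (List.mem_cons_of_mem _ he))
    change evb w (bi2 (tb FB (Nat.lor a e.2)) ((e.1, Nat.lor a e.2) ::
      (rf (fun e ih => bi2 (tb FB (Nat.lor a e.2)) ((e.1, Nat.lor a e.2) :: ih) ih) [] M))
      (rf (fun e ih => bi2 (tb FB (Nat.lor a e.2)) ((e.1, Nat.lor a e.2) :: ih) ih) [] M)) = _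
    cases hb : tb FB (Nat.lor a e.2) with
    | false => rw [bi2_false, ih', evb_cons, h e (by simp) hb, smul_zero, zero_add]
    | true => rw [bi2_true, evb_cons, ih', evb_cons]

lemma Dl_mem {FB S a : ℕ} (hS : S < 256) (ha : Nat.land a S = a) {e : Bool × ℕ}
    (he : e ∈ Dl FB S a) : tb FB e.2 = true ∧ e.2 < 256 ∧ om e.2 ⊆ om S := by
  have haux : ∀ M : List (Bool × ℕ), e ∈ rf (fun e ih => bi2 (tb FB (Nat.lor a e.2))
      ((e.1, Nat.lor a e.2) :: ih) ih) [] M → ∃ e' ∈ M, tb FB e.2 = true ∧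
        e.2 = Nat.lor a e'.2 := by
    intro M
    induction M with
    | nil => intro h; exact absurd h (by simp [rf])
    | cons e' M ih =>
      intro h
      change e ∈ bi2 (tb FB (Nat.lor a e'.2)) ((e'.1, Nat.lor a e'.2) ::
        (rf (fun e ih => bi2 (tb FB (Nat.lor a e.2)) ((e.1, Nat.lor a e.2) :: ih) ih) [] M))
        (rf (fun e ih => bi2 (tb FB (Nat.lor a e.2)) ((e.1, Nat.lor a e.2) :: ih) ih) [] M) at h
      cases hb : tb FB (Nat.lor a e'.2) with
      | false =>
        rw [hb, bi2_false] at h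
        obtain ⟨e'', h1, h2⟩ := ih h
        exact ⟨e'', List.mem_cons_of_mem _ h1, h2⟩
      | true =>
        rw [hb, bi2_true, List.mem_cons] at h
        rcases h with h | h
        · subst h
          exact ⟨e', by simp, hb, rfl⟩
        · obtain ⟨e'', h1, h2⟩ := ih h
          exact ⟨e'', List.mem_cons_of_mem _ h1, h2⟩
  obtain ⟨e', he', h1, h2⟩ := haux _ he
  have hc : Nat.xor S a < 256 := xor_lt hS (land_lt hS ha)
  obtain ⟨j, hj, h3⟩ := D0_lt hc he'
  rw [om_xor (sub_of_land hS ha)] at hj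
  refine ⟨h1, ?_, ?_⟩
  · rw [h2, h3]
    apply lor_lt (land_lt hS ha)
    exact lt_of_lt_of_le (Nat.pow_lt_pow_right (by norm_num) j.2) (by norm_num)
  · rw [h2, om_lor, h3, om_two_pow]
    apply Finset.union_subset (sub_of_land hS ha)
    rw [Finset.singleton_subset_iff]
    exact (Finset.mem_sdiff.1 hj).1

lemma lk_mem {L : List (ℕ × List (Bool × ℕ))} {a : ℕ} {q : Bool × ℕ} (h : q ∈ lk L a) :
    ∃ e ∈ L, e.1 = a ∧ q ∈ e.2 := by
  induction L with
  | nil => exact absurd h (by simp [lk, rf])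
  | cons e L ih =>
    change q ∈ bi2 (Nat.beq e.1 a) e.2 (lk L a) at h
    cases hb : Nat.beq e.1 a with
    | false =>
      rw [hb, bi2_false] at h
      obtain ⟨e', h1, h2⟩ := ih h
      exact ⟨e', List.mem_cons_of_mem _ h1, h2⟩
    | true =>
      rw [hb, bi2_true] at h
      exact ⟨e, by simp, Nat.eq_of_beq_eq_true hb, h⟩

lemma sgp_eq {c c' : ℕ} (hc : c < 256) (hc' : c' < 256) :
    sgp (om c) (om c') = sb (sgpB c c') := by
  have h1 : ∀ L : List ℕ, sb (rf (fun p s => bi2 (Nat.beq (Nat.land c p) 0) s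
      (bi2 (Nat.beq ((pc (Nat.mod c' p)) % 2) 1) (Bool.not s) s)) false L) =
      (L.map (fun p => bi2 (Nat.beq (Nat.land c p) 0) (1 : ℤ)
        (sb (Nat.beq ((pc (Nat.mod c' p)) % 2) 1)))).prod := by
    intro L
    induction L with
    | nil => rfl
    | cons p L ih =>
      rw [List.map_cons, List.prod_cons, ← ih]
      change sb (bi2 (Nat.beq (Nat.land c p) 0) (rf (fun p s => bi2 (Nat.beq (Nat.land c p) 0) s
        (bi2 (Nat.beq ((pc (Nat.mod c' p)) % 2) 1) (Bool.not s) s)) false L)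
        (bi2 (Nat.beq ((pc (Nat.mod c' p)) % 2) 1) (Bool.not (rf (fun p s =>
        bi2 (Nat.beq (Nat.land c p) 0) s (bi2 (Nat.beq ((pc (Nat.mod c' p)) % 2) 1)
        (Bool.not s) s)) false L)) (rf (fun p s => bi2 (Nat.beq (Nat.land c p) 0) s
        (bi2 (Nat.beq ((pc (Nat.mod c' p)) % 2) 1) (Bool.not s) s)) false L))) = _
      generalize (rf (fun p s => bi2 (Nat.beq (Nat.land c p) 0) s
        (bi2 (Nat.beq ((pc (Nat.mod c' p)) % 2) 1) (Bool.not s) s)) false L) = s
      cases Nat.beq (Nat.land c p) 0 <;> cases Nat.beq ((pc (Nat.mod c' p)) % 2) 1 <;>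
        cases s <;> rfl
  rw [sgpB, h1, sgp]
  have h2 : ∏ a ∈ om c, sg a (om c') = ∏ j : Fin 8, bi2 (Nat.beq (Nat.land c (2 ^ (j : ℕ))) 0)
      (1 : ℤ) (sb (Nat.beq ((pc (Nat.mod c' (2 ^ (j : ℕ)))) % 2) 1)) := by
    have h3 : om c = Finset.univ.filter (fun j => j ∈ om c) := by ext; simp
    rw [h3, Finset.prod_filter]
    apply Finset.prod_congr rfl
    intro j _
    rw [land_pow c (List.mem_range.2 hc) j, sg_par c' (List.mem_range.2 hc') j]
    by_cases hj : j ∈ om c <;> simp [hj, bi2]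
  rw [h2, Fin.prod_univ_eight]
  simp only [pws, List.map_cons, List.map_nil, List.prod_cons, List.prod_nil]
  simp only [mul_assoc, mul_one]
  rfl

section

universe u

variable (k : Type u) [Field k] (F : List ℕ)

/-- a cell -/
noncomputable def Qm (S a : ℕ) : Koszul k (KF F) := qq k (KF F) (ind (om a)) (om S \ om a)

variable {F}

lemma Qm_zero {S a : ℕ} (h : om a ∉ KF F) : Qm k F S a = 0 := by
  rw [Qm, qq_eq_zero k (down_KF F)]
  rwa [support_ind]

lemma dk_Qm {FB : ℕ} {fs : List ℕ} (hF : okF F FB fs = true) {S a : ℕ} (hS : S < 256)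
    (ha : Nat.land a S = a) : dk k (KF F) (Qm k F S a) = evb (Qm k F S) (Dl FB S a) := by
  have hc : Nat.xor S a < 256 := xor_lt hS (land_lt hS ha)
  have haS := sub_of_land hS ha
  rw [Dl, evb_Dl_aux, evb_D0 _ hc, Qm, dk_qq, om_xor haS]
  · apply Finset.sum_congr rfl
    intro j hj
    rw [Finset.mem_sdiff] at hj
    rw [Qm, om_lor, om_two_pow, Finset.union_comm, ← Finset.insert_eq, ind_insert hj.2]
    congr 2
    ext i
    simp only [Finset.mem_erase, Finset.mem_sdiff, Finset.mem_insert]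
    tauto
  · intro e he h1
    obtain ⟨j, hj, h3⟩ := D0_lt hc he
    apply Qm_zero
    rw [← okF_iff hF, h1]
    · simp
    · rw [h3]
      apply lor_lt (land_lt hS ha)
      exact lt_of_lt_of_le (Nat.pow_lt_pow_right (by norm_num) j.2) (by norm_num)

lemma sqf_Qm {S a : ℕ} : Sqf (ind (om a)) (om S \ om a) := by
  intro i
  rw [Finsupp.add_apply, ind_apply, ind_apply]
  by_cases h1 : i ∈ om a
  · rw [if_pos h1, if_neg (fun h2 => (Finset.mem_sdiff.1 h2).2 h1)]
  · rw [if_neg h1, zero_add]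
    split_ifs <;> norm_num

lemma sqf_eq {β : Fin 8 →₀ ℕ} {J : Finset (Fin 8)} (h : Sqf β J) :
    β = ind β.support ∧ Disjoint β.support J := by
  constructor
  · ext i
    rw [ind_apply]
    have := h i
    rw [Finsupp.add_apply] at this
    by_cases hi : i ∈ β.support
    · rw [if_pos hi]
      have h2 := Finsupp.mem_support_iff.1 hi
      lia
    · rw [if_neg hi]
      exact Finsupp.notMem_support_iff.1 hi
  · rw [Finset.disjoint_left]
    intro i hi hj
    have := h i
    rw [Finsupp.add_apply, ind_apply, if_pos hj] at this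
    have h2 := Finsupp.mem_support_iff.1 hi
    lia

lemma qq_eq_Qm {β : Fin 8 →₀ ℕ} {J : Finset (Fin 8)} (h : Sqf β J) :
    qq k (KF F) β J = Qm k F (mo (β.support ∪ J)) (mo β.support) := by
  obtain ⟨h1, h2⟩ := sqf_eq h
  rw [Qm, om_mo, om_mo, ← h1]
  congr 1
  rw [Finset.union_sdiff_left, Finset.sdiff_eq_self_of_disjoint h2.symm]

lemma land_mo (A B : Finset (Fin 8)) : Nat.land (mo A) (mo (A ∪ B)) = mo A := by
  have := (om_subset (mo_lt A) (f := mo (A ∪ B))).1 (by
    rw [om_mo, om_mo]; exact Finset.subset_union_left)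
  exact this

end

end Pool.Agent.H250R3.Tor
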