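import Pool.Agent.H250R3.Tor.Model

set_option autoImplicit false

/-! The contraction given by a table. -/

namespace Pool.Agent.H250R3.Tor

section

universe u

variable (k : Type u) [Field k] (D : Dat)

open Classical in
/-- the homotopy -/
noncomputable def HOp : Koszul k (KF D.F) →ₗ[k] Koszul k (KF D.F) :=
  Lm k (down_KF D.F) (fun β J => if Sqf β J then
    evb (Qm k D.F (mo (β.support ∪ J))) (lk (D.H.getD (mo (β.support ∪ J)) []) (mo β.support))
    else h0 k (KF D.F) β J)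

/-- coordinate vectors -/
def eP (l : ℕ) : Fin 64 → k := fun l' => if (l' : ℕ) = l then 1 else 0

open Classical in
/-- the projection -/
noncomputable def POp : Koszul k (KF D.F) →ₗ[k] (Fin 64 → k) :=
  Lm k (down_KF D.F) (fun β J => if Sqf β J then
    evb (eP k) (lk (D.P.getD (mo (β.support ∪ J)) []) (mo β.support)) else 0)

/-- the representatives -/
noncomputable def zc (l : ℕ) : Koszul k (KF D.F) :=
  evb (Qm k D.F (D.Z.getD l (0, [])).1) (D.Z.getD l (0, [])).2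

/-- the inclusion -/
noncomputable def ZOp : (Fin 64 → k) →ₗ[k] Koszul k (KF D.F) :=
  ∑ l : Fin 64, (LinearMap.proj l : (Fin 64 → k) →ₗ[k] k).smulRight (zc k D l)

lemma ZOp_eP {l : ℕ} (hl : l < 64) : ZOp k D (eP k l) = zc k D l := by
  rw [ZOp, LinearMap.sum_apply, Finset.sum_eq_single (⟨l, hl⟩ : Fin 64)]
  · simp [eP]
  · intro b _ hb
    have : (b : ℕ) ≠ l := fun h => hb (Fin.ext h)
    simp [eP, this]
  · intro h; exact absurd (Finset.mem_univ _) h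

variable {D}

lemma supp_mem {a : ℕ} (hf : om a ∈ KF D.F) : (ind (om a)).support ∈ KF D.F := by
  rwa [support_ind]

lemma HOp_Qm {S a : ℕ} (hS : S < 256) (ha : Nat.land a S = a) (hf : om a ∈ KF D.F) :
    HOp k D (Qm k D.F S a) = evb (Qm k D.F S) (lk (D.H.getD S []) a) := by
  rw [Qm, HOp, Lm_apply k _ _ (supp_mem hf), if_pos sqf_Qm, support_ind,
    Finset.union_sdiff_of_subset (sub_of_land hS ha), mo_om hS, mo_om (land_lt hS ha)]

lemma POp_Qm {S a : ℕ} (hS : S < 256) (ha : Nat.land a S = a) (hf : om a ∈ KF D.F) :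
    POp k D (Qm k D.F S a) = evb (eP k) (lk (D.P.getD S []) a) := by
  rw [Qm, POp, Lm_apply k _ _ (supp_mem hf), if_pos sqf_Qm, support_ind,
    Finset.union_sdiff_of_subset (sub_of_land hS ha), mo_om hS, mo_om (land_lt hS ha)]

lemma HOp_nsq {β : Fin 8 →₀ ℕ} {J : Finset (Fin 8)} (h : ¬ Sqf β J) :
    HOp k D (qq k (KF D.F) β J) = h0 k (KF D.F) β J := by
  by_cases hf : β.support ∈ KF D.F
  · rw [HOp, Lm_apply k _ _ hf, if_neg h]
  · rw [qq_eq_zero k (down_KF D.F) hf, map_zero, h0_eq_zero k (down_KF D.F) h hf]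

lemma POp_nsq {β : Fin 8 →₀ ℕ} {J : Finset (Fin 8)} (h : ¬ Sqf β J) :
    POp k D (qq k (KF D.F) β J) = 0 := by
  by_cases hf : β.support ∈ KF D.F
  · rw [POp, Lm_apply k _ _ hf, if_neg h]
  · rw [qq_eq_zero k (down_KF D.F) hf, map_zero]

lemma okS_at (hD : Ok D) {S : ℕ} (hS : S < 256) :
    okS D.FB D.fs D.Z D.P S (D.H.getD S []) = true := by
  have := rix_getD _ [] _ _ hD.s S (by rw [hD.lH]; exact hS)
  rwa [zero_add] at this

lemma okH_at (hD : Ok D) {S : ℕ} (hS : S < 256) {a : ℕ} {q : Bool × ℕ}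
    (hq : q ∈ lk (D.H.getD S []) a) : Nat.land q.2 S = q.2 ∧ om q.2 ∈ KF D.F := by
  have h1 := rix_getD _ [] _ _ hD.h S (by rw [hD.lH]; exact hS)
  rw [zero_add, okH, ral_iff] at h1
  obtain ⟨e, he, _, h2⟩ := lk_mem hq
  have h3 := h1 e he
  rw [ral_iff] at h3
  have h4 := h3 q h2
  rw [ra_iff] at h4
  have h5 : Nat.land q.2 S = q.2 := Nat.eq_of_beq_eq_true h4.1
  exact ⟨h5, (okF_iff hD.f (land_lt hS h5)).1 h4.2⟩

lemma okP_at (hD : Ok D) {S : ℕ} (hS : S < 256) {a : ℕ} {q : Bool × ℕ}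
    (hq : q ∈ lk (D.P.getD S []) a) : (D.Z.getD q.2 (0, [])).1 = S ∧ q.2 < 64 ∧
      pc (Nat.xor S a) = (bi q.2).1 ∧ pc S = (bi q.2).2 := by
  have h1 := rix_getD _ [] _ _ hD.p S (by rw [hD.lP]; exact hS)
  rw [zero_add, okP, ral_iff] at h1
  obtain ⟨e, he, h0, h2⟩ := lk_mem hq
  have h3 := h1 e he
  rw [ral_iff] at h3
  have h4 := h3 q h2
  rw [ra_iff, ra_iff, ra_iff, h0] at h4
  have h5 := Nat.le_of_ble_eq_true h4.2.1
  exact ⟨Nat.eq_of_beq_eq_true h4.1, by lia, Nat.eq_of_beq_eq_true h4.2.2.1,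
    Nat.eq_of_beq_eq_true h4.2.2.2⟩

lemma okS_cell (hD : Ok D) {S a : ℕ} (hS : S < 256) (ha : Nat.land a S = a)
    (hf : om a ∈ KF D.F) :
    isZ (rap (bnd (lk (D.H.getD S []) a) (Dl D.FB S)) (rap (bnd (Dl D.FB S a)
      (lk (D.H.getD S []))) (rap (bnd (lk (D.P.getD S []) a) (fun l => (D.Z.getD l (0, [])).2))
      [(true, a)]))) = true ∧ isZ (bnd (Dl D.FB S a) (lk (D.P.getD S []))) = true := by
  have h1 := okS_at hD hS
  rw [okS, ral_iff] at h1
  have h2 := h1 a (okF_mem hD.f (land_lt hS ha) hf)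
  have h3 : Nat.beq (Nat.land a S) a = true := by rw [Nat.beq_eq]; exact ha
  rw [h3, bi2_true, ra_iff] at h2
  exact h2

lemma sdr_Qm (hD : Ok D) {S a : ℕ} (hS : S < 256) (ha : Nat.land a S = a)
    (hf : om a ∈ KF D.F) :
    dk k (KF D.F) (HOp k D (Qm k D.F S a)) + HOp k D (dk k (KF D.F) (Qm k D.F S a)) +
      ZOp k D (POp k D (Qm k D.F S a)) = Qm k D.F S a := by
  have h1 := evb_isZ (Qm k D.F S) (okS_cell hD hS ha hf).1
  rw [evb_rap, evb_rap, evb_rap, evb_bnd, evb_bnd, evb_bnd, evb_cons, evb_nil, add_zero] at h1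
  have e1 : dk k (KF D.F) (HOp k D (Qm k D.F S a)) =
      evb (fun a => evb (Qm k D.F S) (Dl D.FB S a)) (lk (D.H.getD S []) a) := by
    rw [HOp_Qm k hS ha hf, map_evb]
    apply evb_congr
    intro p hp
    exact dk_Qm k hD.f hS (okH_at hD hS hp).1
  have e2 : HOp k D (dk k (KF D.F) (Qm k D.F S a)) =
      evb (fun a => evb (Qm k D.F S) (lk (D.H.getD S []) a)) (Dl D.FB S a) := by
    rw [dk_Qm k hD.f hS ha, map_evb]
    apply evb_congr
    intro p hp
    obtain ⟨p1, p2, p3⟩ := Dl_mem hS ha hp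
    exact HOp_Qm k hS ((om_subset p2).1 p3) ((okF_iff hD.f p2).1 p1)
  have e3 : ZOp k D (POp k D (Qm k D.F S a)) =
      evb (fun l => evb (Qm k D.F S) (D.Z.getD l (0, [])).2) (lk (D.P.getD S []) a) := by
    rw [POp_Qm k hS ha hf, map_evb]
    apply evb_congr
    intro p hp
    obtain ⟨p1, p2, _⟩ := okP_at hD hS hp
    rw [ZOp_eP k D p2, zc, p1]
  rw [e1, e2, e3]
  have h2 : sb true = -1 := rfl
  rw [h2, neg_one_smul, ← add_assoc, ← add_assoc, ← sub_eq_add_neg, sub_eq_zero] at h1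
  exact h1

lemma dP_Qm (hD : Ok D) {S a : ℕ} (hS : S < 256) (ha : Nat.land a S = a)
    (hf : om a ∈ KF D.F) : POp k D (dk k (KF D.F) (Qm k D.F S a)) = 0 := by
  have h1 := evb_isZ (eP k) (okS_cell hD hS ha hf).2
  rw [evb_bnd] at h1
  rw [dk_Qm k hD.f hS ha, map_evb, ← h1]
  apply evb_congr
  intro p hp
  obtain ⟨p1, p2, p3⟩ := Dl_mem hS ha hp
  exact POp_Qm k hS ((om_subset p2).1 p3) ((okF_iff hD.f p2).1 p1)

lemma nsq_d {β : Fin 8 →₀ ℕ} {J : Finset (Fin 8)} (h : ¬ Sqf β J) {j : Fin 8} (hj : j ∈ J) :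
    ¬ Sqf (β + Finsupp.single j 1) (J.erase j) := by
  intro hh
  apply h
  intro i
  have := hh i
  rwa [gam_eq β hj] at this

lemma om_mo_mem {β : Fin 8 →₀ ℕ} (h : β.support ∈ KF D.F) : om (mo β.support) ∈ KF D.F := by
  rwa [om_mo]

/-- the contraction identity -/
lemma sdr (hD : Ok D) (x : Koszul k (KF D.F)) :
    dk k (KF D.F) (HOp k D x) + HOp k D (dk k (KF D.F) x) + ZOp k D (POp k D x) = x := by
  have h : dk k (KF D.F) ∘ₗ HOp k D + HOp k D ∘ₗ dk k (KF D.F) + ZOp k D ∘ₗ POp k D =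
      LinearMap.id := by
    apply ext_qq k (down_KF D.F)
    intro β J hβ
    by_cases hs : Sqf β J
    · rw [qq_eq_Qm k hs]
      exact sdr_Qm k hD (mo_lt _) (land_mo _ _) (om_mo_mem hβ)
    · have := h0_htpy k (HOp k D) (fun β J h => HOp_nsq k h) hs
      change dk k (KF D.F) (HOp k D (qq k (KF D.F) β J)) +
        HOp k D (dk k (KF D.F) (qq k (KF D.F) β J)) + ZOp k D (POp k D (qq k (KF D.F) β J)) = _
      rw [this, POp_nsq k hs, map_zero, add_zero]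
      rfl
  exact LinearMap.congr_fun h x

lemma dP (hD : Ok D) (x : Koszul k (KF D.F)) : POp k D (dk k (KF D.F) x) = 0 := by
  have h : POp k D ∘ₗ dk k (KF D.F) = 0 := by
    apply ext_qq k (down_KF D.F)
    intro β J hβ
    by_cases hs : Sqf β J
    · rw [qq_eq_Qm k hs]
      exact dP_Qm k hD (mo_lt _) (land_mo _ _) (om_mo_mem hβ)
    · change POp k D (dk k (KF D.F) (qq k (KF D.F) β J)) = 0
      rw [dk_qq, map_sum]
      apply Finset.sum_eq_zero
      intro j hj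
      rw [map_zsmul, POp_nsq k (nsq_d hs hj), smul_zero]
  exact LinearMap.congr_fun h x

lemma okZ_at (hD : Ok D) {l : ℕ} (hl : l < 64) :
    okZ D.FB D.P l (D.Z.getD l (0, [])) = true := by
  have := rix_getD _ (0, []) _ _ hD.z l (by rw [hD.lZ]; exact hl)
  rwa [zero_add] at this

lemma zS (hD : Ok D) {l : ℕ} (hl : l < 64) : (D.Z.getD l (0, [])).1 < 256 := by
  have h := okZ_at hD hl
  rw [okZ, ra_iff] at h
  have := Nat.le_of_ble_eq_true h.1
  lia

lemma zT (hD : Ok D) {l : ℕ} (hl : l < 64) {p : Bool × ℕ} (hp : p ∈ (D.Z.getD l (0, [])).2) :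
    Nat.land p.2 (D.Z.getD l (0, [])).1 = p.2 ∧ om p.2 ∈ KF D.F ∧
      pc (Nat.xor (D.Z.getD l (0, [])).1 p.2) = (bi l).1 ∧
      pc (D.Z.getD l (0, [])).1 = (bi l).2 := by
  have h := okZ_at hD hl
  rw [okZ, ra_iff, ra_iff, ral_iff] at h
  have h1 := h.2.1 p hp
  rw [ra_iff, ra_iff, ra_iff] at h1
  have h2 : Nat.land p.2 (D.Z.getD l (0, [])).1 = p.2 := Nat.eq_of_beq_eq_true h1.1
  exact ⟨h2, (okF_iff hD.f (land_lt (zS hD hl) h2)).1 h1.2.1, Nat.eq_of_beq_eq_true h1.2.2.1,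
    Nat.eq_of_beq_eq_true h1.2.2.2⟩

lemma POp_zc (hD : Ok D) {l : ℕ} (hl : l < 64) : POp k D (zc k D l) = eP k l := by
  have h := okZ_at hD hl
  rw [okZ, ra_iff, ra_iff, ra_iff] at h
  have h1 := evb_isZ (eP k) h.2.2.1
  rw [evb_rap, evb_bnd, evb_cons, evb_nil, add_zero] at h1
  have h2 : sb true = -1 := rfl
  rw [h2, neg_one_smul, ← sub_eq_add_neg, sub_eq_zero] at h1
  rw [zc, map_evb, ← h1]
  apply evb_congr
  intro p hp
  obtain ⟨h3, h4, _⟩ := zT hD hl hp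
  exact POp_Qm k (zS hD hl) h3 h4

lemma dk_zc (hD : Ok D) {l : ℕ} (hl : l < 64) : dk k (KF D.F) (zc k D l) = 0 := by
  have h := okZ_at hD hl
  rw [okZ, ra_iff, ra_iff, ra_iff] at h
  have h1 := evb_isZ (Qm k D.F (D.Z.getD l (0, [])).1) h.2.2.2
  rw [evb_bnd] at h1
  rw [zc, map_evb, ← h1]
  apply evb_congr
  intro p hp
  obtain ⟨h3, h4, _⟩ := zT hD hl hp
  exact dk_Qm k hD.f (zS hD hl) h3

end

end Pool.Agent.H250R3.Tor
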