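import Pool.Agent.H250R3.Tor.Chk

set_option autoImplicit false

/-! Table for one complex. -/

namespace Pool.Agent.H250R3.Tor

/-- facets -/
def FP : List ℕ :=
  [nat_lit 15, nat_lit 39, nat_lit 75, nat_lit 51, nat_lit 83, nat_lit 77, nat_lit 165, nat_lit 197, nat_lit 113, nat_lit 225, nat_lit 30, nat_lit 150, nat_lit 166, nat_lit 90, nat_lit 178, nat_lit 156, nat_lit 204, nat_lit 120, nat_lit 184, nat_lit 232]

/-- faces -/
def FBP : ℕ :=
  nat_lit 6982626214430119647107984749446005427421440721819724781600726642065407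

/-- faces -/
def fsP : List ℕ :=
  [nat_lit 0, nat_lit 1, nat_lit 2, nat_lit 3, nat_lit 4, nat_lit 5, nat_lit 6, nat_lit 7, nat_lit 8, nat_lit 9, nat_lit 10, nat_lit 11, nat_lit 12, nat_lit 13, nat_lit 14, nat_lit 15, nat_lit 16, nat_lit 17, nat_lit 18, nat_lit 19, nat_lit 20, nat_lit 22, nat_lit 24, nat_lit 26, nat_lit 28, nat_lit 30, nat_lit 32, nat_lit 33, nat_lit 34, nat_lit 35, nat_lit 36, nat_lit 37, nat_lit 38, nat_lit 39, nat_lit 40, nat_lit 48, nat_lit 49, nat_lit 50, nat_lit 51, nat_lit 56, nat_lit 64, nat_lit 65, nat_lit 66, nat_lit 67, nat_lit 68, nat_lit 69, nat_lit 72, nat_lit 73, nat_lit 74, nat_lit 75, nat_lit 76, nat_lit 77, nat_lit 80, nat_lit 81, nat_lit 82, nat_lit 83, nat_lit 88, nat_lit 90, nat_lit 96, nat_lit 97, nat_lit 104, nat_lit 112, nat_lit 113, nat_lit 120, nat_lit 128, nat_lit 129, nat_lit 130, nat_lit 132, nat_lit 133, nat_lit 134, nat_lit 136, nat_lit 140, nat_lit 144, nat_lit 146, nat_lit 148, nat_lit 150, nat_lit 152, nat_lit 156, nat_lit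 160, nat_lit 161, nat_lit 162, nat_lit 164, nat_lit 165, nat_lit 166, nat_lit 168, nat_lit 176, nat_lit 178, nat_lit 184, nat_lit 192, nat_lit 193, nat_lit 196, nat_lit 197, nat_lit 200, nat_lit 204, nat_lit 224, nat_lit 225, nat_lit 232]

/-- homotopy table -/
def HP : List (List (ℕ × List (Bool × ℕ))) := [
  [],
  [(nat_lit 1, [(false, nat_lit 0)])],
  [(nat_lit 2, [(false, nat_lit 0)])],
  [(nat_lit 1, [(false, nat_lit 0)]), (nat_lit 3, [(false, nat_lit 2)])],
  [(nat_lit 4, [(false, nat_lit 0)])],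
  [(nat_lit 1, [(false, nat_lit 0)]), (nat_lit 5, [(false, nat_lit 4)])],
  [(nat_lit 2, [(false, nat_lit 0)]), (nat_lit 6, [(false, nat_lit 4)])],
  [(nat_lit 1, [(false, nat_lit 0)]), (nat_lit 3, [(false, nat_lit 2)]), (nat_lit 5, [(false, nat_lit 4)]), (nat_lit 7, [(false, nat_lit 6)])],
  [(nat_lit 8, [(false, nat_lit 0)])],
  [(nat_lit 1, [(false, nat_lit 0)]), (nat_lit 9, [(false, nat_lit 8)])],
  [(nat_lit 2, [(false, nat_lit 0)]), (nat_lit 10, [(false, nat_lit 8)])],
  [(nat_lit 1, [(false, nat_lit 0)]), (nat_lit 3, [(false, nat_lit 2)]), (nat_lit 9, [(false, nat_lit 8)]), (nat_lit 11, [(false, nat_lit 10)])],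
  [(nat_lit 4, [(false, nat_lit 0)]), (nat_lit 12, [(false, nat_lit 8)])],
  [(nat_lit 1, [(false, nat_lit 0)]), (nat_lit 5, [(false, nat_lit 4)]), (nat_lit 9, [(false, nat_lit 8)]), (nat_lit 13, [(false, nat_lit 12)])],
  [(nat_lit 2, [(false, nat_lit 0)]), (nat_lit 6, [(false, nat_lit 4)]), (nat_lit 10, [(false, nat_lit 8)]), (nat_lit 14, [(false, nat_lit 12)])],
  [(nat_lit 1, [(false, nat_lit 0)]), (nat_lit 3, [(false, nat_lit 2)]), (nat_lit 5, [(false, nat_lit 4)]), (nat_lit 7, [(false, nat_lit 6)]), (nat_lit 9, [(false, nat_lit 8)]), (nat_lit 11, [(false, nat_lit 10)]), (nat_lit 13, [(false, nat_lit 12)]), (nat_lit 15, [(false, nat_lit 14)])],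
  [(nat_lit 16, [(false, nat_lit 0)])],
  [(nat_lit 1, [(false, nat_lit 0)]), (nat_lit 17, [(false, nat_lit 16)])],
  [(nat_lit 2, [(false, nat_lit 0)]), (nat_lit 18, [(false, nat_lit 16)])],
  [(nat_lit 1, [(false, nat_lit 0)]), (nat_lit 3, [(false, nat_lit 2)]), (nat_lit 17, [(false, nat_lit 16)]), (nat_lit 19, [(false, nat_lit 18)])],
  [(nat_lit 4, [(false, nat_lit 0)]), (nat_lit 20, [(false, nat_lit 16)])],
  [(nat_lit 1, [(false, nat_lit 0)]), (nat_lit 5, [(false, nat_lit 4)]), (nat_lit 17, [(false, nat_lit 16)])],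
  [(nat_lit 2, [(false, nat_lit 0)]), (nat_lit 6, [(false, nat_lit 4)]), (nat_lit 18, [(false, nat_lit 16)]), (nat_lit 22, [(false, nat_lit 20)])],
  [(nat_lit 1, [(false, nat_lit 0)]), (nat_lit 3, [(false, nat_lit 2)]), (nat_lit 5, [(false, nat_lit 4)]), (nat_lit 7, [(false, nat_lit 6), (true, nat_lit 20)]), (nat_lit 17, [(false, nat_lit 16)]), (nat_lit 19, [(false, nat_lit 18), (true, nat_lit 20)]), (nat_lit 22, [(true, nat_lit 20)])],
  [(nat_lit 8, [(false, nat_lit 0)]), (nat_lit 24, [(false, nat_lit 16)])],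
  [(nat_lit 1, [(false, nat_lit 0)]), (nat_lit 9, [(false, nat_lit 8)]), (nat_lit 17, [(false, nat_lit 16)])],
  [(nat_lit 2, [(false, nat_lit 0)]), (nat_lit 10, [(false, nat_lit 8)]), (nat_lit 18, [(false, nat_lit 16)]), (nat_lit 26, [(false, nat_lit 24)])],
  [(nat_lit 1, [(false, nat_lit 0)]), (nat_lit 3, [(false, nat_lit 2)]), (nat_lit 9, [(false, nat_lit 8)]), (nat_lit 11, [(false, nat_lit 10), (true, nat_lit 24)]), (nat_lit 17, [(false, nat_lit 16)]), (nat_lit 19, [(false, nat_lit 18), (true, nat_lit 24)]), (nat_lit 26, [(true, nat_lit 24)])],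
  [(nat_lit 4, [(false, nat_lit 0)]), (nat_lit 12, [(false, nat_lit 8)]), (nat_lit 20, [(false, nat_lit 16)]), (nat_lit 28, [(false, nat_lit 24)])],
  [(nat_lit 1, [(false, nat_lit 0)]), (nat_lit 5, [(false, nat_lit 4)]), (nat_lit 9, [(false, nat_lit 8)]), (nat_lit 13, [(false, nat_lit 12), (true, nat_lit 20)]), (nat_lit 17, [(false, nat_lit 16)]), (nat_lit 28, [(true, nat_lit 20)])],
  [(nat_lit 2, [(false, nat_lit 0)]), (nat_lit 6, [(false, nat_lit 4)]), (nat_lit 10, [(false, nat_lit 8)]), (nat_lit 14, [(false, nat_lit 12)]), (nat_lit 18, [(false, nat_lit 16)]), (nat_lit 22, [(false, nat_lit 20)]), (nat_lit 26, [(false, nat_lit 24)]), (nat_lit 30, [(false, nat_lit 28)])],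
  [(nat_lit 1, [(false, nat_lit 0)]), (nat_lit 3, [(false, nat_lit 2)]), (nat_lit 5, [(false, nat_lit 4)]), (nat_lit 7, [(false, nat_lit 6)]), (nat_lit 9, [(false, nat_lit 8)]), (nat_lit 11, [(false, nat_lit 10), (true, nat_lit 20), (false, nat_lit 24)]), (nat_lit 13, [(false, nat_lit 12), (true, nat_lit 20)]), (nat_lit 15, [(false, nat_lit 14), (true, nat_lit 22)]), (nat_lit 17, [(false, nat_lit 16)]), (nat_lit 19, [(false, nat_lit 18), (true, nat_lit 20), (false, nat_lit 24)]), (nat_lit 26, [(false, nat_lit 20), (true, nat_lit 24)]), (nat_lit 28, [(false, nat_lit 20)]), (nat_lit 30, [(true, nat_lit 22)])],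
  [(nat_lit 32, [(false, nat_lit 0)])],
  [(nat_lit 1, [(false, nat_lit 0)]), (nat_lit 33, [(false, nat_lit 32)])],
  [(nat_lit 2, [(false, nat_lit 0)]), (nat_lit 34, [(false, nat_lit 32)])],
  [(nat_lit 1, [(false, nat_lit 0)]), (nat_lit 3, [(false, nat_lit 2)]), (nat_lit 33, [(false, nat_lit 32)]), (nat_lit 35, [(false, nat_lit 34)])],
  [(nat_lit 4, [(false, nat_lit 0)]), (nat_lit 36, [(false, nat_lit 32)])],
  [(nat_lit 1, [(false, nat_lit 0)]), (nat_lit 5, [(false, nat_lit 4)]), (nat_lit 33, [(false, nat_lit 32)]), (nat_lit 37, [(false, nat_lit 36)])],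
  [(nat_lit 2, [(false, nat_lit 0)]), (nat_lit 6, [(false, nat_lit 4)]), (nat_lit 34, [(false, nat_lit 32)]), (nat_lit 38, [(false, nat_lit 36)])],
  [(nat_lit 1, [(false, nat_lit 0)]), (nat_lit 3, [(false, nat_lit 2)]), (nat_lit 5, [(false, nat_lit 4)]), (nat_lit 7, [(false, nat_lit 6)]), (nat_lit 33, [(false, nat_lit 32)]), (nat_lit 35, [(false, nat_lit 34)]), (nat_lit 37, [(false, nat_lit 36)]), (nat_lit 39, [(false, nat_lit 38)])],
  [(nat_lit 8, [(false, nat_lit 0)]), (nat_lit 40, [(false, nat_lit 32)])],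
  [(nat_lit 1, [(false, nat_lit 0)]), (nat_lit 9, [(false, nat_lit 8)]), (nat_lit 33, [(false, nat_lit 32)])],
  [(nat_lit 2, [(false, nat_lit 0)]), (nat_lit 10, [(false, nat_lit 8)]), (nat_lit 34, [(false, nat_lit 32)])],
  [(nat_lit 1, [(false, nat_lit 0)]), (nat_lit 3, [(false, nat_lit 2)]), (nat_lit 9, [(false, nat_lit 8)]), (nat_lit 11, [(false, nat_lit 10)]), (nat_lit 33, [(false, nat_lit 32)]), (nat_lit 35, [(false, nat_lit 34)])],
  [(nat_lit 4, [(false, nat_lit 0)]), (nat_lit 12, [(false, nat_lit 8)]), (nat_lit 36, [(false, nat_lit 32)])],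
  [(nat_lit 1, [(false, nat_lit 0)]), (nat_lit 5, [(false, nat_lit 4)]), (nat_lit 9, [(false, nat_lit 8)]), (nat_lit 13, [(false, nat_lit 12)]), (nat_lit 33, [(false, nat_lit 32)]), (nat_lit 37, [(false, nat_lit 36)])],
  [(nat_lit 2, [(false, nat_lit 0)]), (nat_lit 6, [(false, nat_lit 4)]), (nat_lit 10, [(false, nat_lit 8)]), (nat_lit 14, [(false, nat_lit 12)]), (nat_lit 34, [(false, nat_lit 32)]), (nat_lit 38, [(false, nat_lit 36)])],
  [(nat_lit 1, [(false, nat_lit 0)]), (nat_lit 3, [(false, nat_lit 2)]), (nat_lit 5, [(false, nat_lit 4)]), (nat_lit 7, [(false, nat_lit 6)]), (nat_lit 9, [(false, nat_lit 8)]), (nat_lit 11, [(false, nat_lit 10)]), (nat_lit 13, [(false, nat_lit 12)]), (nat_lit 15, [(false, nat_lit 14)]), (nat_lit 33, [(false, nat_lit 32)]), (nat_lit 35, [(false, nat_lit 34)]), (nat_lit 37, [(false, nat_lit 36)]), (nat_lit 39, [(false, nat_lit 38)])],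
  [(nat_lit 16, [(false, nat_lit 0)]), (nat_lit 48, [(false, nat_lit 32)])],
  [(nat_lit 1, [(false, nat_lit 0)]), (nat_lit 17, [(false, nat_lit 16)]), (nat_lit 33, [(false, nat_lit 32)]), (nat_lit 49, [(false, nat_lit 48)])],
  [(nat_lit 2, [(false, nat_lit 0)]), (nat_lit 18, [(false, nat_lit 16)]), (nat_lit 34, [(false, nat_lit 32)]), (nat_lit 50, [(false, nat_lit 48)])],
  [(nat_lit 1, [(false, nat_lit 0)]), (nat_lit 3, [(false, nat_lit 2)]), (nat_lit 17, [(false, nat_lit 16)]), (nat_lit 19, [(false, nat_lit 18)]), (nat_lit 33, [(false, nat_lit 32)]), (nat_lit 35, [(false, nat_lit 34)]), (nat_lit 49, [(false, nat_lit 48)]), (nat_lit 51, [(false, nat_lit 50)])],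
  [(nat_lit 4, [(false, nat_lit 0)]), (nat_lit 20, [(false, nat_lit 16)]), (nat_lit 36, [(false, nat_lit 32)])],
  [(nat_lit 1, [(false, nat_lit 0)]), (nat_lit 5, [(false, nat_lit 4)]), (nat_lit 17, [(false, nat_lit 16)]), (nat_lit 33, [(false, nat_lit 32)]), (nat_lit 37, [(false, nat_lit 36)]), (nat_lit 49, [(false, nat_lit 48)])],
  [(nat_lit 2, [(false, nat_lit 0)]), (nat_lit 6, [(false, nat_lit 4)]), (nat_lit 18, [(false, nat_lit 16)]), (nat_lit 22, [(false, nat_lit 20)]), (nat_lit 34, [(false, nat_lit 32)]), (nat_lit 38, [(false, nat_lit 36)]), (nat_lit 50, [(false, nat_lit 48)])],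
  [(nat_lit 1, [(false, nat_lit 0)]), (nat_lit 3, [(false, nat_lit 2)]), (nat_lit 5, [(false, nat_lit 4)]), (nat_lit 7, [(false, nat_lit 6), (true, nat_lit 20)]), (nat_lit 17, [(false, nat_lit 16)]), (nat_lit 19, [(false, nat_lit 18), (true, nat_lit 20)]), (nat_lit 22, [(true, nat_lit 20)]), (nat_lit 33, [(false, nat_lit 32)]), (nat_lit 35, [(false, nat_lit 34)]), (nat_lit 37, [(false, nat_lit 36)]), (nat_lit 39, [(false, nat_lit 38)]), (nat_lit 49, [(false, nat_lit 48)]), (nat_lit 51, [(false, nat_lit 50)])],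
  [(nat_lit 8, [(false, nat_lit 0)]), (nat_lit 24, [(false, nat_lit 16)]), (nat_lit 40, [(false, nat_lit 32)]), (nat_lit 56, [(false, nat_lit 48)])],
  [(nat_lit 1, [(false, nat_lit 0)]), (nat_lit 9, [(false, nat_lit 8)]), (nat_lit 17, [(false, nat_lit 16)]), (nat_lit 33, [(false, nat_lit 32)]), (nat_lit 49, [(true, nat_lit 24), (false, nat_lit 48)]), (nat_lit 56, [(true, nat_lit 24)])],
  [(nat_lit 2, [(false, nat_lit 0)]), (nat_lit 10, [(false, nat_lit 8)]), (nat_lit 18, [(false, nat_lit 16)]), (nat_lit 26, [(false, nat_lit 24), (true, nat_lit 40)]), (nat_lit 34, [(false, nat_lit 32)]), (nat_lit 50, [(true, nat_lit 40), (false, nat_lit 48)]), (nat_lit 56, [(true, nat_lit 40)])],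
  [(nat_lit 1, [(false, nat_lit 0)]), (nat_lit 3, [(false, nat_lit 2)]), (nat_lit 9, [(false, nat_lit 8)]), (nat_lit 11, [(false, nat_lit 10), (true, nat_lit 24), (false, nat_lit 40)]), (nat_lit 17, [(false, nat_lit 16)]), (nat_lit 19, [(false, nat_lit 18), (true, nat_lit 24), (false, nat_lit 48)]), (nat_lit 26, [(true, nat_lit 24), (false, nat_lit 40)]), (nat_lit 33, [(false, nat_lit 32)]), (nat_lit 35, [(false, nat_lit 34), (true, nat_lit 40), (false, nat_lit 48)]), (nat_lit 50, [(false, nat_lit 40), (true, nat_lit 48)]), (nat_lit 51, [(false, nat_lit 49)]), (nat_lit 56, [(false, nat_lit 40)])],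
  [(nat_lit 4, [(false, nat_lit 0)]), (nat_lit 12, [(false, nat_lit 8)]), (nat_lit 20, [(false, nat_lit 16)]), (nat_lit 28, [(false, nat_lit 24), (true, nat_lit 40)]), (nat_lit 36, [(false, nat_lit 32)]), (nat_lit 56, [(true, nat_lit 40)])],
  [(nat_lit 1, [(false, nat_lit 0)]), (nat_lit 5, [(false, nat_lit 4)]), (nat_lit 9, [(false, nat_lit 8)]), (nat_lit 13, [(false, nat_lit 12), (true, nat_lit 20)]), (nat_lit 17, [(false, nat_lit 16)]), (nat_lit 28, [(true, nat_lit 20)]), (nat_lit 33, [(false, nat_lit 32)]), (nat_lit 37, [(false, nat_lit 36)]), (nat_lit 49, [(true, nat_lit 40), (false, nat_lit 48)]), (nat_lit 56, [(false, nat_lit 40)])],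
  [(nat_lit 2, [(false, nat_lit 0)]), (nat_lit 6, [(false, nat_lit 4)]), (nat_lit 10, [(false, nat_lit 8)]), (nat_lit 14, [(false, nat_lit 12)]), (nat_lit 18, [(false, nat_lit 16)]), (nat_lit 22, [(false, nat_lit 20)]), (nat_lit 26, [(false, nat_lit 24), (true, nat_lit 40)]), (nat_lit 30, [(false, nat_lit 28)]), (nat_lit 34, [(false, nat_lit 32)]), (nat_lit 38, [(false, nat_lit 36)]), (nat_lit 50, [(true, nat_lit 40), (false, nat_lit 48)]), (nat_lit 56, [(false, nat_lit 40)])],
  [(nat_lit 1, [(false, nat_lit 0)]), (nat_lit 3, [(false, nat_lit 2)]), (nat_lit 5, [(false, nat_lit 4)]), (nat_lit 7, [(false, nat_lit 6)]), (nat_lit 9, [(false, nat_lit 8)]), (nat_lit 11, [(false, nat_lit 10), (true, nat_lit 20), (false, nat_lit 24), (true, nat_lit 40)]), (nat_lit 13, [(false, nat_lit 12), (true, nat_lit 20)]), (nat_lit 15, [(false, nat_lit 14), (true, nat_lit 22)]), (nat_lit 17, [(false, nat_lit 16)]), (nat_lit 19, [(false, nat_lit 18), (true, nat_lit 20), (false, nat_lit 24),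 (true, nat_lit 48)]), (nat_lit 26, [(false, nat_lit 20), (true, nat_lit 24), (false, nat_lit 40)]), (nat_lit 28, [(false, nat_lit 20)]), (nat_lit 30, [(true, nat_lit 22)]), (nat_lit 33, [(false, nat_lit 32)]), (nat_lit 35, [(false, nat_lit 34), (false, nat_lit 40), (true, nat_lit 48)]), (nat_lit 37, [(false, nat_lit 36)]), (nat_lit 39, [(false, nat_lit 38)]), (nat_lit 50, [(false, nat_lit 40), (true, nat_lit 48)]), (nat_lit 51, [(false, nat_lit 49)]), (nat_lit 56, [(true, nat_lit 40)])],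
  [(nat_lit 64, [(false, nat_lit 0)])],
  [(nat_lit 1, [(false, nat_lit 0)]), (nat_lit 65, [(false, nat_lit 64)])],
  [(nat_lit 2, [(false, nat_lit 0)]), (nat_lit 66, [(false, nat_lit 64)])],
  [(nat_lit 1, [(false, nat_lit 0)]), (nat_lit 3, [(false, nat_lit 2)]), (nat_lit 65, [(false, nat_lit 64)]), (nat_lit 67, [(false, nat_lit 66)])],
  [(nat_lit 4, [(false, nat_lit 0)]), (nat_lit 68, [(false, nat_lit 64)])],
  [(nat_lit 1, [(false, nat_lit 0)]), (nat_lit 5, [(false, nat_lit 4)]), (nat_lit 65, [(false, nat_lit 64)]), (nat_lit 69, [(false, nat_lit 68)])],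
  [(nat_lit 2, [(false, nat_lit 0)]), (nat_lit 6, [(false, nat_lit 4)]), (nat_lit 66, [(false, nat_lit 64)])],
  [(nat_lit 1, [(false, nat_lit 0)]), (nat_lit 3, [(false, nat_lit 2)]), (nat_lit 5, [(false, nat_lit 4)]), (nat_lit 7, [(false, nat_lit 6)]), (nat_lit 65, [(false, nat_lit 64)]), (nat_lit 67, [(false, nat_lit 66)]), (nat_lit 69, [(false, nat_lit 68)])],
  [(nat_lit 8, [(false, nat_lit 0)]), (nat_lit 72, [(false, nat_lit 64)])],
  [(nat_lit 1, [(false, nat_lit 0)]), (nat_lit 9, [(false, nat_lit 8)]), (nat_lit 65, [(false, nat_lit 64)]), (nat_lit 73, [(false, nat_lit 72)])],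
  [(nat_lit 2, [(false, nat_lit 0)]), (nat_lit 10, [(false, nat_lit 8)]), (nat_lit 66, [(false, nat_lit 64)]), (nat_lit 74, [(false, nat_lit 72)])],
  [(nat_lit 1, [(false, nat_lit 0)]), (nat_lit 3, [(false, nat_lit 2)]), (nat_lit 9, [(false, nat_lit 8)]), (nat_lit 11, [(false, nat_lit 10)]), (nat_lit 65, [(false, nat_lit 64)]), (nat_lit 67, [(false, nat_lit 66)]), (nat_lit 73, [(false, nat_lit 72)]), (nat_lit 75, [(false, nat_lit 74)])],
  [(nat_lit 4, [(false, nat_lit 0)]), (nat_lit 12, [(false, nat_lit 8)]), (nat_lit 68, [(false, nat_lit 64)]), (nat_lit 76, [(false, nat_lit 72)])],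
  [(nat_lit 1, [(false, nat_lit 0)]), (nat_lit 5, [(false, nat_lit 4)]), (nat_lit 9, [(false, nat_lit 8)]), (nat_lit 13, [(false, nat_lit 12)]), (nat_lit 65, [(false, nat_lit 64)]), (nat_lit 69, [(false, nat_lit 68)]), (nat_lit 73, [(false, nat_lit 72)]), (nat_lit 77, [(false, nat_lit 76)])],
  [(nat_lit 2, [(false, nat_lit 0)]), (nat_lit 6, [(false, nat_lit 4)]), (nat_lit 10, [(false, nat_lit 8)]), (nat_lit 14, [(false, nat_lit 12), (true, nat_lit 68)]), (nat_lit 66, [(false, nat_lit 64)]), (nat_lit 74, [(true, nat_lit 68), (false, nat_lit 72)]), (nat_lit 76, [(true, nat_lit 68)])],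
  [(nat_lit 1, [(false, nat_lit 0)]), (nat_lit 3, [(false, nat_lit 2)]), (nat_lit 5, [(false, nat_lit 4)]), (nat_lit 7, [(false, nat_lit 6)]), (nat_lit 9, [(false, nat_lit 8)]), (nat_lit 11, [(false, nat_lit 10)]), (nat_lit 13, [(false, nat_lit 12)]), (nat_lit 15, [(false, nat_lit 14)]), (nat_lit 65, [(false, nat_lit 64)]), (nat_lit 67, [(false, nat_lit 66)]), (nat_lit 69, [(false, nat_lit 68)]), (nat_lit 73, [(false, nat_lit 72)]), (nat_lit 75, [(false, nat_lit 74)]), (nat_lit 77, [(false, nat_lit 76)])],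
  [(nat_lit 16, [(false, nat_lit 0)]), (nat_lit 80, [(false, nat_lit 64)])],
  [(nat_lit 1, [(false, nat_lit 0)]), (nat_lit 17, [(false, nat_lit 16)]), (nat_lit 65, [(false, nat_lit 64)]), (nat_lit 81, [(false, nat_lit 80)])],
  [(nat_lit 2, [(false, nat_lit 0)]), (nat_lit 18, [(false, nat_lit 16)]), (nat_lit 66, [(false, nat_lit 64)]), (nat_lit 82, [(false, nat_lit 80)])],
  [(nat_lit 1, [(false, nat_lit 0)]), (nat_lit 3, [(false, nat_lit 2)]), (nat_lit 17, [(false, nat_lit 16)]), (nat_lit 19, [(false, nat_lit 18)]), (nat_lit 65, [(false, nat_lit 64)]), (nat_lit 67, [(false, nat_lit 66)]), (nat_lit 81, [(false, nat_lit 80)]), (nat_lit 83, [(false, nat_lit 82)])],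
  [(nat_lit 4, [(false, nat_lit 0)]), (nat_lit 20, [(false, nat_lit 16)]), (nat_lit 68, [(false, nat_lit 64)])],
  [(nat_lit 1, [(false, nat_lit 0)]), (nat_lit 5, [(false, nat_lit 4)]), (nat_lit 17, [(false, nat_lit 16)]), (nat_lit 65, [(false, nat_lit 64)]), (nat_lit 69, [(false, nat_lit 68)]), (nat_lit 81, [(false, nat_lit 80)])],
  [(nat_lit 2, [(false, nat_lit 0)]), (nat_lit 6, [(false, nat_lit 4)]), (nat_lit 18, [(false, nat_lit 16)]), (nat_lit 22, [(false, nat_lit 20)]), (nat_lit 66, [(false, nat_lit 64)]), (nat_lit 82, [(false, nat_lit 80)])],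
  [(nat_lit 1, [(false, nat_lit 0)]), (nat_lit 3, [(false, nat_lit 2)]), (nat_lit 5, [(false, nat_lit 4)]), (nat_lit 7, [(false, nat_lit 6), (true, nat_lit 20)]), (nat_lit 17, [(false, nat_lit 16)]), (nat_lit 19, [(false, nat_lit 18), (true, nat_lit 20)]), (nat_lit 22, [(true, nat_lit 20)]), (nat_lit 65, [(false, nat_lit 64)]), (nat_lit 67, [(false, nat_lit 66)]), (nat_lit 69, [(false, nat_lit 68)]), (nat_lit 81, [(false, nat_lit 80)]), (nat_lit 83, [(false, nat_lit 82)])],
  [(nat_lit 8, [(false, nat_lit 0)]), (nat_lit 24, [(false, nat_lit 16)]), (nat_lit 72, [(false, nat_lit 64)]), (nat_lit 88, [(false, nat_lit 80)])],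
  [(nat_lit 1, [(false, nat_lit 0)]), (nat_lit 9, [(false, nat_lit 8)]), (nat_lit 17, [(false, nat_lit 16)]), (nat_lit 65, [(false, nat_lit 64)]), (nat_lit 73, [(true, nat_lit 24), (false, nat_lit 72)]), (nat_lit 81, [(true, nat_lit 24), (false, nat_lit 80)]), (nat_lit 88, [(true, nat_lit 24)])],
  [(nat_lit 2, [(false, nat_lit 0)]), (nat_lit 10, [(false, nat_lit 8)]), (nat_lit 18, [(false, nat_lit 16)]), (nat_lit 26, [(false, nat_lit 24)]), (nat_lit 66, [(false, nat_lit 64)]), (nat_lit 74, [(false, nat_lit 72)]), (nat_lit 82, [(false, nat_lit 80)]), (nat_lit 90, [(false, nat_lit 88)])],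
  [(nat_lit 1, [(false, nat_lit 0)]), (nat_lit 3, [(false, nat_lit 2)]), (nat_lit 9, [(false, nat_lit 8)]), (nat_lit 11, [(false, nat_lit 10)]), (nat_lit 17, [(false, nat_lit 16)]), (nat_lit 19, [(false, nat_lit 18)]), (nat_lit 65, [(false, nat_lit 64)]), (nat_lit 67, [(false, nat_lit 66)]), (nat_lit 73, [(true, nat_lit 24), (false, nat_lit 72)]), (nat_lit 75, [(true, nat_lit 26), (false, nat_lit 74)]), (nat_lit 81, [(true, nat_lit 24), (false, nat_lit 80)]), (nat_lit 83, [(true, nat_lit 26), (false, nat_lit 82)]), (nat_lit 88, [(false, nat_lit 24)]), (nat_lit 90, [(true, nat_lit 26)])],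
  [(nat_lit 4, [(false, nat_lit 0)]), (nat_lit 12, [(false, nat_lit 8)]), (nat_lit 20, [(false, nat_lit 16)]), (nat_lit 28, [(false, nat_lit 24), (true, nat_lit 80)]), (nat_lit 68, [(false, nat_lit 64)]), (nat_lit 76, [(false, nat_lit 72), (true, nat_lit 80)]), (nat_lit 88, [(true, nat_lit 80)])],
  [(nat_lit 1, [(false, nat_lit 0)]), (nat_lit 5, [(false, nat_lit 4)]), (nat_lit 9, [(false, nat_lit 8)]), (nat_lit 13, [(false, nat_lit 12), (true, nat_lit 20)]), (nat_lit 17, [(false, nat_lit 16)]), (nat_lit 28, [(true, nat_lit 20)]), (nat_lit 65, [(false, nat_lit 64)]), (nat_lit 69, [(false, nat_lit 68)]), (nat_lit 73, [(false, nat_lit 20), (true, nat_lit 24), (false, nat_lit 72)]), (nat_lit 77, [(false, nat_lit 76)]), (nat_lit 81, [(false, nat_lit 20), (true, nat_lit 24), (false, nat_lit 80)]), (nat_lit 88, [(true, nat_lit 20), (false, nat_lit 24)])],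
  [(nat_lit 2, [(false, nat_lit 0)]), (nat_lit 6, [(false, nat_lit 4)]), (nat_lit 10, [(false, nat_lit 8)]), (nat_lit 14, [(false, nat_lit 12), (false, nat_lit 68)]), (nat_lit 18, [(false, nat_lit 16)]), (nat_lit 22, [(false, nat_lit 20)]), (nat_lit 26, [(false, nat_lit 24)]), (nat_lit 30, [(false, nat_lit 28)]), (nat_lit 66, [(false, nat_lit 64)]), (nat_lit 74, [(true, nat_lit 68), (false, nat_lit 72)]), (nat_lit 76, [(true, nat_lit 68)]), (nat_lit 82, [(false, nat_lit 80)]), (nat_lit 90, [(false, nat_lit 88)])],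
  [(nat_lit 1, [(false, nat_lit 0)]), (nat_lit 3, [(false, nat_lit 2)]), (nat_lit 5, [(false, nat_lit 4)]), (nat_lit 7, [(false, nat_lit 6)]), (nat_lit 9, [(false, nat_lit 8)]), (nat_lit 11, [(false, nat_lit 10), (true, nat_lit 20), (false, nat_lit 24)]), (nat_lit 13, [(false, nat_lit 12), (true, nat_lit 20)]), (nat_lit 15, [(false, nat_lit 14), (true, nat_lit 22)]), (nat_lit 17, [(false, nat_lit 16)]), (nat_lit 19, [(false, nat_lit 18), (true, nat_lit 20), (false, nat_lit 24)]), (nat_lit 26, [(false, nat_lit 20), (true, nat_lit 24)]), (nat_lit 28, [(false, nat_lit 20)]), (nat_lit 30, [(true, nat_lit 22)]), (nat_lit 65, [(false, nat_lit 64)]), (nat_lit 67, [(false, nat_lit 66)]), (nat_lit 69, [(false, nat_lit 68)]), (nat_lit 73, [(false, nat_lit 72)]), (nat_lit 75, [(false, nat_lit 74), (false, nat_lit 88)]), (nat_lit 77, [(false, nat_lit 76)]), (nat_lit 81, [(false, nat_lit 80)]), (nat_lit 83, [(false, nat_lit 82), (false, nat_lit 88)]), (nat_lit 90, [(true, nat_lit 88)])],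
  [(nat_lit 32, [(false, nat_lit 0)]), (nat_lit 96, [(false, nat_lit 64)])],
  [(nat_lit 1, [(false, nat_lit 0)]), (nat_lit 33, [(false, nat_lit 32)]), (nat_lit 65, [(false, nat_lit 64)]), (nat_lit 97, [(false, nat_lit 96)])],
  [(nat_lit 2, [(false, nat_lit 0)]), (nat_lit 34, [(false, nat_lit 32)]), (nat_lit 66, [(false, nat_lit 64)])],
  [(nat_lit 1, [(false, nat_lit 0)]), (nat_lit 3, [(false, nat_lit 2)]), (nat_lit 33, [(false, nat_lit 32)]), (nat_lit 35, [(false, nat_lit 34)]), (nat_lit 65, [(false, nat_lit 64)]), (nat_lit 67, [(false, nat_lit 66)]), (nat_lit 97, [(false, nat_lit 96)])],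
  [(nat_lit 4, [(false, nat_lit 0)]), (nat_lit 36, [(false, nat_lit 32)]), (nat_lit 68, [(false, nat_lit 64)])],
  [(nat_lit 1, [(false, nat_lit 0)]), (nat_lit 5, [(false, nat_lit 4)]), (nat_lit 33, [(false, nat_lit 32)]), (nat_lit 37, [(false, nat_lit 36)]), (nat_lit 65, [(false, nat_lit 64)]), (nat_lit 69, [(false, nat_lit 68)]), (nat_lit 97, [(false, nat_lit 96)])],
  [(nat_lit 2, [(false, nat_lit 0)]), (nat_lit 6, [(false, nat_lit 4)]), (nat_lit 34, [(false, nat_lit 32)]), (nat_lit 38, [(false, nat_lit 36)]), (nat_lit 66, [(false, nat_lit 64)])],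
  [(nat_lit 1, [(false, nat_lit 0)]), (nat_lit 3, [(false, nat_lit 2)]), (nat_lit 5, [(false, nat_lit 4)]), (nat_lit 7, [(false, nat_lit 6)]), (nat_lit 33, [(false, nat_lit 32)]), (nat_lit 35, [(false, nat_lit 34)]), (nat_lit 37, [(false, nat_lit 36)]), (nat_lit 39, [(false, nat_lit 38)]), (nat_lit 65, [(false, nat_lit 64)]), (nat_lit 67, [(false, nat_lit 66)]), (nat_lit 69, [(false, nat_lit 68)]), (nat_lit 97, [(false, nat_lit 96)])],
  [(nat_lit 8, [(false, nat_lit 0)]), (nat_lit 40, [(false, nat_lit 32)]), (nat_lit 72, [(false, nat_lit 64)]), (nat_lit 104, [(false, nat_lit 96)])],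
  [(nat_lit 1, [(false, nat_lit 0)]), (nat_lit 9, [(false, nat_lit 8)]), (nat_lit 33, [(false, nat_lit 32)]), (nat_lit 65, [(false, nat_lit 64)]), (nat_lit 73, [(true, nat_lit 40), (false, nat_lit 72)]), (nat_lit 97, [(true, nat_lit 40), (false, nat_lit 96)]), (nat_lit 104, [(true, nat_lit 40)])],
  [(nat_lit 2, [(false, nat_lit 0)]), (nat_lit 10, [(false, nat_lit 8)]), (nat_lit 34, [(false, nat_lit 32)]), (nat_lit 66, [(false, nat_lit 64)]), (nat_lit 74, [(true, nat_lit 40), (false, nat_lit 72)]), (nat_lit 104, [(true, nat_lit 40)])],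
  [(nat_lit 1, [(false, nat_lit 0)]), (nat_lit 3, [(false, nat_lit 2)]), (nat_lit 9, [(false, nat_lit 8)]), (nat_lit 11, [(false, nat_lit 10), (true, nat_lit 40), (false, nat_lit 72)]), (nat_lit 33, [(false, nat_lit 32)]), (nat_lit 35, [(false, nat_lit 34)]), (nat_lit 65, [(false, nat_lit 64)]), (nat_lit 67, [(false, nat_lit 40), (false, nat_lit 66), (true, nat_lit 72)]), (nat_lit 74, [(false, nat_lit 40), (true, nat_lit 72)]), (nat_lit 75, [(false, nat_lit 73)]), (nat_lit 97, [(true, nat_lit 40), (false, nat_lit 96)]), (nat_lit 104, [(false, nat_lit 40)])],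
  [(nat_lit 4, [(false, nat_lit 0)]), (nat_lit 12, [(false, nat_lit 8)]), (nat_lit 36, [(false, nat_lit 32)]), (nat_lit 68, [(false, nat_lit 64)]), (nat_lit 76, [(true, nat_lit 40), (false, nat_lit 72)]), (nat_lit 104, [(true, nat_lit 40)])],
  [(nat_lit 1, [(false, nat_lit 0)]), (nat_lit 5, [(false, nat_lit 4)]), (nat_lit 9, [(false, nat_lit 8)]), (nat_lit 13, [(false, nat_lit 12), (true, nat_lit 40), (false, nat_lit 72)]), (nat_lit 33, [(false, nat_lit 32)]), (nat_lit 37, [(false, nat_lit 36)]), (nat_lit 65, [(false, nat_lit 64)]), (nat_lit 69, [(false, nat_lit 40), (false, nat_lit 68), (true, nat_lit 72)]), (nat_lit 76, [(false, nat_lit 40), (true, nat_lit 72)]), (nat_lit 77, [(false, nat_lit 73)]), (nat_lit 97, [(true, nat_lit 40), (false, nat_lit 96)]), (nat_lit 104, [(false, nat_lit 40)])],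
  [(nat_lit 2, [(false, nat_lit 0)]), (nat_lit 6, [(false, nat_lit 4)]), (nat_lit 10, [(false, nat_lit 8)]), (nat_lit 14, [(false, nat_lit 12), (false, nat_lit 68)]), (nat_lit 34, [(false, nat_lit 32)]), (nat_lit 38, [(false, nat_lit 36)]), (nat_lit 66, [(false, nat_lit 64)]), (nat_lit 74, [(true, nat_lit 40), (true, nat_lit 68), (false, nat_lit 72)]), (nat_lit 76, [(true, nat_lit 68)]), (nat_lit 104, [(false, nat_lit 40)])],
  [(nat_lit 1, [(false, nat_lit 0)]), (nat_lit 3, [(false, nat_lit 2)]), (nat_lit 5, [(false, nat_lit 4)]), (nat_lit 7, [(false, nat_lit 6)]), (nat_lit 9, [(false, nat_lit 8)]), (nat_lit 11, [(false, nat_lit 10)]), (nat_lit 13, [(false, nat_lit 12)]), (nat_lit 15, [(false, nat_lit 14)]), (nat_lit 33, [(false, nat_lit 32)]), (nat_lit 35, [(false, nat_lit 34)]), (nat_lit 37, [(false, nat_lit 36)]), (nat_lit 39, [(false, nat_lit 38)]), (nat_lit 65, [(false, nat_lit 64)]), (nat_lit 67, [(false, nat_lit 66)]), (nat_lit 69, [(false, nat_lit 68)]), (nat_lit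 73, [(true, nat_lit 40), (false, nat_lit 72)]), (nat_lit 75, [(false, nat_lit 74)]), (nat_lit 77, [(false, nat_lit 76)]), (nat_lit 97, [(true, nat_lit 40), (false, nat_lit 96)]), (nat_lit 104, [(true, nat_lit 40)])],
  [(nat_lit 16, [(false, nat_lit 0)]), (nat_lit 48, [(false, nat_lit 32)]), (nat_lit 80, [(false, nat_lit 64)]), (nat_lit 112, [(false, nat_lit 96)])],
  [(nat_lit 1, [(false, nat_lit 0)]), (nat_lit 17, [(false, nat_lit 16)]), (nat_lit 33, [(false, nat_lit 32)]), (nat_lit 49, [(false, nat_lit 48)]), (nat_lit 65, [(false, nat_lit 64)]), (nat_lit 81, [(false, nat_lit 80)]), (nat_lit 97, [(false, nat_lit 96)]), (nat_lit 113, [(false, nat_lit 112)])],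
  [(nat_lit 2, [(false, nat_lit 0)]), (nat_lit 18, [(false, nat_lit 16)]), (nat_lit 34, [(false, nat_lit 32)]), (nat_lit 50, [(false, nat_lit 48), (true, nat_lit 96)]), (nat_lit 66, [(false, nat_lit 64)]), (nat_lit 82, [(false, nat_lit 80), (true, nat_lit 96)]), (nat_lit 112, [(true, nat_lit 96)])],
  [(nat_lit 1, [(false, nat_lit 0)]), (nat_lit 3, [(false, nat_lit 2)]), (nat_lit 17, [(false, nat_lit 16)]), (nat_lit 19, [(false, nat_lit 18)]), (nat_lit 33, [(false, nat_lit 32)]), (nat_lit 35, [(false, nat_lit 34)]), (nat_lit 49, [(false, nat_lit 48)]), (nat_lit 51, [(false, nat_lit 50)]), (nat_lit 65, [(false, nat_lit 64)]), (nat_lit 67, [(false, nat_lit 66)]), (nat_lit 81, [(false, nat_lit 80)]), (nat_lit 83, [(false, nat_lit 82)]), (nat_lit 97, [(false, nat_lit 96)]), (nat_lit 113, [(false, nat_lit 112)])],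
  [(nat_lit 4, [(false, nat_lit 0)]), (nat_lit 20, [(false, nat_lit 16)]), (nat_lit 36, [(false, nat_lit 32)]), (nat_lit 68, [(false, nat_lit 64)]), (nat_lit 112, [(true, nat_lit 48)])],
  [(nat_lit 1, [(false, nat_lit 0)]), (nat_lit 5, [(false, nat_lit 4)]), (nat_lit 17, [(false, nat_lit 16)]), (nat_lit 33, [(false, nat_lit 32)]), (nat_lit 37, [(false, nat_lit 36)]), (nat_lit 49, [(false, nat_lit 48)]), (nat_lit 65, [(false, nat_lit 64)]), (nat_lit 69, [(false, nat_lit 68)]), (nat_lit 81, [(false, nat_lit 80)]), (nat_lit 97, [(false, nat_lit 96)]), (nat_lit 113, [(false, nat_lit 112)])],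
  [(nat_lit 2, [(false, nat_lit 0)]), (nat_lit 6, [(false, nat_lit 4)]), (nat_lit 18, [(false, nat_lit 16)]), (nat_lit 22, [(false, nat_lit 20)]), (nat_lit 34, [(false, nat_lit 32)]), (nat_lit 38, [(false, nat_lit 36)]), (nat_lit 50, [(false, nat_lit 48), (true, nat_lit 96)]), (nat_lit 66, [(false, nat_lit 64)]), (nat_lit 82, [(false, nat_lit 80), (true, nat_lit 96)]), (nat_lit 112, [(false, nat_lit 96)])],
  [(nat_lit 1, [(false, nat_lit 0)]), (nat_lit 3, [(false, nat_lit 2)]), (nat_lit 5, [(false, nat_lit 4)]), (nat_lit 7, [(false, nat_lit 6), (true, nat_lit 20)]), (nat_lit 17, [(false, nat_lit 16)]), (nat_lit 19, [(false, nat_lit 18), (true, nat_lit 20)]), (nat_lit 22, [(true, nat_lit 20)]), (nat_lit 33, [(false, nat_lit 32)]), (nat_lit 35, [(false, nat_lit 34)]), (nat_lit 37, [(false, nat_lit 36)]), (nat_lit 39, [(false, nat_lit 38)]), (nat_lit 49, [(false, nat_lit 48)]), (nat_lit 51, [(false, nat_lit 50)]), (nat_lit 65, [(false, nat_lit 64)]), (nat_lit 67, [(false,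 nat_lit 66)]), (nat_lit 69, [(false, nat_lit 68)]), (nat_lit 81, [(false, nat_lit 80)]), (nat_lit 83, [(false, nat_lit 82)]), (nat_lit 97, [(false, nat_lit 96)]), (nat_lit 113, [(false, nat_lit 112)])],
  [(nat_lit 8, [(false, nat_lit 0)]), (nat_lit 24, [(false, nat_lit 16)]), (nat_lit 40, [(false, nat_lit 32)]), (nat_lit 56, [(false, nat_lit 48)]), (nat_lit 72, [(false, nat_lit 64)]), (nat_lit 88, [(false, nat_lit 80)]), (nat_lit 104, [(false, nat_lit 96)]), (nat_lit 120, [(false, nat_lit 112)])],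
  [(nat_lit 1, [(false, nat_lit 0)]), (nat_lit 9, [(false, nat_lit 8)]), (nat_lit 17, [(false, nat_lit 16)]), (nat_lit 33, [(false, nat_lit 32)]), (nat_lit 49, [(false, nat_lit 48)]), (nat_lit 65, [(false, nat_lit 64)]), (nat_lit 73, [(false, nat_lit 24), (true, nat_lit 40), (false, nat_lit 72)]), (nat_lit 81, [(false, nat_lit 24), (false, nat_lit 80)]), (nat_lit 88, [(false, nat_lit 24)]), (nat_lit 97, [(false, nat_lit 40), (false, nat_lit 96)]), (nat_lit 104, [(false, nat_lit 40)]), (nat_lit 113, [(true, nat_lit 56), (false, nat_lit 112)]), (nat_lit 120, [(true, nat_lit 56)])],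
  [(nat_lit 2, [(false, nat_lit 0)]), (nat_lit 10, [(false, nat_lit 8)]), (nat_lit 18, [(false, nat_lit 16)]), (nat_lit 26, [(false, nat_lit 24)]), (nat_lit 34, [(false, nat_lit 32)]), (nat_lit 50, [(true, nat_lit 40), (false, nat_lit 48), (true, nat_lit 96)]), (nat_lit 66, [(false, nat_lit 64)]), (nat_lit 74, [(true, nat_lit 40), (false, nat_lit 72)]), (nat_lit 82, [(true, nat_lit 40), (false, nat_lit 80), (true, nat_lit 96)]), (nat_lit 90, [(true, nat_lit 56), (false, nat_lit 88)]), (nat_lit 104, [(false, nat_lit 40)]), (nat_lit 112, [(false, nat_lit 40), (false, nat_lit 96)]), (nat_lit 120, [(true, nat_lit 56)])],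
  [(nat_lit 1, [(false, nat_lit 0)]), (nat_lit 3, [(false, nat_lit 2)]), (nat_lit 9, [(false, nat_lit 8)]), (nat_lit 11, [(false, nat_lit 10)]), (nat_lit 17, [(false, nat_lit 16)]), (nat_lit 19, [(false, nat_lit 18)]), (nat_lit 33, [(false, nat_lit 32)]), (nat_lit 35, [(false, nat_lit 34)]), (nat_lit 49, [(false, nat_lit 48)]), (nat_lit 51, [(false, nat_lit 50)]), (nat_lit 65, [(false, nat_lit 64)]), (nat_lit 67, [(false, nat_lit 66)]), (nat_lit 73, [(false, nat_lit 24), (true, nat_lit 40), (false, nat_lit 72)]), (nat_lit 75, [(false, nat_lit 26), (false, nat_lit 74)]), (nat_lit 81, [(false, nat_lit 24), (false, nat_lit 80)]), (nat_lit 83, [(false, nat_lit 26), (false, nat_lit 82)]), (nat_lit 88, [(true, nat_lit 24)]), (nat_lit 90, [(false, nat_lit 26)]), (nat_lit 97, [(false, nat_lit 40), (false, nat_lit 96)]), (nat_lit 104, [(true, nat_lit 40)]), (nat_lit 113, [(true, nat_lit 56), (false, nat_lit 112)]), (nat_lit 120, [(false, nat_lit 56)])],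
  [(nat_lit 4, [(false, nat_lit 0)]), (nat_lit 12, [(false, nat_lit 8)]), (nat_lit 20, [(false, nat_lit 16)]), (nat_lit 28, [(false, nat_lit 24), (true, nat_lit 48), (false, nat_lit 80)]), (nat_lit 36, [(false, nat_lit 32)]), (nat_lit 68, [(false, nat_lit 64)]), (nat_lit 76, [(true, nat_lit 40), (false, nat_lit 48), (false, nat_lit 72), (true, nat_lit 80)]), (nat_lit 88, [(false, nat_lit 48), (true, nat_lit 80)]), (nat_lit 104, [(false, nat_lit 40)]), (nat_lit 112, [(false, nat_lit 48)]), (nat_lit 120, [(true, nat_lit 56)])],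
  [(nat_lit 1, [(false, nat_lit 0)]), (nat_lit 5, [(false, nat_lit 4)]), (nat_lit 9, [(false, nat_lit 8)]), (nat_lit 13, [(false, nat_lit 12), (true, nat_lit 20)]), (nat_lit 17, [(false, nat_lit 16)]), (nat_lit 28, [(true, nat_lit 20)]), (nat_lit 33, [(false, nat_lit 32)]), (nat_lit 37, [(false, nat_lit 36)]), (nat_lit 49, [(false, nat_lit 48)]), (nat_lit 65, [(false, nat_lit 64)]), (nat_lit 69, [(false, nat_lit 68)]), (nat_lit 73, [(true, nat_lit 20), (false, nat_lit 24), (true, nat_lit 40), (false, nat_lit 72)]), (nat_lit 77, [(false, nat_lit 76)]), (nat_lit 81, [(true, nat_lit 20), (false, nat_lit 24), (false, nat_lit 80)]), (nat_lit 88, [(false, nat_lit 20), (true, nat_lit 24)]), (nat_lit 97, [(false, nat_lit 40), (false, nat_lit 96)]), (nat_lit 104, [(true, nat_lit 40)]), (nat_lit 113, [(true, nat_lit 56), (false, nat_lit 112)]), (nat_lit 120, [(false, nat_lit 56)])],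
  [(nat_lit 2, [(false, nat_lit 0)]), (nat_lit 6, [(false, nat_lit 4)]), (nat_lit 10, [(false, nat_lit 8)]), (nat_lit 14, [(false, nat_lit 12), (true, nat_lit 68)]), (nat_lit 18, [(false, nat_lit 16)]), (nat_lit 22, [(false, nat_lit 20)]), (nat_lit 26, [(false, nat_lit 24)]), (nat_lit 30, [(false, nat_lit 28)]), (nat_lit 34, [(false, nat_lit 32)]), (nat_lit 38, [(false, nat_lit 36)]), (nat_lit 50, [(true, nat_lit 40), (false, nat_lit 48), (true, nat_lit 96)]), (nat_lit 66, [(false, nat_lit 64)]), (nat_lit 74, [(true, nat_lit 40), (true, nat_lit 68), (false, nat_lit 72)]), (nat_lit 76, [(true, nat_lit 68)]), (nat_lit 82, [(true, nat_lit 40), (false, nat_lit 80), (true, nat_lit 96)]), (nat_lit 90, [(true, nat_lit 56), (false, nat_lit 88)]), (nat_lit 104, [(true, nat_lit 40)]), (nat_lit 112, [(true, nat_lit 40), (true, nat_lit 96)]), (nat_lit 120, [(false, nat_lit 56)])],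
  [(nat_lit 1, [(false, nat_lit 0)]), (nat_lit 3, [(false, nat_lit 2)]), (nat_lit 5, [(false, nat_lit 4)]), (nat_lit 7, [(false, nat_lit 6)]), (nat_lit 9, [(false, nat_lit 8)]), (nat_lit 11, [(false, nat_lit 10), (true, nat_lit 20), (false, nat_lit 24)]), (nat_lit 13, [(false, nat_lit 12), (true, nat_lit 20)]), (nat_lit 15, [(false, nat_lit 14), (true, nat_lit 22)]), (nat_lit 17, [(false, nat_lit 16)]), (nat_lit 19, [(false, nat_lit 18), (true, nat_lit 20), (false, nat_lit 24)]), (nat_lit 26, [(false, nat_lit 20), (true, nat_lit 24)]), (nat_lit 28, [(false, nat_lit 20)]), (nat_lit 30, [(true, nat_lit 22)]), (nat_lit 33, [(false, nat_lit 32)]), (nat_lit 35, [(false, nat_lit 34)]), (nat_lit 37, [(false, nat_lit 36)]), (nat_lit 39, [(false, nat_lit 38)]), (nat_lit 49, [(false, nat_lit 48)]), (nat_lit 51, [(false, nat_lit 50)]), (nat_lit 65, [(false, nat_lit 64)]), (nat_lit 67, [(false, nat_lit 66)]), (nat_lit 69, [(false, nat_lit 68)]), (nat_lit 73, [(true, nat_lit 40), (false,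 nat_lit 72)]), (nat_lit 75, [(true, nat_lit 56), (false, nat_lit 74), (false, nat_lit 88)]), (nat_lit 77, [(false, nat_lit 76)]), (nat_lit 81, [(false, nat_lit 80)]), (nat_lit 83, [(true, nat_lit 56), (false, nat_lit 82), (false, nat_lit 88)]), (nat_lit 90, [(false, nat_lit 56), (true, nat_lit 88)]), (nat_lit 97, [(false, nat_lit 40), (false, nat_lit 96)]), (nat_lit 104, [(false, nat_lit 40)]), (nat_lit 113, [(true, nat_lit 56), (false, nat_lit 112)]), (nat_lit 120, [(true, nat_lit 56)])],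
  [(nat_lit 128, [(false, nat_lit 0)])],
  [(nat_lit 1, [(false, nat_lit 0)]), (nat_lit 129, [(false, nat_lit 128)])],
  [(nat_lit 2, [(false, nat_lit 0)]), (nat_lit 130, [(false, nat_lit 128)])],
  [(nat_lit 1, [(false, nat_lit 0)]), (nat_lit 3, [(false, nat_lit 2)]), (nat_lit 129, [(false, nat_lit 128)])],
  [(nat_lit 4, [(false, nat_lit 0)]), (nat_lit 132, [(false, nat_lit 128)])],
  [(nat_lit 1, [(false, nat_lit 0)]), (nat_lit 5, [(false, nat_lit 4)]), (nat_lit 129, [(false, nat_lit 128)]), (nat_lit 133, [(false, nat_lit 132)])],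
  [(nat_lit 2, [(false, nat_lit 0)]), (nat_lit 6, [(false, nat_lit 4)]), (nat_lit 130, [(false, nat_lit 128)]), (nat_lit 134, [(false, nat_lit 132)])],
  [(nat_lit 1, [(false, nat_lit 0)]), (nat_lit 3, [(false, nat_lit 2)]), (nat_lit 5, [(false, nat_lit 4)]), (nat_lit 7, [(false, nat_lit 6), (true, nat_lit 130)]), (nat_lit 129, [(false, nat_lit 128)]), (nat_lit 133, [(true, nat_lit 130), (false, nat_lit 132)]), (nat_lit 134, [(true, nat_lit 130)])],
  [(nat_lit 8, [(false, nat_lit 0)]), (nat_lit 136, [(false, nat_lit 128)])],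
  [(nat_lit 1, [(false, nat_lit 0)]), (nat_lit 9, [(false, nat_lit 8)]), (nat_lit 129, [(false, nat_lit 128)])],
  [(nat_lit 2, [(false, nat_lit 0)]), (nat_lit 10, [(false, nat_lit 8)]), (nat_lit 130, [(false, nat_lit 128)])],
  [(nat_lit 1, [(false, nat_lit 0)]), (nat_lit 3, [(false, nat_lit 2)]), (nat_lit 9, [(false, nat_lit 8)]), (nat_lit 11, [(false, nat_lit 10)]), (nat_lit 129, [(false, nat_lit 128)])],
  [(nat_lit 4, [(false, nat_lit 0)]), (nat_lit 12, [(false, nat_lit 8)]), (nat_lit 132, [(false, nat_lit 128)]), (nat_lit 140, [(false, nat_lit 136)])],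
  [(nat_lit 1, [(false, nat_lit 0)]), (nat_lit 5, [(false, nat_lit 4)]), (nat_lit 9, [(false, nat_lit 8)]), (nat_lit 13, [(false, nat_lit 12), (true, nat_lit 136)]), (nat_lit 129, [(false, nat_lit 128)]), (nat_lit 133, [(false, nat_lit 132), (true, nat_lit 136)]), (nat_lit 140, [(true, nat_lit 136)])],
  [(nat_lit 2, [(false, nat_lit 0)]), (nat_lit 6, [(false, nat_lit 4)]), (nat_lit 10, [(false, nat_lit 8)]), (nat_lit 14, [(false, nat_lit 12), (true, nat_lit 136)]), (nat_lit 130, [(false, nat_lit 128)]), (nat_lit 134, [(false, nat_lit 132), (true, nat_lit 136)]), (nat_lit 140, [(true, nat_lit 136)])],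
  [(nat_lit 1, [(false, nat_lit 0)]), (nat_lit 3, [(false, nat_lit 2)]), (nat_lit 5, [(false, nat_lit 4)]), (nat_lit 7, [(false, nat_lit 6), (false, nat_lit 130)]), (nat_lit 9, [(false, nat_lit 8)]), (nat_lit 11, [(false, nat_lit 10)]), (nat_lit 13, [(false, nat_lit 12), (true, nat_lit 136)]), (nat_lit 15, [(false, nat_lit 14)]), (nat_lit 129, [(false, nat_lit 128)]), (nat_lit 133, [(true, nat_lit 130), (false, nat_lit 132), (true, nat_lit 136)]), (nat_lit 134, [(true, nat_lit 130)]), (nat_lit 140, [(false, nat_lit 136)])],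
  [(nat_lit 16, [(false, nat_lit 0)]), (nat_lit 144, [(false, nat_lit 128)])],
  [(nat_lit 1, [(false, nat_lit 0)]), (nat_lit 17, [(false, nat_lit 16)]), (nat_lit 129, [(false, nat_lit 128)])],
  [(nat_lit 2, [(false, nat_lit 0)]), (nat_lit 18, [(false, nat_lit 16)]), (nat_lit 130, [(false, nat_lit 128)]), (nat_lit 146, [(false, nat_lit 144)])],
  [(nat_lit 1, [(false, nat_lit 0)]), (nat_lit 3, [(false, nat_lit 2)]), (nat_lit 17, [(false, nat_lit 16)]), (nat_lit 19, [(false, nat_lit 18), (true, nat_lit 130)]), (nat_lit 129, [(false, nat_lit 128)]), (nat_lit 146, [(true, nat_lit 130)])],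
  [(nat_lit 4, [(false, nat_lit 0)]), (nat_lit 20, [(false, nat_lit 16)]), (nat_lit 132, [(false, nat_lit 128)]), (nat_lit 148, [(false, nat_lit 144)])],
  [(nat_lit 1, [(false, nat_lit 0)]), (nat_lit 5, [(false, nat_lit 4)]), (nat_lit 17, [(false, nat_lit 16)]), (nat_lit 129, [(false, nat_lit 128)]), (nat_lit 133, [(true, nat_lit 20), (false, nat_lit 132)]), (nat_lit 148, [(true, nat_lit 20)])],
  [(nat_lit 2, [(false, nat_lit 0)]), (nat_lit 6, [(false, nat_lit 4)]), (nat_lit 18, [(false, nat_lit 16)]), (nat_lit 22, [(false, nat_lit 20)]), (nat_lit 130, [(false, nat_lit 128)]), (nat_lit 134, [(false, nat_lit 132)]), (nat_lit 146, [(false, nat_lit 144)]), (nat_lit 150, [(false, nat_lit 148)])],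
  [(nat_lit 1, [(false, nat_lit 0)]), (nat_lit 3, [(false, nat_lit 2)]), (nat_lit 5, [(false, nat_lit 4)]), (nat_lit 7, [(false, nat_lit 6), (true, nat_lit 20), (false, nat_lit 130), (false, nat_lit 144)]), (nat_lit 17, [(false, nat_lit 16)]), (nat_lit 19, [(false, nat_lit 18), (true, nat_lit 20), (false, nat_lit 144)]), (nat_lit 129, [(false, nat_lit 128)]), (nat_lit 133, [(true, nat_lit 130), (false, nat_lit 132), (true, nat_lit 144)]), (nat_lit 134, [(false, nat_lit 20), (true, nat_lit 130), (true, nat_lit 144)]), (nat_lit 146, [(false, nat_lit 20), (true, nat_lit 144)]), (nat_lit 148, [(false, nat_lit 20)]), (nat_lit 150, [(true, nat_lit 22)])],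
  [(nat_lit 8, [(false, nat_lit 0)]), (nat_lit 24, [(false, nat_lit 16)]), (nat_lit 136, [(false, nat_lit 128)]), (nat_lit 152, [(false, nat_lit 144)])],
  [(nat_lit 1, [(false, nat_lit 0)]), (nat_lit 9, [(false, nat_lit 8)]), (nat_lit 17, [(false, nat_lit 16)]), (nat_lit 129, [(false, nat_lit 128)]), (nat_lit 152, [(true, nat_lit 24)])],
  [(nat_lit 2, [(false, nat_lit 0)]), (nat_lit 10, [(false, nat_lit 8)]), (nat_lit 18, [(false, nat_lit 16)]), (nat_lit 26, [(false, nat_lit 24), (true, nat_lit 136)]), (nat_lit 130, [(false, nat_lit 128)]), (nat_lit 146, [(true, nat_lit 136), (false, nat_lit 144)]), (nat_lit 152, [(true, nat_lit 136)])],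
  [(nat_lit 1, [(false, nat_lit 0)]), (nat_lit 3, [(false, nat_lit 2)]), (nat_lit 9, [(false, nat_lit 8)]), (nat_lit 11, [(false, nat_lit 10), (true, nat_lit 24), (false, nat_lit 136)]), (nat_lit 17, [(false, nat_lit 16)]), (nat_lit 19, [(false, nat_lit 18), (true, nat_lit 24), (true, nat_lit 130), (false, nat_lit 136)]), (nat_lit 26, [(true, nat_lit 24), (false, nat_lit 136)]), (nat_lit 129, [(false, nat_lit 128)]), (nat_lit 146, [(false, nat_lit 130)]), (nat_lit 152, [(false, nat_lit 136)])],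
  [(nat_lit 4, [(false, nat_lit 0)]), (nat_lit 12, [(false, nat_lit 8)]), (nat_lit 20, [(false, nat_lit 16)]), (nat_lit 28, [(false, nat_lit 24)]), (nat_lit 132, [(false, nat_lit 128)]), (nat_lit 140, [(false, nat_lit 136)]), (nat_lit 148, [(false, nat_lit 144)]), (nat_lit 156, [(false, nat_lit 152)])],
  [(nat_lit 1, [(false, nat_lit 0)]), (nat_lit 5, [(false, nat_lit 4)]), (nat_lit 9, [(false, nat_lit 8)]), (nat_lit 13, [(false, nat_lit 12), (true, nat_lit 24), (false, nat_lit 136)]), (nat_lit 17, [(false, nat_lit 16)]), (nat_lit 129, [(false, nat_lit 128)]), (nat_lit 133, [(true, nat_lit 20), (false, nat_lit 24), (false, nat_lit 132), (true, nat_lit 136)]), (nat_lit 140, [(false, nat_lit 24), (true, nat_lit 136)]), (nat_lit 148, [(false, nat_lit 20)]), (nat_lit 152, [(false, nat_lit 24)]), (nat_lit 156, [(true, nat_lit 28)])],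
  [(nat_lit 2, [(false, nat_lit 0)]), (nat_lit 6, [(false, nat_lit 4)]), (nat_lit 10, [(false, nat_lit 8)]), (nat_lit 14, [(false, nat_lit 12), (false, nat_lit 136)]), (nat_lit 18, [(false, nat_lit 16)]), (nat_lit 22, [(false, nat_lit 20)]), (nat_lit 26, [(false, nat_lit 24)]), (nat_lit 30, [(false, nat_lit 28), (true, nat_lit 152)]), (nat_lit 130, [(false, nat_lit 128)]), (nat_lit 134, [(false, nat_lit 132), (true, nat_lit 136)]), (nat_lit 140, [(true, nat_lit 136)]), (nat_lit 146, [(false, nat_lit 144)]), (nat_lit 150, [(false, nat_lit 148), (true, nat_lit 152)]), (nat_lit 156, [(true, nat_lit 152)])],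
  [(nat_lit 1, [(false, nat_lit 0)]), (nat_lit 3, [(false, nat_lit 2)]), (nat_lit 5, [(false, nat_lit 4)]), (nat_lit 7, [(false, nat_lit 6), (false, nat_lit 20), (true, nat_lit 24), (true, nat_lit 130), (false, nat_lit 144)]), (nat_lit 9, [(false, nat_lit 8)]), (nat_lit 11, [(false, nat_lit 10)]), (nat_lit 13, [(false, nat_lit 12), (true, nat_lit 24), (false, nat_lit 136)]), (nat_lit 15, [(false, nat_lit 14), (true, nat_lit 26)]), (nat_lit 17, [(false, nat_lit 16)]), (nat_lit 19, [(false, nat_lit 18), (true, nat_lit 20), (false, nat_lit 24), (true, nat_lit 144)]), (nat_lit 22, [(true, nat_lit 20), (false, nat_lit 24), (false, nat_lit 130), (true, nat_lit 144)]), (nat_lit 28, [(false, nat_lit 24), (true, nat_lit 136)]), (nat_lit 30, [(true, nat_lit 26)]), (nat_lit 129, [(false, nat_lit 128)]), (nat_lit 133, [(true, nat_lit 130), (false, nat_lit 132), (true, nat_lit 136), (false, nat_lit 144)]), (nat_lit 146, [(true, nat_lit 130)]), (nat_lit 148, [(true, nat_lit 130), (true,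 nat_lit 136), (false, nat_lit 144)]), (nat_lit 150, [(false, nat_lit 134)]), (nat_lit 152, [(true, nat_lit 136)]), (nat_lit 156, [(false, nat_lit 140)])],
  [(nat_lit 32, [(false, nat_lit 0)]), (nat_lit 160, [(false, nat_lit 128)])],
  [(nat_lit 1, [(false, nat_lit 0)]), (nat_lit 33, [(false, nat_lit 32)]), (nat_lit 129, [(false, nat_lit 128)]), (nat_lit 161, [(false, nat_lit 160)])],
  [(nat_lit 2, [(false, nat_lit 0)]), (nat_lit 34, [(false, nat_lit 32)]), (nat_lit 130, [(false, nat_lit 128)]), (nat_lit 162, [(false, nat_lit 160)])],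
  [(nat_lit 1, [(false, nat_lit 0)]), (nat_lit 3, [(false, nat_lit 2)]), (nat_lit 33, [(false, nat_lit 32)]), (nat_lit 35, [(false, nat_lit 34), (true, nat_lit 130)]), (nat_lit 129, [(false, nat_lit 128)]), (nat_lit 161, [(true, nat_lit 130), (false, nat_lit 160)]), (nat_lit 162, [(true, nat_lit 130)])],
  [(nat_lit 4, [(false, nat_lit 0)]), (nat_lit 36, [(false, nat_lit 32)]), (nat_lit 132, [(false, nat_lit 128)]), (nat_lit 164, [(false, nat_lit 160)])],
  [(nat_lit 1, [(false, nat_lit 0)]), (nat_lit 5, [(false, nat_lit 4)]), (nat_lit 33, [(false, nat_lit 32)]), (nat_lit 37, [(false, nat_lit 36)]), (nat_lit 129, [(false, nat_lit 128)]), (nat_lit 133, [(false, nat_lit 132)]), (nat_lit 161, [(false, nat_lit 160)]), (nat_lit 165, [(false, nat_lit 164)])],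
  [(nat_lit 2, [(false, nat_lit 0)]), (nat_lit 6, [(false, nat_lit 4)]), (nat_lit 34, [(false, nat_lit 32)]), (nat_lit 38, [(false, nat_lit 36)]), (nat_lit 130, [(false, nat_lit 128)]), (nat_lit 134, [(false, nat_lit 132)]), (nat_lit 162, [(false, nat_lit 160)]), (nat_lit 166, [(false, nat_lit 164)])],
  [(nat_lit 1, [(false, nat_lit 0)]), (nat_lit 3, [(false, nat_lit 2)]), (nat_lit 5, [(false, nat_lit 4)]), (nat_lit 7, [(false, nat_lit 6), (false, nat_lit 130)]), (nat_lit 33, [(false, nat_lit 32)]), (nat_lit 35, [(false, nat_lit 34)]), (nat_lit 37, [(false, nat_lit 36)]), (nat_lit 39, [(false, nat_lit 38), (true, nat_lit 162)]), (nat_lit 129, [(false, nat_lit 128)]), (nat_lit 133, [(true, nat_lit 130), (false, nat_lit 132)]), (nat_lit 134, [(true, nat_lit 130)]), (nat_lit 161, [(false, nat_lit 160)]), (nat_lit 165, [(true, nat_lit 162), (false, nat_lit 164)]), (nat_lit 166, [(true, nat_lit 162)])],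
  [(nat_lit 8, [(false, nat_lit 0)]), (nat_lit 40, [(false, nat_lit 32)]), (nat_lit 136, [(false, nat_lit 128)]), (nat_lit 168, [(false, nat_lit 160)])],
  [(nat_lit 1, [(false, nat_lit 0)]), (nat_lit 9, [(false, nat_lit 8)]), (nat_lit 33, [(false, nat_lit 32)]), (nat_lit 129, [(false, nat_lit 128)]), (nat_lit 161, [(true, nat_lit 40), (false, nat_lit 160)]), (nat_lit 168, [(true, nat_lit 40)])],
  [(nat_lit 2, [(false, nat_lit 0)]), (nat_lit 10, [(false, nat_lit 8)]), (nat_lit 34, [(false, nat_lit 32)]), (nat_lit 130, [(false, nat_lit 128)]), (nat_lit 162, [(true, nat_lit 40), (false, nat_lit 160)]), (nat_lit 168, [(true, nat_lit 40)])],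
  [(nat_lit 1, [(false, nat_lit 0)]), (nat_lit 3, [(false, nat_lit 2)]), (nat_lit 9, [(false, nat_lit 8)]), (nat_lit 11, [(false, nat_lit 10)]), (nat_lit 33, [(false, nat_lit 32)]), (nat_lit 35, [(false, nat_lit 34), (true, nat_lit 130)]), (nat_lit 129, [(false, nat_lit 128)]), (nat_lit 161, [(true, nat_lit 40), (false, nat_lit 130), (false, nat_lit 160)]), (nat_lit 162, [(false, nat_lit 130)]), (nat_lit 168, [(false, nat_lit 40)])],
  [(nat_lit 4, [(false, nat_lit 0)]), (nat_lit 12, [(false, nat_lit 8)]), (nat_lit 36, [(false, nat_lit 32)]), (nat_lit 132, [(false, nat_lit 128)]), (nat_lit 140, [(true, nat_lit 40), (false, nat_lit 136)]), (nat_lit 164, [(true, nat_lit 40), (false, nat_lit 160)]), (nat_lit 168, [(true, nat_lit 40)])],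
  [(nat_lit 1, [(false, nat_lit 0)]), (nat_lit 5, [(false, nat_lit 4)]), (nat_lit 9, [(false, nat_lit 8)]), (nat_lit 13, [(false, nat_lit 12), (true, nat_lit 40), (false, nat_lit 136)]), (nat_lit 33, [(false, nat_lit 32)]), (nat_lit 37, [(false, nat_lit 36), (true, nat_lit 40), (false, nat_lit 160)]), (nat_lit 129, [(false, nat_lit 128)]), (nat_lit 133, [(false, nat_lit 132), (true, nat_lit 136), (false, nat_lit 160)]), (nat_lit 140, [(false, nat_lit 40), (true, nat_lit 136)]), (nat_lit 164, [(false, nat_lit 40), (true, nat_lit 160)]), (nat_lit 165, [(false, nat_lit 161)]), (nat_lit 168, [(false, nat_lit 40)])],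
  [(nat_lit 2, [(false, nat_lit 0)]), (nat_lit 6, [(false, nat_lit 4)]), (nat_lit 10, [(false, nat_lit 8)]), (nat_lit 14, [(false, nat_lit 12), (true, nat_lit 40), (false, nat_lit 136)]), (nat_lit 34, [(false, nat_lit 32)]), (nat_lit 38, [(false, nat_lit 36), (true, nat_lit 40), (false, nat_lit 160)]), (nat_lit 130, [(false, nat_lit 128)]), (nat_lit 134, [(false, nat_lit 132), (true, nat_lit 136), (false, nat_lit 160)]), (nat_lit 140, [(false, nat_lit 40), (true, nat_lit 136)]), (nat_lit 164, [(false, nat_lit 40), (true, nat_lit 160)]), (nat_lit 166, [(false, nat_lit 162)]), (nat_lit 168, [(false, nat_lit 40)])],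
  [(nat_lit 1, [(false, nat_lit 0)]), (nat_lit 3, [(false, nat_lit 2)]), (nat_lit 5, [(false, nat_lit 4)]), (nat_lit 7, [(false, nat_lit 6)]), (nat_lit 9, [(false, nat_lit 8)]), (nat_lit 11, [(false, nat_lit 10)]), (nat_lit 13, [(false, nat_lit 12), (true, nat_lit 40), (false, nat_lit 136)]), (nat_lit 15, [(false, nat_lit 14)]), (nat_lit 33, [(false, nat_lit 32)]), (nat_lit 35, [(false, nat_lit 34), (true, nat_lit 130)]), (nat_lit 37, [(false, nat_lit 36), (true, nat_lit 40), (true, nat_lit 130), (false, nat_lit 160)]), (nat_lit 39, [(false, nat_lit 38), (true, nat_lit 134)]), (nat_lit 129, [(false, nat_lit 128)]), (nat_lit 133, [(true, nat_lit 130), (false, nat_lit 132), (true, nat_lit 136), (false, nat_lit 160)]), (nat_lit 140, [(true, nat_lit 40), (false, nat_lit 136)]), (nat_lit 162, [(true, nat_lit 130)]), (nat_lit 164, [(true, nat_lit 40), (true, nat_lit 130), (false, nat_lit 160)]), (nat_lit 165, [(true, nat_lit 161)]), (nat_lit 166, [(false, nat_lit 134)]), (nat_lit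 168, [(true, nat_lit 40)])],
  [(nat_lit 16, [(false, nat_lit 0)]), (nat_lit 48, [(false, nat_lit 32)]), (nat_lit 144, [(false, nat_lit 128)]), (nat_lit 176, [(false, nat_lit 160)])],
  [(nat_lit 1, [(false, nat_lit 0)]), (nat_lit 17, [(false, nat_lit 16)]), (nat_lit 33, [(false, nat_lit 32)]), (nat_lit 49, [(false, nat_lit 48), (true, nat_lit 144)]), (nat_lit 129, [(false, nat_lit 128)]), (nat_lit 161, [(true, nat_lit 144), (false, nat_lit 160)]), (nat_lit 176, [(true, nat_lit 144)])],
  [(nat_lit 2, [(false, nat_lit 0)]), (nat_lit 18, [(false, nat_lit 16)]), (nat_lit 34, [(false, nat_lit 32)]), (nat_lit 50, [(false, nat_lit 48)]), (nat_lit 130, [(false, nat_lit 128)]), (nat_lit 146, [(false, nat_lit 144)]), (nat_lit 162, [(false, nat_lit 160)]), (nat_lit 178, [(false, nat_lit 176)])],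
  [(nat_lit 1, [(false, nat_lit 0)]), (nat_lit 3, [(false, nat_lit 2)]), (nat_lit 17, [(false, nat_lit 16)]), (nat_lit 19, [(false, nat_lit 18)]), (nat_lit 33, [(false, nat_lit 32)]), (nat_lit 35, [(false, nat_lit 34), (true, nat_lit 130)]), (nat_lit 49, [(false, nat_lit 48), (true, nat_lit 144)]), (nat_lit 51, [(false, nat_lit 50), (true, nat_lit 146)]), (nat_lit 129, [(false, nat_lit 128)]), (nat_lit 161, [(false, nat_lit 130), (true, nat_lit 144), (false, nat_lit 160)]), (nat_lit 162, [(false, nat_lit 130)]), (nat_lit 176, [(false, nat_lit 144)]), (nat_lit 178, [(true, nat_lit 146)])],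
  [(nat_lit 4, [(false, nat_lit 0)]), (nat_lit 20, [(false, nat_lit 16)]), (nat_lit 36, [(false, nat_lit 32)]), (nat_lit 132, [(false, nat_lit 128)]), (nat_lit 148, [(true, nat_lit 48), (false, nat_lit 144)]), (nat_lit 164, [(true, nat_lit 48), (false, nat_lit 160)]), (nat_lit 176, [(true, nat_lit 48)])],
  [(nat_lit 1, [(false, nat_lit 0)]), (nat_lit 5, [(false, nat_lit 4)]), (nat_lit 17, [(false, nat_lit 16)]), (nat_lit 33, [(false, nat_lit 32)]), (nat_lit 37, [(true, nat_lit 20), (false, nat_lit 36), (true, nat_lit 132)]), (nat_lit 49, [(true, nat_lit 20), (false, nat_lit 48), (true, nat_lit 144)]), (nat_lit 129, [(false, nat_lit 128)]), (nat_lit 148, [(false, nat_lit 20)]), (nat_lit 161, [(false, nat_lit 132), (true, nat_lit 144), (false, nat_lit 160)]), (nat_lit 164, [(false, nat_lit 20), (false, nat_lit 132)]), (nat_lit 165, [(true, nat_lit 133)]), (nat_lit 176, [(false, nat_lit 20), (false, nat_lit 144)])],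
  [(nat_lit 2, [(false, nat_lit 0)]), (nat_lit 6, [(false, nat_lit 4)]), (nat_lit 18, [(false, nat_lit 16)]), (nat_lit 22, [(false, nat_lit 20)]), (nat_lit 34, [(false, nat_lit 32)]), (nat_lit 38, [(false, nat_lit 36)]), (nat_lit 50, [(false, nat_lit 48)]), (nat_lit 130, [(false, nat_lit 128)]), (nat_lit 134, [(false, nat_lit 132)]), (nat_lit 146, [(false, nat_lit 144)]), (nat_lit 150, [(false, nat_lit 148)]), (nat_lit 162, [(false, nat_lit 160)]), (nat_lit 166, [(false, nat_lit 164)]), (nat_lit 178, [(false, nat_lit 176)])],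
  [(nat_lit 1, [(false, nat_lit 0)]), (nat_lit 3, [(false, nat_lit 2)]), (nat_lit 5, [(false, nat_lit 4)]), (nat_lit 7, [(false, nat_lit 6), (true, nat_lit 20), (true, nat_lit 130), (true, nat_lit 144)]), (nat_lit 17, [(false, nat_lit 16)]), (nat_lit 19, [(false, nat_lit 18), (true, nat_lit 20), (true, nat_lit 144)]), (nat_lit 33, [(false, nat_lit 32)]), (nat_lit 35, [(false, nat_lit 34)]), (nat_lit 37, [(false, nat_lit 36)]), (nat_lit 39, [(false, nat_lit 38), (false, nat_lit 162), (false, nat_lit 176)]), (nat_lit 49, [(false, nat_lit 48)]), (nat_lit 51, [(false, nat_lit 50), (false, nat_lit 176)]), (nat_lit 129, [(false, nat_lit 128)]), (nat_lit 133, [(true, nat_lit 130), (false, nat_lit 132), (true, nat_lit 144)]), (nat_lit 134, [(true, nat_lit 20), (true, nat_lit 130), (true, nat_lit 144)]), (nat_lit 146, [(true, nat_lit 20), (true, nat_lit 144)]), (nat_lit 148, [(true, nat_lit 20)]), (nat_lit 150, [(false, nat_lit 22)]), (nat_lit 161, [(false, nat_lit 160)]), (nat_lit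 165, [(true, nat_lit 162), (false, nat_lit 164), (true, nat_lit 176)]), (nat_lit 166, [(true, nat_lit 162), (true, nat_lit 176)]), (nat_lit 178, [(true, nat_lit 176)])],
  [(nat_lit 8, [(false, nat_lit 0)]), (nat_lit 24, [(false, nat_lit 16)]), (nat_lit 40, [(false, nat_lit 32)]), (nat_lit 56, [(false, nat_lit 48)]), (nat_lit 136, [(false, nat_lit 128)]), (nat_lit 152, [(false, nat_lit 144)]), (nat_lit 168, [(false, nat_lit 160)]), (nat_lit 184, [(false, nat_lit 176)])],
  [(nat_lit 1, [(false, nat_lit 0)]), (nat_lit 9, [(false, nat_lit 8)]), (nat_lit 17, [(false, nat_lit 16)]), (nat_lit 33, [(false, nat_lit 32)]), (nat_lit 49, [(true, nat_lit 24), (false, nat_lit 48), (true, nat_lit 144)]), (nat_lit 129, [(false, nat_lit 128)]), (nat_lit 152, [(false, nat_lit 24)]), (nat_lit 161, [(true, nat_lit 24), (false, nat_lit 40), (true, nat_lit 144), (false, nat_lit 160)]), (nat_lit 168, [(false, nat_lit 40)]), (nat_lit 176, [(false, nat_lit 24), (false, nat_lit 144)]), (nat_lit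 184, [(true, nat_lit 56)])],
  [(nat_lit 2, [(false, nat_lit 0)]), (nat_lit 10, [(false, nat_lit 8)]), (nat_lit 18, [(false, nat_lit 16)]), (nat_lit 26, [(false, nat_lit 24), (true, nat_lit 40), (false, nat_lit 136)]), (nat_lit 34, [(false, nat_lit 32)]), (nat_lit 50, [(false, nat_lit 48)]), (nat_lit 130, [(false, nat_lit 128)]), (nat_lit 146, [(false, nat_lit 40), (true, nat_lit 136), (false, nat_lit 144)]), (nat_lit 152, [(false, nat_lit 40), (true, nat_lit 136)]), (nat_lit 162, [(false, nat_lit 40), (false, nat_lit 160)]), (nat_lit 168, [(false, nat_lit 40)]), (nat_lit 178, [(true, nat_lit 56), (false, nat_lit 176)]), (nat_lit 184, [(true, nat_lit 56)])],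
  [(nat_lit 1, [(false, nat_lit 0)]), (nat_lit 3, [(false, nat_lit 2)]), (nat_lit 9, [(false, nat_lit 8)]), (nat_lit 11, [(false, nat_lit 10), (true, nat_lit 24), (false, nat_lit 40), (true, nat_lit 136)]), (nat_lit 17, [(false, nat_lit 16)]), (nat_lit 19, [(false, nat_lit 18), (true, nat_lit 24), (false, nat_lit 40), (true, nat_lit 136)]), (nat_lit 26, [(true, nat_lit 24), (false, nat_lit 40), (true, nat_lit 136)]), (nat_lit 33, [(false, nat_lit 32)]), (nat_lit 35, [(false, nat_lit 34), (true, nat_lit 130)]), (nat_lit 49, [(true, nat_lit 40), (false, nat_lit 48), (false, nat_lit 136), (true, nat_lit 144)]), (nat_lit 51, [(false, nat_lit 50), (true, nat_lit 146)]), (nat_lit 129, [(false, nat_lit 128)]), (nat_lit 152, [(true, nat_lit 40), (false, nat_lit 136)]), (nat_lit 161, [(true, nat_lit 130), (false, nat_lit 136), (true, nat_lit 144), (false, nat_lit 160)]), (nat_lit 162, [(true, nat_lit 130)]), (nat_lit 168, [(true, nat_lit 40)]), (nat_lit 176, [(true, nat_lit 40),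 (false, nat_lit 136), (true, nat_lit 144)]), (nat_lit 178, [(false, nat_lit 146)]), (nat_lit 184, [(false, nat_lit 56)])],
  [(nat_lit 4, [(false, nat_lit 0)]), (nat_lit 12, [(false, nat_lit 8)]), (nat_lit 20, [(false, nat_lit 16)]), (nat_lit 28, [(false, nat_lit 24)]), (nat_lit 36, [(false, nat_lit 32)]), (nat_lit 132, [(false, nat_lit 128)]), (nat_lit 140, [(true, nat_lit 40), (false, nat_lit 136)]), (nat_lit 148, [(true, nat_lit 48), (false, nat_lit 144)]), (nat_lit 156, [(true, nat_lit 56), (false, nat_lit 152)]), (nat_lit 164, [(false, nat_lit 40), (true, nat_lit 48), (false, nat_lit 160)]), (nat_lit 168, [(false, nat_lit 40)]), (nat_lit 176, [(false, nat_lit 48)]), (nat_lit 184, [(true, nat_lit 56)])],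
  [(nat_lit 1, [(false, nat_lit 0)]), (nat_lit 5, [(false, nat_lit 4)]), (nat_lit 9, [(false, nat_lit 8)]), (nat_lit 13, [(false, nat_lit 12), (true, nat_lit 24), (false, nat_lit 40), (true, nat_lit 136)]), (nat_lit 17, [(false, nat_lit 16)]), (nat_lit 33, [(false, nat_lit 32)]), (nat_lit 37, [(false, nat_lit 36)]), (nat_lit 49, [(false, nat_lit 20), (true, nat_lit 24), (false, nat_lit 48), (true, nat_lit 144)]), (nat_lit 129, [(false, nat_lit 128)]), (nat_lit 133, [(false, nat_lit 20), (true, nat_lit 24), (false, nat_lit 40), (false, nat_lit 132), (true, nat_lit 136)]), (nat_lit 140, [(true, nat_lit 24), (false, nat_lit 40), (true, nat_lit 136)]), (nat_lit 148, [(true, nat_lit 20)]), (nat_lit 152, [(true, nat_lit 24)]), (nat_lit 156, [(false, nat_lit 28)]), (nat_lit 161, [(false, nat_lit 20), (true, nat_lit 24), (false, nat_lit 40), (true, nat_lit 144), (false, nat_lit 160)]), (nat_lit 165, [(false, nat_lit 164)]), (nat_lit 168, [(true, nat_lit 40)]), (nat_lit 176, [(false,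 nat_lit 20), (true, nat_lit 24), (true, nat_lit 144)]), (nat_lit 184, [(false, nat_lit 56)])],
  [(nat_lit 2, [(false, nat_lit 0)]), (nat_lit 6, [(false, nat_lit 4)]), (nat_lit 10, [(false, nat_lit 8)]), (nat_lit 14, [(false, nat_lit 12)]), (nat_lit 18, [(false, nat_lit 16)]), (nat_lit 22, [(false, nat_lit 20)]), (nat_lit 26, [(false, nat_lit 24), (true, nat_lit 40), (false, nat_lit 136)]), (nat_lit 30, [(false, nat_lit 28), (false, nat_lit 140)]), (nat_lit 34, [(false, nat_lit 32)]), (nat_lit 38, [(false, nat_lit 36)]), (nat_lit 50, [(false, nat_lit 48)]), (nat_lit 130, [(false, nat_lit 128)]), (nat_lit 134, [(false, nat_lit 132)]), (nat_lit 146, [(false, nat_lit 40), (true, nat_lit 136), (false, nat_lit 144)]), (nat_lit 150, [(true, nat_lit 140), (false, nat_lit 148)]), (nat_lit 152, [(true, nat_lit 40), (false, nat_lit 136)]), (nat_lit 156, [(true, nat_lit 140)]), (nat_lit 162, [(false, nat_lit 40), (false, nat_lit 160)]), (nat_lit 166, [(false, nat_lit 164)]), (nat_lit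 168, [(true, nat_lit 40)]), (nat_lit 178, [(true, nat_lit 56), (false, nat_lit 176)]), (nat_lit 184, [(false, nat_lit 56)])],
  [(nat_lit 1, [(false, nat_lit 0)]), (nat_lit 3, [(false, nat_lit 2)]), (nat_lit 5, [(false, nat_lit 4)]), (nat_lit 7, [(false, nat_lit 6), (false, nat_lit 130)]), (nat_lit 9, [(false, nat_lit 8)]), (nat_lit 11, [(false, nat_lit 10)]), (nat_lit 13, [(false, nat_lit 12), (true, nat_lit 24), (false, nat_lit 40), (true, nat_lit 136)]), (nat_lit 15, [(false, nat_lit 14), (true, nat_lit 26)]), (nat_lit 17, [(false, nat_lit 16)]), (nat_lit 19, [(false, nat_lit 18)]), (nat_lit 28, [(false, nat_lit 24), (true, nat_lit 40), (false, nat_lit 136)]), (nat_lit 30, [(true, nat_lit 26)]), (nat_lit 33, [(false, nat_lit 32)]), (nat_lit 35, [(false, nat_lit 34)]), (nat_lit 37, [(false, nat_lit 36)]), (nat_lit 39, [(true, nat_lit 22), (false, nat_lit 26), (false, nat_lit 38), (false, nat_lit 146), (true, nat_lit 162)]), (nat_lit 49, [(false, nat_lit 20), (true, nat_lit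 24), (false, nat_lit 48), (true, nat_lit 144)]), (nat_lit 51, [(false, nat_lit 22), (true, nat_lit 26), (false, nat_lit 50), (true, nat_lit 146)]), (nat_lit 129, [(false, nat_lit 128)]), (nat_lit 133, [(false, nat_lit 20), (true, nat_lit 24), (false, nat_lit 40), (true, nat_lit 130), (false, nat_lit 132), (true, nat_lit 136)]), (nat_lit 134, [(true, nat_lit 130)]), (nat_lit 148, [(false, nat_lit 20), (true, nat_lit 24), (false, nat_lit 40), (true, nat_lit 136)]), (nat_lit 150, [(true, nat_lit 22), (false, nat_lit 26)]), (nat_lit 152, [(false, nat_lit 40), (true, nat_lit 136)]), (nat_lit 156, [(false, nat_lit 140)]), (nat_lit 161, [(false, nat_lit 20), (true, nat_lit 24), (false, nat_lit 40), (true, nat_lit 144), (false, nat_lit 160)]), (nat_lit 165, [(true, nat_lit 22), (false, nat_lit 26), (false, nat_lit 146), (true, nat_lit 162), (false, nat_lit 164)]), (nat_lit 166, [(true, nat_lit 22), (false, nat_lit 26), (false, nat_lit 146), (true, nat_lit 162)]), (nat_lit 168, [(false,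 nat_lit 40)]), (nat_lit 176, [(true, nat_lit 20), (false, nat_lit 24), (false, nat_lit 144)]), (nat_lit 178, [(false, nat_lit 22), (true, nat_lit 26), (true, nat_lit 146)]), (nat_lit 184, [(true, nat_lit 56)])],
  [(nat_lit 64, [(false, nat_lit 0)]), (nat_lit 192, [(false, nat_lit 128)])],
  [(nat_lit 1, [(false, nat_lit 0)]), (nat_lit 65, [(false, nat_lit 64)]), (nat_lit 129, [(false, nat_lit 128)]), (nat_lit 193, [(false, nat_lit 192)])],
  [(nat_lit 2, [(false, nat_lit 0)]), (nat_lit 66, [(false, nat_lit 64)]), (nat_lit 130, [(false, nat_lit 128)])],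
  [(nat_lit 1, [(false, nat_lit 0)]), (nat_lit 3, [(false, nat_lit 2)]), (nat_lit 65, [(false, nat_lit 64)]), (nat_lit 67, [(false, nat_lit 66)]), (nat_lit 129, [(false, nat_lit 128)]), (nat_lit 193, [(false, nat_lit 192)])],
  [(nat_lit 4, [(false, nat_lit 0)]), (nat_lit 68, [(false, nat_lit 64)]), (nat_lit 132, [(false, nat_lit 128)]), (nat_lit 196, [(false, nat_lit 192)])],
  [(nat_lit 1, [(false, nat_lit 0)]), (nat_lit 5, [(false, nat_lit 4)]), (nat_lit 65, [(false, nat_lit 64)]), (nat_lit 69, [(false, nat_lit 68)]), (nat_lit 129, [(false, nat_lit 128)]), (nat_lit 133, [(false, nat_lit 132)]), (nat_lit 193, [(false, nat_lit 192)]), (nat_lit 197, [(false, nat_lit 196)])],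
  [(nat_lit 2, [(false, nat_lit 0)]), (nat_lit 6, [(false, nat_lit 4)]), (nat_lit 66, [(false, nat_lit 64)]), (nat_lit 130, [(false, nat_lit 128)]), (nat_lit 134, [(true, nat_lit 68), (false, nat_lit 132)]), (nat_lit 196, [(true, nat_lit 68)])],
  [(nat_lit 1, [(false, nat_lit 0)]), (nat_lit 3, [(false, nat_lit 2)]), (nat_lit 5, [(false, nat_lit 4)]), (nat_lit 7, [(false, nat_lit 6), (false, nat_lit 130)]), (nat_lit 65, [(false, nat_lit 64)]), (nat_lit 67, [(false, nat_lit 66)]), (nat_lit 69, [(false, nat_lit 68)]), (nat_lit 129, [(false, nat_lit 128)]), (nat_lit 133, [(true, nat_lit 130), (false, nat_lit 132)]), (nat_lit 134, [(true, nat_lit 130)]), (nat_lit 193, [(false, nat_lit 192)]), (nat_lit 197, [(false, nat_lit 196)])],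
  [(nat_lit 8, [(false, nat_lit 0)]), (nat_lit 72, [(false, nat_lit 64)]), (nat_lit 136, [(false, nat_lit 128)]), (nat_lit 200, [(false, nat_lit 192)])],
  [(nat_lit 1, [(false, nat_lit 0)]), (nat_lit 9, [(false, nat_lit 8)]), (nat_lit 65, [(false, nat_lit 64)]), (nat_lit 73, [(false, nat_lit 72), (true, nat_lit 136)]), (nat_lit 129, [(false, nat_lit 128)]), (nat_lit 193, [(true, nat_lit 136), (false, nat_lit 192)]), (nat_lit 200, [(true, nat_lit 136)])],
  [(nat_lit 2, [(false, nat_lit 0)]), (nat_lit 10, [(false, nat_lit 8)]), (nat_lit 66, [(false, nat_lit 64)]), (nat_lit 74, [(false, nat_lit 72), (true, nat_lit 136)]), (nat_lit 130, [(false, nat_lit 128)]), (nat_lit 200, [(true, nat_lit 136)])],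
  [(nat_lit 1, [(false, nat_lit 0)]), (nat_lit 3, [(false, nat_lit 2)]), (nat_lit 9, [(false, nat_lit 8)]), (nat_lit 11, [(false, nat_lit 10)]), (nat_lit 65, [(false, nat_lit 64)]), (nat_lit 67, [(false, nat_lit 66)]), (nat_lit 73, [(false, nat_lit 72), (true, nat_lit 136)]), (nat_lit 75, [(false, nat_lit 74)]), (nat_lit 129, [(false, nat_lit 128)]), (nat_lit 193, [(true, nat_lit 136), (false, nat_lit 192)]), (nat_lit 200, [(false, nat_lit 136)])],
  [(nat_lit 4, [(false, nat_lit 0)]), (nat_lit 12, [(false, nat_lit 8)]), (nat_lit 68, [(false, nat_lit 64)]), (nat_lit 76, [(false, nat_lit 72)]), (nat_lit 132, [(false, nat_lit 128)]), (nat_lit 140, [(false, nat_lit 136)]), (nat_lit 196, [(false, nat_lit 192)]), (nat_lit 204, [(false, nat_lit 200)])],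
  [(nat_lit 1, [(false, nat_lit 0)]), (nat_lit 5, [(false, nat_lit 4)]), (nat_lit 9, [(false, nat_lit 8)]), (nat_lit 13, [(false, nat_lit 12), (false, nat_lit 136)]), (nat_lit 65, [(false, nat_lit 64)]), (nat_lit 69, [(false, nat_lit 68)]), (nat_lit 73, [(false, nat_lit 72)]), (nat_lit 77, [(false, nat_lit 76), (true, nat_lit 200)]), (nat_lit 129, [(false, nat_lit 128)]), (nat_lit 133, [(false, nat_lit 132), (true, nat_lit 136)]), (nat_lit 140, [(true, nat_lit 136)]), (nat_lit 193, [(false, nat_lit 192)]), (nat_lit 197, [(false, nat_lit 196), (true, nat_lit 200)]), (nat_lit 204, [(true, nat_lit 200)])],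
  [(nat_lit 2, [(false, nat_lit 0)]), (nat_lit 6, [(false, nat_lit 4)]), (nat_lit 10, [(false, nat_lit 8)]), (nat_lit 14, [(false, nat_lit 12), (true, nat_lit 68), (false, nat_lit 136), (true, nat_lit 192)]), (nat_lit 66, [(false, nat_lit 64)]), (nat_lit 74, [(true, nat_lit 68), (false, nat_lit 72), (true, nat_lit 192)]), (nat_lit 130, [(false, nat_lit 128)]), (nat_lit 134, [(false, nat_lit 132), (true, nat_lit 136), (false, nat_lit 192)]), (nat_lit 140, [(false, nat_lit 68), (true, nat_lit 136), (false, nat_lit 192)]), (nat_lit 196, [(false, nat_lit 68)]), (nat_lit 200, [(false, nat_lit 68), (false, nat_lit 192)]), (nat_lit 204, [(true, nat_lit 76)])],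
  [(nat_lit 1, [(false, nat_lit 0)]), (nat_lit 3, [(false, nat_lit 2)]), (nat_lit 5, [(false, nat_lit 4)]), (nat_lit 7, [(false, nat_lit 6), (true, nat_lit 130)]), (nat_lit 9, [(false, nat_lit 8)]), (nat_lit 11, [(false, nat_lit 10)]), (nat_lit 13, [(false, nat_lit 12), (false, nat_lit 136)]), (nat_lit 15, [(false, nat_lit 14)]), (nat_lit 65, [(false, nat_lit 64)]), (nat_lit 67, [(false, nat_lit 66)]), (nat_lit 69, [(false, nat_lit 68)]), (nat_lit 73, [(false, nat_lit 72)]), (nat_lit 75, [(false, nat_lit 74)]), (nat_lit 77, [(false, nat_lit 76), (true, nat_lit 200)]), (nat_lit 129, [(false, nat_lit 128)]), (nat_lit 133, [(true, nat_lit 130), (false, nat_lit 132), (true, nat_lit 136)]), (nat_lit 134, [(true, nat_lit 130)]), (nat_lit 140, [(false, nat_lit 136)]), (nat_lit 193, [(false, nat_lit 192)]), (nat_lit 197, [(false, nat_lit 196), (true, nat_lit 200)]), (nat_lit 204, [(false, nat_lit 200)])],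
  [(nat_lit 16, [(false, nat_lit 0)]), (nat_lit 80, [(false, nat_lit 64)]), (nat_lit 144, [(false, nat_lit 128)])],
  [(nat_lit 1, [(false, nat_lit 0)]), (nat_lit 17, [(false, nat_lit 16)]), (nat_lit 65, [(false, nat_lit 64)]), (nat_lit 81, [(false, nat_lit 80)]), (nat_lit 129, [(false, nat_lit 128)]), (nat_lit 193, [(false, nat_lit 192)])],
  [(nat_lit 2, [(false, nat_lit 0)]), (nat_lit 18, [(false, nat_lit 16)]), (nat_lit 66, [(false, nat_lit 64)]), (nat_lit 82, [(false, nat_lit 80)]), (nat_lit 130, [(false, nat_lit 128)]), (nat_lit 146, [(false, nat_lit 144)])],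
  [(nat_lit 1, [(false, nat_lit 0)]), (nat_lit 3, [(false, nat_lit 2)]), (nat_lit 17, [(false, nat_lit 16)]), (nat_lit 19, [(false, nat_lit 18), (false, nat_lit 130)]), (nat_lit 65, [(false, nat_lit 64)]), (nat_lit 67, [(false, nat_lit 66)]), (nat_lit 81, [(false, nat_lit 80)]), (nat_lit 83, [(false, nat_lit 82)]), (nat_lit 129, [(false, nat_lit 128)]), (nat_lit 146, [(true, nat_lit 130)]), (nat_lit 193, [(false, nat_lit 192)])],
  [(nat_lit 4, [(false, nat_lit 0)]), (nat_lit 20, [(false, nat_lit 16)]), (nat_lit 68, [(false, nat_lit 64)]), (nat_lit 132, [(false, nat_lit 128)]), (nat_lit 148, [(false, nat_lit 144)]), (nat_lit 196, [(false, nat_lit 192)])],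
  [(nat_lit 1, [(false, nat_lit 0)]), (nat_lit 5, [(false, nat_lit 4)]), (nat_lit 17, [(false, nat_lit 16)]), (nat_lit 65, [(false, nat_lit 64)]), (nat_lit 69, [(true, nat_lit 20), (false, nat_lit 68), (true, nat_lit 132)]), (nat_lit 81, [(false, nat_lit 80)]), (nat_lit 129, [(false, nat_lit 128)]), (nat_lit 148, [(false, nat_lit 20)]), (nat_lit 193, [(false, nat_lit 20), (false, nat_lit 132), (false, nat_lit 192)]), (nat_lit 196, [(false, nat_lit 20), (false, nat_lit 132)]), (nat_lit 197, [(true, nat_lit 133)])],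
  [(nat_lit 2, [(false, nat_lit 0)]), (nat_lit 6, [(false, nat_lit 4)]), (nat_lit 18, [(false, nat_lit 16)]), (nat_lit 22, [(false, nat_lit 20), (true, nat_lit 68), (false, nat_lit 132)]), (nat_lit 66, [(false, nat_lit 64)]), (nat_lit 82, [(false, nat_lit 80)]), (nat_lit 130, [(false, nat_lit 128)]), (nat_lit 146, [(false, nat_lit 68), (true, nat_lit 132), (false, nat_lit 144)]), (nat_lit 148, [(false, nat_lit 68), (true, nat_lit 132)]), (nat_lit 150, [(false, nat_lit 134)]), (nat_lit 196, [(false, nat_lit 68)])],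
  [(nat_lit 1, [(false, nat_lit 0)]), (nat_lit 3, [(false, nat_lit 2)]), (nat_lit 5, [(false, nat_lit 4)]), (nat_lit 7, [(false, nat_lit 6), (true, nat_lit 20), (true, nat_lit 130), (true, nat_lit 144)]), (nat_lit 17, [(false, nat_lit 16)]), (nat_lit 19, [(false, nat_lit 18), (true, nat_lit 20), (true, nat_lit 144)]), (nat_lit 65, [(false, nat_lit 64)]), (nat_lit 67, [(false, nat_lit 66)]), (nat_lit 69, [(false, nat_lit 68)]), (nat_lit 81, [(false, nat_lit 80)]), (nat_lit 83, [(false, nat_lit 82)]), (nat_lit 129, [(false, nat_lit 128)]), (nat_lit 133, [(true, nat_lit 130), (false, nat_lit 132), (true, nat_lit 144)]), (nat_lit 134, [(true, nat_lit 20), (true, nat_lit 130), (true, nat_lit 144)]), (nat_lit 146, [(true, nat_lit 20), (true, nat_lit 144)]), (nat_lit 148, [(true, nat_lit 20)]), (nat_lit 150, [(false, nat_lit 22)]), (nat_lit 193, [(false, nat_lit 192)]), (nat_lit 197, [(false, nat_lit 196)])],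
  [(nat_lit 8, [(false, nat_lit 0)]), (nat_lit 24, [(false, nat_lit 16)]), (nat_lit 72, [(false, nat_lit 64)]), (nat_lit 88, [(false, nat_lit 80)]), (nat_lit 136, [(false, nat_lit 128)]), (nat_lit 152, [(false, nat_lit 144)]), (nat_lit 200, [(false, nat_lit 192)])],
  [(nat_lit 1, [(false, nat_lit 0)]), (nat_lit 9, [(false, nat_lit 8)]), (nat_lit 17, [(false, nat_lit 16)]), (nat_lit 65, [(false, nat_lit 64)]), (nat_lit 73, [(true, nat_lit 24), (false, nat_lit 72), (true, nat_lit 136)]), (nat_lit 81, [(true, nat_lit 24), (false, nat_lit 80), (true, nat_lit 144)]), (nat_lit 88, [(true, nat_lit 24), (true, nat_lit 144)]), (nat_lit 129, [(false, nat_lit 128)]), (nat_lit 152, [(true, nat_lit 144)]), (nat_lit 193, [(false, nat_lit 136), (true, nat_lit 144), (false, nat_lit 192)]), (nat_lit 200, [(false, nat_lit 136), (true, nat_lit 144)])],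
  [(nat_lit 2, [(false, nat_lit 0)]), (nat_lit 10, [(false, nat_lit 8)]), (nat_lit 18, [(false, nat_lit 16)]), (nat_lit 26, [(false, nat_lit 24), (false, nat_lit 136), (false, nat_lit 192)]), (nat_lit 66, [(false, nat_lit 64)]), (nat_lit 74, [(false, nat_lit 72), (false, nat_lit 192)]), (nat_lit 82, [(false, nat_lit 80)]), (nat_lit 90, [(false, nat_lit 88)]), (nat_lit 130, [(false, nat_lit 128)]), (nat_lit 146, [(true, nat_lit 136), (false, nat_lit 144), (true, nat_lit 192)]), (nat_lit 152, [(true, nat_lit 136), (true, nat_lit 192)]), (nat_lit 200, [(true, nat_lit 192)])],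
  [(nat_lit 1, [(false, nat_lit 0)]), (nat_lit 3, [(false, nat_lit 2)]), (nat_lit 9, [(false, nat_lit 8)]), (nat_lit 11, [(false, nat_lit 10)]), (nat_lit 17, [(false, nat_lit 16)]), (nat_lit 19, [(false, nat_lit 18), (false, nat_lit 130)]), (nat_lit 65, [(false, nat_lit 64)]), (nat_lit 67, [(false, nat_lit 66)]), (nat_lit 73, [(true, nat_lit 24), (false, nat_lit 72), (true, nat_lit 136)]), (nat_lit 75, [(true, nat_lit 26), (false, nat_lit 74)]), (nat_lit 81, [(true, nat_lit 24), (false, nat_lit 80), (true, nat_lit 130), (true, nat_lit 144)]), (nat_lit 83, [(true, nat_lit 26), (false, nat_lit 82)]), (nat_lit 88, [(false, nat_lit 24), (false, nat_lit 130), (false, nat_lit 144)]), (nat_lit 90, [(true, nat_lit 26)]), (nat_lit 129, [(false, nat_lit 128)]), (nat_lit 146, [(false, nat_lit 130)]), (nat_lit 152, [(false, nat_lit 130), (false, nat_lit 144)]), (nat_lit 193, [(true, nat_lit 130), (false, nat_lit 136), (true, nat_lit 144), (false, nat_lit 192)]), (nat_lit 200, [(false,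 nat_lit 130), (true, nat_lit 136), (false, nat_lit 144)])],
  [(nat_lit 4, [(false, nat_lit 0)]), (nat_lit 12, [(false, nat_lit 8)]), (nat_lit 20, [(false, nat_lit 16)]), (nat_lit 28, [(false, nat_lit 24), (true, nat_lit 80)]), (nat_lit 68, [(false, nat_lit 64)]), (nat_lit 76, [(false, nat_lit 72), (true, nat_lit 80)]), (nat_lit 88, [(true, nat_lit 80)]), (nat_lit 132, [(false, nat_lit 128)]), (nat_lit 140, [(false, nat_lit 136)]), (nat_lit 148, [(false, nat_lit 144)]), (nat_lit 156, [(false, nat_lit 152)]), (nat_lit 196, [(false, nat_lit 192)]), (nat_lit 204, [(false, nat_lit 200)])],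
  [(nat_lit 1, [(false, nat_lit 0)]), (nat_lit 5, [(false, nat_lit 4)]), (nat_lit 9, [(false, nat_lit 8)]), (nat_lit 13, [(false, nat_lit 12), (true, nat_lit 20), (true, nat_lit 136), (false, nat_lit 144)]), (nat_lit 17, [(false, nat_lit 16)]), (nat_lit 65, [(false, nat_lit 64)]), (nat_lit 69, [(false, nat_lit 68)]), (nat_lit 73, [(false, nat_lit 20), (true, nat_lit 24), (false, nat_lit 72), (true, nat_lit 144)]), (nat_lit 77, [(false, nat_lit 76), (false, nat_lit 200)]), (nat_lit 81, [(false, nat_lit 20), (true, nat_lit 24), (false, nat_lit 80), (true, nat_lit 144)]), (nat_lit 88, [(true, nat_lit 20), (false, nat_lit 24), (false, nat_lit 144)]), (nat_lit 129, [(false, nat_lit 128)]), (nat_lit 133, [(false, nat_lit 132), (true, nat_lit 136), (false, nat_lit 144)]), (nat_lit 140, [(true, nat_lit 20), (true, nat_lit 136), (false, nat_lit 144)]), (nat_lit 148, [(true, nat_lit 20)]), (nat_lit 152, [(true, nat_lit 20), (false, nat_lit 144)]), (nat_lit 156, [(false, nat_lit 28)]),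 (nat_lit 193, [(false, nat_lit 192)]), (nat_lit 197, [(false, nat_lit 196), (true, nat_lit 200)]), (nat_lit 204, [(true, nat_lit 200)])],
  [(nat_lit 2, [(false, nat_lit 0)]), (nat_lit 6, [(false, nat_lit 4)]), (nat_lit 10, [(false, nat_lit 8)]), (nat_lit 14, [(false, nat_lit 12), (false, nat_lit 68), (true, nat_lit 136), (true, nat_lit 192)]), (nat_lit 18, [(false, nat_lit 16)]), (nat_lit 22, [(false, nat_lit 20)]), (nat_lit 26, [(false, nat_lit 24)]), (nat_lit 30, [(false, nat_lit 28), (false, nat_lit 152)]), (nat_lit 66, [(false, nat_lit 64)]), (nat_lit 74, [(true, nat_lit 68), (false, nat_lit 72), (false, nat_lit 192)]), (nat_lit 82, [(false, nat_lit 80)]), (nat_lit 90, [(false, nat_lit 88)]), (nat_lit 130, [(false, nat_lit 128)]), (nat_lit 134, [(false, nat_lit 132), (true, nat_lit 136), (true, nat_lit 192)]), (nat_lit 140, [(false, nat_lit 68), (true, nat_lit 136), (true, nat_lit 192)]), (nat_lit 146, [(false, nat_lit 144)]), (nat_lit 150, [(false, nat_lit 148), (true,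 nat_lit 152)]), (nat_lit 156, [(true, nat_lit 152)]), (nat_lit 196, [(true, nat_lit 68)]), (nat_lit 200, [(true, nat_lit 68), (false, nat_lit 192)]), (nat_lit 204, [(false, nat_lit 76)])],
  [(nat_lit 1, [(false, nat_lit 0)]), (nat_lit 3, [(false, nat_lit 2)]), (nat_lit 5, [(false, nat_lit 4)]), (nat_lit 7, [(false, nat_lit 6), (false, nat_lit 20), (false, nat_lit 130), (true, nat_lit 144)]), (nat_lit 9, [(false, nat_lit 8)]), (nat_lit 11, [(false, nat_lit 10), (false, nat_lit 24)]), (nat_lit 13, [(false, nat_lit 12), (true, nat_lit 136)]), (nat_lit 15, [(false, nat_lit 14), (true, nat_lit 28), (true, nat_lit 152)]), (nat_lit 17, [(false, nat_lit 16)]), (nat_lit 19, [(false, nat_lit 18), (true, nat_lit 20), (false, nat_lit 24), (false, nat_lit 144)]), (nat_lit 22, [(true, nat_lit 20), (true, nat_lit 130), (false, nat_lit 144)]), (nat_lit 26, [(true, nat_lit 24)]), (nat_lit 30, [(true, nat_lit 28), (true, nat_lit 152)]), (nat_lit 65, [(false, nat_lit 64)]), (nat_lit 67, [(false,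 nat_lit 66)]), (nat_lit 69, [(false, nat_lit 68)]), (nat_lit 73, [(false, nat_lit 72)]), (nat_lit 75, [(false, nat_lit 74), (false, nat_lit 88)]), (nat_lit 77, [(false, nat_lit 76), (false, nat_lit 200)]), (nat_lit 81, [(false, nat_lit 80)]), (nat_lit 83, [(false, nat_lit 82), (false, nat_lit 88)]), (nat_lit 90, [(true, nat_lit 88)]), (nat_lit 129, [(false, nat_lit 128)]), (nat_lit 133, [(true, nat_lit 130), (false, nat_lit 132), (true, nat_lit 136), (false, nat_lit 144)]), (nat_lit 140, [(false, nat_lit 136)]), (nat_lit 146, [(true, nat_lit 130)]), (nat_lit 148, [(true, nat_lit 130), (false, nat_lit 144)]), (nat_lit 150, [(false, nat_lit 134)]), (nat_lit 156, [(false, nat_lit 152)]), (nat_lit 193, [(false, nat_lit 192)]), (nat_lit 197, [(false, nat_lit 196), (true, nat_lit 200)]), (nat_lit 204, [(false, nat_lit 200)])],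
  [(nat_lit 32, [(false, nat_lit 0)]), (nat_lit 96, [(false, nat_lit 64)]), (nat_lit 160, [(false, nat_lit 128)]), (nat_lit 224, [(false, nat_lit 192)])],
  [(nat_lit 1, [(false, nat_lit 0)]), (nat_lit 33, [(false, nat_lit 32)]), (nat_lit 65, [(false, nat_lit 64)]), (nat_lit 97, [(false, nat_lit 96)]), (nat_lit 129, [(false, nat_lit 128)]), (nat_lit 161, [(false, nat_lit 160)]), (nat_lit 193, [(false, nat_lit 192)]), (nat_lit 225, [(false, nat_lit 224)])],
  [(nat_lit 2, [(false, nat_lit 0)]), (nat_lit 34, [(false, nat_lit 32)]), (nat_lit 66, [(false, nat_lit 64)]), (nat_lit 130, [(false, nat_lit 128)]), (nat_lit 162, [(true, nat_lit 96), (false, nat_lit 160)]), (nat_lit 224, [(true, nat_lit 96)])],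
  [(nat_lit 1, [(false, nat_lit 0)]), (nat_lit 3, [(false, nat_lit 2)]), (nat_lit 33, [(false, nat_lit 32)]), (nat_lit 35, [(false, nat_lit 34), (false, nat_lit 130)]), (nat_lit 65, [(false, nat_lit 64)]), (nat_lit 67, [(false, nat_lit 66)]), (nat_lit 97, [(false, nat_lit 96)]), (nat_lit 129, [(false, nat_lit 128)]), (nat_lit 161, [(true, nat_lit 130), (false, nat_lit 160)]), (nat_lit 162, [(true, nat_lit 130)]), (nat_lit 193, [(false, nat_lit 192)]), (nat_lit 225, [(false, nat_lit 224)])],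
  [(nat_lit 4, [(false, nat_lit 0)]), (nat_lit 36, [(false, nat_lit 32)]), (nat_lit 68, [(false, nat_lit 64)]), (nat_lit 132, [(false, nat_lit 128)]), (nat_lit 164, [(true, nat_lit 96), (false, nat_lit 160)]), (nat_lit 196, [(true, nat_lit 96), (false, nat_lit 192)]), (nat_lit 224, [(true, nat_lit 96)])],
  [(nat_lit 1, [(false, nat_lit 0)]), (nat_lit 5, [(false, nat_lit 4)]), (nat_lit 33, [(false, nat_lit 32)]), (nat_lit 37, [(false, nat_lit 36)]), (nat_lit 65, [(false, nat_lit 64)]), (nat_lit 69, [(false, nat_lit 68)]), (nat_lit 97, [(false, nat_lit 96)]), (nat_lit 129, [(false, nat_lit 128)]), (nat_lit 133, [(false, nat_lit 132)]), (nat_lit 161, [(false, nat_lit 160)]), (nat_lit 165, [(false, nat_lit 164)]), (nat_lit 193, [(false, nat_lit 192)]), (nat_lit 197, [(false, nat_lit 196)]), (nat_lit 225, [(false, nat_lit 224)])],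
  [(nat_lit 2, [(false, nat_lit 0)]), (nat_lit 6, [(false, nat_lit 4)]), (nat_lit 34, [(false, nat_lit 32)]), (nat_lit 38, [(false, nat_lit 36), (true, nat_lit 68), (false, nat_lit 132)]), (nat_lit 66, [(false, nat_lit 64)]), (nat_lit 130, [(false, nat_lit 128)]), (nat_lit 162, [(false, nat_lit 68), (true, nat_lit 96), (true, nat_lit 132), (false, nat_lit 160)]), (nat_lit 164, [(false, nat_lit 68), (true, nat_lit 132)]), (nat_lit 166, [(false, nat_lit 134)]), (nat_lit 196, [(false, nat_lit 68)]), (nat_lit 224, [(false, nat_lit 96)])],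
  [(nat_lit 1, [(false, nat_lit 0)]), (nat_lit 3, [(false, nat_lit 2)]), (nat_lit 5, [(false, nat_lit 4)]), (nat_lit 7, [(false, nat_lit 6), (true, nat_lit 130)]), (nat_lit 33, [(false, nat_lit 32)]), (nat_lit 35, [(false, nat_lit 34)]), (nat_lit 37, [(false, nat_lit 36)]), (nat_lit 39, [(false, nat_lit 38), (false, nat_lit 162)]), (nat_lit 65, [(false, nat_lit 64)]), (nat_lit 67, [(false, nat_lit 66)]), (nat_lit 69, [(false, nat_lit 68)]), (nat_lit 97, [(false, nat_lit 96)]), (nat_lit 129, [(false, nat_lit 128)]), (nat_lit 133, [(true, nat_lit 130), (false, nat_lit 132)]), (nat_lit 134, [(true, nat_lit 130)]), (nat_lit 161, [(false, nat_lit 160)]), (nat_lit 165, [(true, nat_lit 162), (false, nat_lit 164)]), (nat_lit 166, [(true, nat_lit 162)]), (nat_lit 193, [(false, nat_lit 192)]), (nat_lit 197, [(false, nat_lit 196)]), (nat_lit 225, [(false, nat_lit 224)])],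
  [(nat_lit 8, [(false, nat_lit 0)]), (nat_lit 40, [(false, nat_lit 32)]), (nat_lit 72, [(false, nat_lit 64)]), (nat_lit 104, [(false, nat_lit 96)]), (nat_lit 136, [(false, nat_lit 128)]), (nat_lit 168, [(false, nat_lit 160)]), (nat_lit 200, [(false, nat_lit 192)]), (nat_lit 232, [(false, nat_lit 224)])],
  [(nat_lit 1, [(false, nat_lit 0)]), (nat_lit 9, [(false, nat_lit 8)]), (nat_lit 33, [(false, nat_lit 32)]), (nat_lit 65, [(false, nat_lit 64)]), (nat_lit 73, [(true, nat_lit 40), (false, nat_lit 72), (true, nat_lit 136)]), (nat_lit 97, [(false, nat_lit 96)]), (nat_lit 129, [(false, nat_lit 128)]), (nat_lit 161, [(false, nat_lit 40), (false, nat_lit 160)]), (nat_lit 168, [(false, nat_lit 40)]), (nat_lit 193, [(false, nat_lit 40), (false, nat_lit 136), (false, nat_lit 192)]), (nat_lit 200, [(false, nat_lit 40), (false, nat_lit 136)]), (nat_lit 225, [(true, nat_lit 104), (false, nat_lit 224)]), (nat_lit 232, [(true, nat_lit 104)])],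
  [(nat_lit 2, [(false, nat_lit 0)]), (nat_lit 10, [(false, nat_lit 8)]), (nat_lit 34, [(false, nat_lit 32)]), (nat_lit 66, [(false, nat_lit 64)]), (nat_lit 74, [(true, nat_lit 40), (false, nat_lit 72), (true, nat_lit 136)]), (nat_lit 130, [(false, nat_lit 128)]), (nat_lit 162, [(false, nat_lit 40), (true, nat_lit 96), (false, nat_lit 160)]), (nat_lit 168, [(false, nat_lit 40)]), (nat_lit 200, [(false, nat_lit 40), (false, nat_lit 136)]), (nat_lit 224, [(false, nat_lit 96)]), (nat_lit 232, [(true, nat_lit 104)])],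
  [(nat_lit 1, [(false, nat_lit 0)]), (nat_lit 3, [(false, nat_lit 2)]), (nat_lit 9, [(false, nat_lit 8)]), (nat_lit 11, [(false, nat_lit 10)]), (nat_lit 33, [(false, nat_lit 32)]), (nat_lit 35, [(false, nat_lit 34), (false, nat_lit 130)]), (nat_lit 65, [(false, nat_lit 64)]), (nat_lit 67, [(false, nat_lit 66)]), (nat_lit 73, [(true, nat_lit 40), (false, nat_lit 72), (true, nat_lit 136)]), (nat_lit 75, [(false, nat_lit 74)]), (nat_lit 97, [(false, nat_lit 96)]), (nat_lit 129, [(false, nat_lit 128)]), (nat_lit 161, [(false, nat_lit 40), (false, nat_lit 130), (false, nat_lit 160)]), (nat_lit 162, [(false, nat_lit 130)]), (nat_lit 168, [(true, nat_lit 40)]), (nat_lit 193, [(false, nat_lit 40), (false, nat_lit 136), (false, nat_lit 192)]), (nat_lit 200, [(true, nat_lit 40), (true, nat_lit 136)]), (nat_lit 225, [(true, nat_lit 104), (false, nat_lit 224)]), (nat_lit 232, [(false, nat_lit 104)])],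
  [(nat_lit 4, [(false, nat_lit 0)]), (nat_lit 12, [(false, nat_lit 8)]), (nat_lit 36, [(false, nat_lit 32)]), (nat_lit 68, [(false, nat_lit 64)]), (nat_lit 76, [(false, nat_lit 72)]), (nat_lit 132, [(false, nat_lit 128)]), (nat_lit 140, [(false, nat_lit 40), (false, nat_lit 136)]), (nat_lit 164, [(false, nat_lit 40), (true, nat_lit 96), (false, nat_lit 160)]), (nat_lit 168, [(false, nat_lit 40)]), (nat_lit 196, [(true, nat_lit 96), (false, nat_lit 192)]), (nat_lit 204, [(true, nat_lit 104), (false, nat_lit 200)]), (nat_lit 224, [(false, nat_lit 96)]), (nat_lit 232, [(true, nat_lit 104)])],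
  [(nat_lit 1, [(false, nat_lit 0)]), (nat_lit 5, [(false, nat_lit 4)]), (nat_lit 9, [(false, nat_lit 8)]), (nat_lit 13, [(false, nat_lit 12)]), (nat_lit 33, [(false, nat_lit 32)]), (nat_lit 37, [(false, nat_lit 36)]), (nat_lit 65, [(false, nat_lit 64)]), (nat_lit 69, [(false, nat_lit 68)]), (nat_lit 73, [(true, nat_lit 40), (false, nat_lit 72), (true, nat_lit 136)]), (nat_lit 77, [(false, nat_lit 76), (true, nat_lit 140)]), (nat_lit 97, [(false, nat_lit 96)]), (nat_lit 129, [(false, nat_lit 128)]), (nat_lit 133, [(false, nat_lit 132)]), (nat_lit 161, [(false, nat_lit 40), (false, nat_lit 160)]), (nat_lit 165, [(false, nat_lit 164)]), (nat_lit 168, [(true, nat_lit 40)]), (nat_lit 193, [(false, nat_lit 40), (false, nat_lit 136), (false, nat_lit 192)]), (nat_lit 197, [(false, nat_lit 140), (false, nat_lit 196)]), (nat_lit 200, [(true, nat_lit 40), (true, nat_lit 136)]), (nat_lit 204, [(false, nat_lit 140)]), (nat_lit 225, [(true, nat_lit 104), (false, nat_lit 224)]), (nat_lit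 232, [(false, nat_lit 104)])],
  [(nat_lit 2, [(false, nat_lit 0)]), (nat_lit 6, [(false, nat_lit 4)]), (nat_lit 10, [(false, nat_lit 8)]), (nat_lit 14, [(false, nat_lit 12), (true, nat_lit 40), (false, nat_lit 68), (false, nat_lit 96), (true, nat_lit 136), (true, nat_lit 192)]), (nat_lit 34, [(false, nat_lit 32)]), (nat_lit 38, [(false, nat_lit 36)]), (nat_lit 66, [(false, nat_lit 64)]), (nat_lit 74, [(true, nat_lit 68), (false, nat_lit 72), (true, nat_lit 96), (false, nat_lit 192)]), (nat_lit 130, [(false, nat_lit 128)]), (nat_lit 134, [(true, nat_lit 40), (false, nat_lit 96), (false, nat_lit 132), (true, nat_lit 136), (true, nat_lit 192)]), (nat_lit 140, [(true, nat_lit 40), (false, nat_lit 68), (false, nat_lit 96), (true, nat_lit 136), (true, nat_lit 192)]), (nat_lit 162, [(false, nat_lit 40), (true, nat_lit 96), (false, nat_lit 160)]), (nat_lit 166, [(false, nat_lit 164)]), (nat_lit 168, [(true, nat_lit 40)]), (nat_lit 196, [(true, nat_lit 68)]), (nat_lit 200, [(true,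 nat_lit 68), (true, nat_lit 96), (false, nat_lit 192)]), (nat_lit 204, [(false, nat_lit 76)]), (nat_lit 224, [(true, nat_lit 96)]), (nat_lit 232, [(false, nat_lit 104)])],
  [(nat_lit 1, [(false, nat_lit 0)]), (nat_lit 3, [(false, nat_lit 2)]), (nat_lit 5, [(false, nat_lit 4)]), (nat_lit 7, [(false, nat_lit 6), (false, nat_lit 130)]), (nat_lit 9, [(false, nat_lit 8)]), (nat_lit 11, [(false, nat_lit 10)]), (nat_lit 13, [(false, nat_lit 12)]), (nat_lit 15, [(false, nat_lit 14)]), (nat_lit 33, [(false, nat_lit 32)]), (nat_lit 35, [(false, nat_lit 34)]), (nat_lit 37, [(false, nat_lit 36)]), (nat_lit 39, [(false, nat_lit 38), (true, nat_lit 162)]), (nat_lit 65, [(false, nat_lit 64)]), (nat_lit 67, [(false, nat_lit 66)]), (nat_lit 69, [(false, nat_lit 68)]), (nat_lit 73, [(true, nat_lit 40), (false, nat_lit 72), (true, nat_lit 136)]), (nat_lit 75, [(false, nat_lit 74)]), (nat_lit 77, [(false, nat_lit 76), (true, nat_lit 140)]), (nat_lit 97, [(false, nat_lit 96)]), (nat_lit 129,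 [(false, nat_lit 128)]), (nat_lit 133, [(true, nat_lit 130), (false, nat_lit 132)]), (nat_lit 134, [(true, nat_lit 130)]), (nat_lit 161, [(false, nat_lit 40), (false, nat_lit 160)]), (nat_lit 165, [(true, nat_lit 162), (false, nat_lit 164)]), (nat_lit 166, [(true, nat_lit 162)]), (nat_lit 168, [(false, nat_lit 40)]), (nat_lit 193, [(false, nat_lit 40), (false, nat_lit 136), (false, nat_lit 192)]), (nat_lit 197, [(false, nat_lit 140), (false, nat_lit 196)]), (nat_lit 200, [(false, nat_lit 40), (false, nat_lit 136)]), (nat_lit 204, [(true, nat_lit 140)]), (nat_lit 225, [(true, nat_lit 104), (false, nat_lit 224)]), (nat_lit 232, [(true, nat_lit 104)])],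
  [(nat_lit 16, [(false, nat_lit 0)]), (nat_lit 48, [(false, nat_lit 32)]), (nat_lit 80, [(false, nat_lit 64)]), (nat_lit 112, [(false, nat_lit 96), (true, nat_lit 192)]), (nat_lit 144, [(false, nat_lit 128)]), (nat_lit 176, [(false, nat_lit 160), (true, nat_lit 192)]), (nat_lit 224, [(true, nat_lit 192)])],
  [(nat_lit 1, [(false, nat_lit 0)]), (nat_lit 17, [(false, nat_lit 16)]), (nat_lit 33, [(false, nat_lit 32)]), (nat_lit 49, [(false, nat_lit 48), (false, nat_lit 144)]), (nat_lit 65, [(false, nat_lit 64)]), (nat_lit 81, [(false, nat_lit 80)]), (nat_lit 97, [(false, nat_lit 96)]), (nat_lit 113, [(false, nat_lit 112)]), (nat_lit 129, [(false, nat_lit 128)]), (nat_lit 161, [(true, nat_lit 144), (false, nat_lit 160)]), (nat_lit 176, [(true, nat_lit 144)]), (nat_lit 193, [(false, nat_lit 192)]), (nat_lit 225, [(false, nat_lit 224)])],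
  [(nat_lit 2, [(false, nat_lit 0)]), (nat_lit 18, [(false, nat_lit 16)]), (nat_lit 34, [(false, nat_lit 32)]), (nat_lit 50, [(false, nat_lit 48), (true, nat_lit 96), (false, nat_lit 192)]), (nat_lit 66, [(false, nat_lit 64)]), (nat_lit 82, [(false, nat_lit 80), (true, nat_lit 96), (false, nat_lit 192)]), (nat_lit 112, [(true, nat_lit 96), (false, nat_lit 192)]), (nat_lit 130, [(false, nat_lit 128)]), (nat_lit 146, [(false, nat_lit 144)]), (nat_lit 162, [(false, nat_lit 160), (true, nat_lit 192)]), (nat_lit 178, [(false, nat_lit 176)]), (nat_lit 224, [(false, nat_lit 192)])],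
  [(nat_lit 1, [(false, nat_lit 0)]), (nat_lit 3, [(false, nat_lit 2)]), (nat_lit 17, [(false, nat_lit 16)]), (nat_lit 19, [(false, nat_lit 18)]), (nat_lit 33, [(false, nat_lit 32)]), (nat_lit 35, [(false, nat_lit 34), (false, nat_lit 130)]), (nat_lit 49, [(false, nat_lit 48), (false, nat_lit 144)]), (nat_lit 51, [(false, nat_lit 50), (false, nat_lit 146)]), (nat_lit 65, [(false, nat_lit 64)]), (nat_lit 67, [(false, nat_lit 66)]), (nat_lit 81, [(false, nat_lit 80)]), (nat_lit 83, [(false, nat_lit 82)]), (nat_lit 97, [(false, nat_lit 96)]), (nat_lit 113, [(false, nat_lit 112)]), (nat_lit 129, [(false, nat_lit 128)]), (nat_lit 161, [(false, nat_lit 130), (true, nat_lit 144), (false, nat_lit 160)]), (nat_lit 162, [(false, nat_lit 130)]), (nat_lit 176, [(false, nat_lit 144)]), (nat_lit 178, [(true, nat_lit 146)]), (nat_lit 193, [(false, nat_lit 192)]), (nat_lit 225, [(false, nat_lit 224)])],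
  [(nat_lit 4, [(false, nat_lit 0)]), (nat_lit 20, [(false, nat_lit 16)]), (nat_lit 36, [(false, nat_lit 32)]), (nat_lit 68, [(false, nat_lit 64)]), (nat_lit 112, [(true, nat_lit 80)]), (nat_lit 132, [(false, nat_lit 128)]), (nat_lit 148, [(false, nat_lit 48), (true, nat_lit 80), (false, nat_lit 144)]), (nat_lit 164, [(false, nat_lit 48), (true, nat_lit 96), (false, nat_lit 160)]), (nat_lit 176, [(false, nat_lit 48), (true, nat_lit 80)]), (nat_lit 196, [(false, nat_lit 80), (true, nat_lit 96), (false, nat_lit 192)]), (nat_lit 224, [(true, nat_lit 80), (false, nat_lit 96)])],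
  [(nat_lit 1, [(false, nat_lit 0)]), (nat_lit 5, [(false, nat_lit 4)]), (nat_lit 17, [(false, nat_lit 16)]), (nat_lit 33, [(false, nat_lit 32)]), (nat_lit 37, [(false, nat_lit 36)]), (nat_lit 49, [(true, nat_lit 20), (false, nat_lit 48), (false, nat_lit 144)]), (nat_lit 65, [(false, nat_lit 64)]), (nat_lit 69, [(false, nat_lit 68)]), (nat_lit 81, [(false, nat_lit 80)]), (nat_lit 97, [(false, nat_lit 96)]), (nat_lit 113, [(false, nat_lit 112)]), (nat_lit 129, [(false, nat_lit 128)]), (nat_lit 133, [(true, nat_lit 20), (false, nat_lit 132)]), (nat_lit 148, [(true, nat_lit 20)]), (nat_lit 161, [(false, nat_lit 20), (true, nat_lit 144), (false, nat_lit 160)]), (nat_lit 165, [(false, nat_lit 164)]), (nat_lit 176, [(true, nat_lit 20), (false, nat_lit 144)]), (nat_lit 193, [(false, nat_lit 192)]), (nat_lit 197, [(false, nat_lit 196)]), (nat_lit 225, [(false, nat_lit 224)])],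
  [(nat_lit 2, [(false, nat_lit 0)]), (nat_lit 6, [(false, nat_lit 4)]), (nat_lit 18, [(false, nat_lit 16)]), (nat_lit 22, [(false, nat_lit 20)]), (nat_lit 34, [(false, nat_lit 32)]), (nat_lit 38, [(false, nat_lit 36)]), (nat_lit 50, [(false, nat_lit 48), (true, nat_lit 68), (true, nat_lit 96), (false, nat_lit 192)]), (nat_lit 66, [(false, nat_lit 64)]), (nat_lit 82, [(true, nat_lit 68), (false, nat_lit 80), (true, nat_lit 96), (false, nat_lit 192)]), (nat_lit 112, [(false, nat_lit 68), (false, nat_lit 96), (true, nat_lit 192)]), (nat_lit 130, [(false, nat_lit 128)]), (nat_lit 134, [(true, nat_lit 68), (false, nat_lit 132)]), (nat_lit 146, [(false, nat_lit 144)]), (nat_lit 150, [(false, nat_lit 148)]), (nat_lit 162, [(false, nat_lit 68), (false, nat_lit 160), (true, nat_lit 192)]), (nat_lit 166, [(false, nat_lit 164)]), (nat_lit 178, [(false, nat_lit 176)]), (nat_lit 196, [(true, nat_lit 68)]), (nat_lit 224, [(false, nat_lit 68), (true, nat_lit 192)])],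
  [(nat_lit 1, [(false, nat_lit 0)]), (nat_lit 3, [(false, nat_lit 2)]), (nat_lit 5, [(false, nat_lit 4)]), (nat_lit 7, [(false, nat_lit 6), (true, nat_lit 20), (false, nat_lit 130), (false, nat_lit 144)]), (nat_lit 17, [(false, nat_lit 16)]), (nat_lit 19, [(false, nat_lit 18), (true, nat_lit 20), (false, nat_lit 144)]), (nat_lit 33, [(false, nat_lit 32)]), (nat_lit 35, [(false, nat_lit 34)]), (nat_lit 37, [(false, nat_lit 36)]), (nat_lit 39, [(false, nat_lit 38), (true, nat_lit 162), (true, nat_lit 176)]), (nat_lit 49, [(false, nat_lit 48)]), (nat_lit 51, [(false, nat_lit 50), (true, nat_lit 176)]), (nat_lit 65, [(false, nat_lit 64)]), (nat_lit 67, [(false, nat_lit 66)]), (nat_lit 69, [(false, nat_lit 68)]), (nat_lit 81, [(false, nat_lit 80)]), (nat_lit 83, [(false, nat_lit 82)]), (nat_lit 97, [(false, nat_lit 96)]), (nat_lit 113, [(false, nat_lit 112)]), (nat_lit 129, [(false, nat_lit 128)]), (nat_lit 133, [(true, nat_lit 130), (false, nat_lit 132), (true, nat_lit 144)]),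 (nat_lit 134, [(false, nat_lit 20), (true, nat_lit 130), (true, nat_lit 144)]), (nat_lit 146, [(false, nat_lit 20), (true, nat_lit 144)]), (nat_lit 148, [(false, nat_lit 20)]), (nat_lit 150, [(true, nat_lit 22)]), (nat_lit 161, [(false, nat_lit 160)]), (nat_lit 165, [(true, nat_lit 162), (false, nat_lit 164), (true, nat_lit 176)]), (nat_lit 166, [(true, nat_lit 162), (true, nat_lit 176)]), (nat_lit 178, [(true, nat_lit 176)]), (nat_lit 193, [(false, nat_lit 192)]), (nat_lit 197, [(false, nat_lit 196)]), (nat_lit 225, [(false, nat_lit 224)])],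
  [(nat_lit 8, [(false, nat_lit 0)]), (nat_lit 24, [(false, nat_lit 16)]), (nat_lit 40, [(false, nat_lit 32)]), (nat_lit 56, [(false, nat_lit 48)]), (nat_lit 72, [(false, nat_lit 64)]), (nat_lit 88, [(false, nat_lit 80)]), (nat_lit 104, [(false, nat_lit 96)]), (nat_lit 120, [(false, nat_lit 112)]), (nat_lit 136, [(false, nat_lit 128)]), (nat_lit 152, [(false, nat_lit 144)]), (nat_lit 168, [(false, nat_lit 160)]), (nat_lit 184, [(false, nat_lit 176)]), (nat_lit 200, [(false, nat_lit 192)]), (nat_lit 232, [(false, nat_lit 224)])],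
  [(nat_lit 1, [(false, nat_lit 0)]), (nat_lit 9, [(false, nat_lit 8)]), (nat_lit 17, [(false, nat_lit 16)]), (nat_lit 33, [(false, nat_lit 32)]), (nat_lit 49, [(true, nat_lit 24), (false, nat_lit 48), (false, nat_lit 144)]), (nat_lit 56, [(true, nat_lit 24)]), (nat_lit 65, [(false, nat_lit 64)]), (nat_lit 73, [(false, nat_lit 24), (true, nat_lit 40), (false, nat_lit 72), (true, nat_lit 136)]), (nat_lit 81, [(false, nat_lit 80)]), (nat_lit 97, [(true, nat_lit 24), (false, nat_lit 40), (false, nat_lit 96), (false, nat_lit 136)]), (nat_lit 104, [(true, nat_lit 24), (false, nat_lit 40), (false, nat_lit 136)]), (nat_lit 113, [(true, nat_lit 88), (false, nat_lit 112)]), (nat_lit 120, [(true, nat_lit 88)]), (nat_lit 129, [(false, nat_lit 128)]), (nat_lit 161, [(false, nat_lit 136), (true, nat_lit 144), (false, nat_lit 160)]), (nat_lit 168, [(false, nat_lit 136)]), (nat_lit 176, [(false, nat_lit 144)]), (nat_lit 184, [(true, nat_lit 152)]), (nat_lit 193, [(false, nat_lit 192)]),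 (nat_lit 225, [(false, nat_lit 200), (false, nat_lit 224)]), (nat_lit 232, [(false, nat_lit 200)])],
  [(nat_lit 2, [(false, nat_lit 0)]), (nat_lit 10, [(false, nat_lit 8)]), (nat_lit 18, [(false, nat_lit 16)]), (nat_lit 26, [(false, nat_lit 24), (true, nat_lit 40), (true, nat_lit 96), (true, nat_lit 136), (false, nat_lit 192)]), (nat_lit 34, [(false, nat_lit 32)]), (nat_lit 50, [(true, nat_lit 40), (false, nat_lit 48), (true, nat_lit 96), (true, nat_lit 136), (false, nat_lit 192)]), (nat_lit 56, [(true, nat_lit 40), (true, nat_lit 96), (true, nat_lit 136), (false, nat_lit 192)]), (nat_lit 66, [(false, nat_lit 64)]), (nat_lit 74, [(false, nat_lit 72), (false, nat_lit 96), (true, nat_lit 192)]), (nat_lit 82, [(false, nat_lit 80)]), (nat_lit 90, [(false, nat_lit 88), (true, nat_lit 112)]), (nat_lit 104, [(true, nat_lit 96), (false, nat_lit 192)]), (nat_lit 120, [(true, nat_lit 112)]), (nat_lit 130, [(false, nat_lit 128)]), (nat_lit 146, [(false, nat_lit 144)]), (nat_lit 162,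 [(false, nat_lit 136), (false, nat_lit 160), (true, nat_lit 192)]), (nat_lit 168, [(false, nat_lit 136)]), (nat_lit 178, [(true, nat_lit 152), (false, nat_lit 176)]), (nat_lit 184, [(true, nat_lit 152)]), (nat_lit 224, [(true, nat_lit 192)]), (nat_lit 232, [(false, nat_lit 200)])],
  [(nat_lit 1, [(false, nat_lit 0)]), (nat_lit 3, [(false, nat_lit 2)]), (nat_lit 9, [(false, nat_lit 8)]), (nat_lit 11, [(false, nat_lit 10)]), (nat_lit 17, [(false, nat_lit 16)]), (nat_lit 19, [(false, nat_lit 18)]), (nat_lit 33, [(false, nat_lit 32)]), (nat_lit 35, [(false, nat_lit 34), (false, nat_lit 130)]), (nat_lit 49, [(false, nat_lit 48), (false, nat_lit 144)]), (nat_lit 51, [(false, nat_lit 50), (false, nat_lit 146)]), (nat_lit 65, [(false, nat_lit 64)]), (nat_lit 67, [(false, nat_lit 66)]), (nat_lit 73, [(false, nat_lit 24), (true, nat_lit 40), (false, nat_lit 72), (true, nat_lit 136)]), (nat_lit 75, [(false, nat_lit 26), (false, nat_lit 74)]), (nat_lit 81, [(false, nat_lit 24), (false,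 nat_lit 80)]), (nat_lit 83, [(false, nat_lit 26), (false, nat_lit 82)]), (nat_lit 88, [(true, nat_lit 24)]), (nat_lit 90, [(false, nat_lit 26)]), (nat_lit 97, [(false, nat_lit 40), (false, nat_lit 96), (false, nat_lit 136)]), (nat_lit 104, [(true, nat_lit 40), (true, nat_lit 136)]), (nat_lit 113, [(true, nat_lit 56), (false, nat_lit 112), (true, nat_lit 152)]), (nat_lit 120, [(false, nat_lit 56), (false, nat_lit 152)]), (nat_lit 129, [(false, nat_lit 128)]), (nat_lit 161, [(true, nat_lit 130), (false, nat_lit 136), (true, nat_lit 144), (false, nat_lit 160)]), (nat_lit 162, [(true, nat_lit 130)]), (nat_lit 168, [(true, nat_lit 136)]), (nat_lit 176, [(true, nat_lit 144)]), (nat_lit 178, [(false, nat_lit 146)]), (nat_lit 184, [(false, nat_lit 152)]), (nat_lit 193, [(false, nat_lit 192)]), (nat_lit 225, [(false, nat_lit 200), (false, nat_lit 224)]), (nat_lit 232, [(true, nat_lit 200)])],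
  [(nat_lit 4, [(false, nat_lit 0)]), (nat_lit 12, [(false, nat_lit 8)]), (nat_lit 20, [(false, nat_lit 16)]), (nat_lit 28, [(false, nat_lit 24), (true, nat_lit 48), (false, nat_lit 80)]), (nat_lit 36, [(false, nat_lit 32)]), (nat_lit 56, [(true, nat_lit 48), (false, nat_lit 80)]), (nat_lit 68, [(false, nat_lit 64)]), (nat_lit 76, [(false, nat_lit 72), (true, nat_lit 80), (false, nat_lit 96)]), (nat_lit 104, [(false, nat_lit 80), (true, nat_lit 96)]), (nat_lit 112, [(false, nat_lit 80)]), (nat_lit 120, [(true, nat_lit 88)]), (nat_lit 132, [(false, nat_lit 128)]), (nat_lit 140, [(false, nat_lit 40), (true, nat_lit 48), (false, nat_lit 96), (false, nat_lit 136)]), (nat_lit 148, [(false, nat_lit 144)]), (nat_lit 156, [(false, nat_lit 152), (true, nat_lit 176)]), (nat_lit 164, [(true, nat_lit 40), (false, nat_lit 48), (true, nat_lit 96), (false, nat_lit 160)]), (nat_lit 168, [(true, nat_lit 40), (false, nat_lit 48), (true, nat_lit 96)]), (nat_lit 184, [(true, nat_lit 176)]),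 (nat_lit 196, [(false, nat_lit 192)]), (nat_lit 204, [(false, nat_lit 200), (false, nat_lit 224)]), (nat_lit 232, [(true, nat_lit 224)])],
  [(nat_lit 1, [(false, nat_lit 0)]), (nat_lit 5, [(false, nat_lit 4)]), (nat_lit 9, [(false, nat_lit 8)]), (nat_lit 13, [(false, nat_lit 12)]), (nat_lit 17, [(false, nat_lit 16)]), (nat_lit 33, [(false, nat_lit 32)]), (nat_lit 37, [(false, nat_lit 36)]), (nat_lit 49, [(false, nat_lit 20), (true, nat_lit 24), (false, nat_lit 48), (false, nat_lit 144)]), (nat_lit 56, [(true, nat_lit 20), (false, nat_lit 24), (true, nat_lit 144)]), (nat_lit 65, [(false, nat_lit 64)]), (nat_lit 69, [(false, nat_lit 68)]), (nat_lit 73, [(false, nat_lit 24), (true, nat_lit 40), (false, nat_lit 72), (true, nat_lit 136)]), (nat_lit 77, [(false, nat_lit 28), (false, nat_lit 76), (true, nat_lit 140)]), (nat_lit 81, [(false, nat_lit 80)]), (nat_lit 97, [(false, nat_lit 20), (true, nat_lit 24), (false, nat_lit 40), (false, nat_lit 96), (false, nat_lit 144)]), (nat_lit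 104, [(true, nat_lit 20), (false, nat_lit 24), (true, nat_lit 40), (true, nat_lit 144)]), (nat_lit 113, [(true, nat_lit 88), (false, nat_lit 112)]), (nat_lit 120, [(false, nat_lit 88)]), (nat_lit 129, [(false, nat_lit 128)]), (nat_lit 133, [(true, nat_lit 20), (false, nat_lit 132)]), (nat_lit 148, [(false, nat_lit 20)]), (nat_lit 152, [(false, nat_lit 20), (false, nat_lit 144)]), (nat_lit 156, [(true, nat_lit 28)]), (nat_lit 161, [(false, nat_lit 160)]), (nat_lit 165, [(false, nat_lit 164)]), (nat_lit 184, [(false, nat_lit 176)]), (nat_lit 193, [(false, nat_lit 20), (true, nat_lit 136), (false, nat_lit 144), (false, nat_lit 192)]), (nat_lit 197, [(false, nat_lit 28), (true, nat_lit 140), (false, nat_lit 196)]), (nat_lit 200, [(true, nat_lit 20), (false, nat_lit 136), (true, nat_lit 144)]), (nat_lit 204, [(false, nat_lit 28), (true, nat_lit 140)]), (nat_lit 225, [(false, nat_lit 168), (true, nat_lit 176), (false, nat_lit 224)]), (nat_lit 232, [(true, nat_lit 168), (false,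 nat_lit 176)])],
  [(nat_lit 2, [(false, nat_lit 0)]), (nat_lit 6, [(false, nat_lit 4)]), (nat_lit 10, [(false, nat_lit 8)]), (nat_lit 14, [(false, nat_lit 12), (false, nat_lit 40), (true, nat_lit 68), (false, nat_lit 96), (false, nat_lit 136), (true, nat_lit 192)]), (nat_lit 18, [(false, nat_lit 16)]), (nat_lit 22, [(false, nat_lit 20)]), (nat_lit 26, [(false, nat_lit 24)]), (nat_lit 30, [(false, nat_lit 28), (true, nat_lit 56), (false, nat_lit 112), (true, nat_lit 152)]), (nat_lit 34, [(false, nat_lit 32)]), (nat_lit 38, [(false, nat_lit 36)]), (nat_lit 50, [(false, nat_lit 48)]), (nat_lit 66, [(false, nat_lit 64)]), (nat_lit 74, [(true, nat_lit 68), (false, nat_lit 72), (false, nat_lit 96), (true, nat_lit 192)]), (nat_lit 82, [(false, nat_lit 80)]), (nat_lit 90, [(false, nat_lit 88), (true, nat_lit 112)]), (nat_lit 104, [(false, nat_lit 96)]), (nat_lit 120, [(false, nat_lit 112)]), (nat_lit 130, [(false, nat_lit 128)]), (nat_lit 134, [(true, nat_lit 40), (true, nat_lit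 96), (false, nat_lit 132), (true, nat_lit 136), (false, nat_lit 192)]), (nat_lit 140, [(true, nat_lit 40), (false, nat_lit 68), (true, nat_lit 96), (true, nat_lit 136), (false, nat_lit 192)]), (nat_lit 146, [(false, nat_lit 144)]), (nat_lit 150, [(true, nat_lit 56), (false, nat_lit 112), (false, nat_lit 148), (true, nat_lit 152)]), (nat_lit 156, [(true, nat_lit 56), (false, nat_lit 112), (true, nat_lit 152)]), (nat_lit 162, [(true, nat_lit 40), (true, nat_lit 96), (false, nat_lit 160)]), (nat_lit 166, [(false, nat_lit 164)]), (nat_lit 168, [(false, nat_lit 40), (false, nat_lit 96)]), (nat_lit 178, [(false, nat_lit 56), (true, nat_lit 112), (false, nat_lit 176)]), (nat_lit 184, [(true, nat_lit 56), (false, nat_lit 112)]), (nat_lit 196, [(false, nat_lit 68)]), (nat_lit 200, [(false, nat_lit 68), (false, nat_lit 192)]), (nat_lit 204, [(true, nat_lit 76)]), (nat_lit 232, [(false, nat_lit 224)])],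
  [(nat_lit 1, [(false, nat_lit 0)]), (nat_lit 3, [(false, nat_lit 2)]), (nat_lit 5, [(false, nat_lit 4)]), (nat_lit 7, [(false, nat_lit 6), (false, nat_lit 20), (true, nat_lit 130)]), (nat_lit 9, [(false, nat_lit 8)]), (nat_lit 11, [(false, nat_lit 10), (false, nat_lit 24)]), (nat_lit 13, [(false, nat_lit 12), (false, nat_lit 136)]), (nat_lit 15, [(false, nat_lit 14), (true, nat_lit 28), (false, nat_lit 152)]), (nat_lit 17, [(false, nat_lit 16)]), (nat_lit 19, [(false, nat_lit 18), (true, nat_lit 20), (false, nat_lit 24)]), (nat_lit 22, [(true, nat_lit 20)]), (nat_lit 26, [(true, nat_lit 24)]), (nat_lit 30, [(true, nat_lit 28), (false, nat_lit 152)]), (nat_lit 33, [(false, nat_lit 32)]), (nat_lit 35, [(false, nat_lit 34)]), (nat_lit 37, [(false, nat_lit 36)]), (nat_lit 39, [(false, nat_lit 38), (true, nat_lit 146), (false, nat_lit 148), (true, nat_lit 152), (false, nat_lit 162)]), (nat_lit 49, [(false, nat_lit 48), (false, nat_lit 144)]), (nat_lit 51, [(false, nat_lit 50),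 (false, nat_lit 146), (true, nat_lit 148), (false, nat_lit 152)]), (nat_lit 65, [(false, nat_lit 64)]), (nat_lit 67, [(false, nat_lit 66)]), (nat_lit 69, [(false, nat_lit 68)]), (nat_lit 73, [(true, nat_lit 40), (false, nat_lit 72)]), (nat_lit 75, [(true, nat_lit 56), (false, nat_lit 74), (false, nat_lit 88)]), (nat_lit 77, [(false, nat_lit 76), (false, nat_lit 168), (true, nat_lit 200)]), (nat_lit 81, [(false, nat_lit 80)]), (nat_lit 83, [(true, nat_lit 56), (false, nat_lit 82), (false, nat_lit 88)]), (nat_lit 90, [(false, nat_lit 56), (true, nat_lit 88)]), (nat_lit 97, [(false, nat_lit 40), (false, nat_lit 96)]), (nat_lit 104, [(false, nat_lit 40)]), (nat_lit 113, [(true, nat_lit 56), (false, nat_lit 112)]), (nat_lit 120, [(true, nat_lit 56)]), (nat_lit 129, [(false, nat_lit 128)]), (nat_lit 133, [(true, nat_lit 130), (false, nat_lit 132), (true, nat_lit 136)]), (nat_lit 134, [(true, nat_lit 130)]), (nat_lit 140, [(false, nat_lit 136)]), (nat_lit 150, [(true, nat_lit 148),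 (false, nat_lit 152)]), (nat_lit 156, [(false, nat_lit 152)]), (nat_lit 161, [(true, nat_lit 144), (false, nat_lit 160)]), (nat_lit 165, [(false, nat_lit 146), (true, nat_lit 148), (false, nat_lit 152), (true, nat_lit 162), (false, nat_lit 164)]), (nat_lit 166, [(false, nat_lit 146), (true, nat_lit 148), (false, nat_lit 152), (true, nat_lit 162)]), (nat_lit 176, [(false, nat_lit 144)]), (nat_lit 178, [(true, nat_lit 146), (false, nat_lit 148), (true, nat_lit 152)]), (nat_lit 193, [(false, nat_lit 192)]), (nat_lit 197, [(false, nat_lit 168), (false, nat_lit 196), (true, nat_lit 200)]), (nat_lit 204, [(true, nat_lit 168), (false, nat_lit 200)]), (nat_lit 225, [(false, nat_lit 168), (false, nat_lit 224)]), (nat_lit 232, [(false, nat_lit 168)])]]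

/-- projection table -/
def PP : List (List (ℕ × List (Bool × ℕ))) := [
  [(nat_lit 0, [(false, nat_lit 0)])],
  [],
  [],
  [],
  [],
  [],
  [],
  [],
  [],
  [],
  [],
  [],
  [],
  [],
  [],
  [],
  [],
  [],
  [],
  [],
  [],
  [(nat_lit 5, [(false, nat_lit 1)]), (nat_lit 17, [(false, nat_lit 1)]), (nat_lit 20, [(false, nat_lit 1)])],
  [],
  [],
  [],
  [(nat_lit 9, [(false, nat_lit 2)]), (nat_lit 17, [(false, nat_lit 2)]), (nat_lit 24, [(false, nat_lit 2)])],
  [],
  [],
  [],
  [(nat_lit 9, [(true, nat_lit 17)]), (nat_lit 17, [(true, nat_lit 17)]), (nat_lit 24, [(false, nat_lit 17)])],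
  [],
  [],
  [],
  [],
  [],
  [],
  [],
  [],
  [],
  [],
  [],
  [(nat_lit 9, [(false, nat_lit 3)]), (nat_lit 33, [(false, nat_lit 3)]), (nat_lit 40, [(false, nat_lit 3)])],
  [(nat_lit 10, [(false, nat_lit 4)]), (nat_lit 34, [(false, nat_lit 4)]), (nat_lit 40, [(false, nat_lit 4)])],
  [(nat_lit 9, [(true, nat_lit 19)]), (nat_lit 33, [(true, nat_lit 19)]), (nat_lit 40, [(false, nat_lit 19)])],
  [(nat_lit 12, [(false, nat_lit 5)]), (nat_lit 36, [(false, nat_lit 5)]), (nat_lit 40, [(false, nat_lit 5)])],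
  [(nat_lit 9, [(true, nat_lit 21)]), (nat_lit 33, [(true, nat_lit 21)]), (nat_lit 40, [(false, nat_lit 21)])],
  [(nat_lit 10, [(true, nat_lit 46)]), (nat_lit 34, [(true, nat_lit 46)]), (nat_lit 40, [(false, nat_lit 46)])],
  [(nat_lit 9, [(true, nat_lit 62)]), (nat_lit 33, [(true, nat_lit 62)]), (nat_lit 40, [(true, nat_lit 62)])],
  [],
  [],
  [],
  [],
  [(nat_lit 20, [(false, nat_lit 6)]), (nat_lit 36, [(false, nat_lit 6)]), (nat_lit 48, [(false, nat_lit 6)])],
  [(nat_lit 5, [(false, nat_lit 23)]), (nat_lit 17, [(false, nat_lit 23)]), (nat_lit 20, [(false, nat_lit 23)])],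
  [],
  [],
  [],
  [(nat_lit 9, [(true, nat_lit 25)]), (nat_lit 33, [(false, nat_lit 25)]), (nat_lit 40, [(false, nat_lit 25)])],
  [],
  [],
  [(nat_lit 20, [(false, nat_lit 44)]), (nat_lit 36, [(false, nat_lit 44)]), (nat_lit 48, [(true, nat_lit 44)])],
  [(nat_lit 9, [(true, nat_lit 61)]), (nat_lit 17, [(true, nat_lit 61)]), (nat_lit 24, [(false, nat_lit 61)])],
  [],
  [],
  [],
  [],
  [],
  [],
  [],
  [],
  [(nat_lit 6, [(false, nat_lit 7)]), (nat_lit 66, [(false, nat_lit 7)]), (nat_lit 68, [(false, nat_lit 7)])],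
  [],
  [],
  [],
  [],
  [],
  [],
  [],
  [],
  [],
  [],
  [],
  [],
  [],
  [(nat_lit 20, [(false, nat_lit 8)]), (nat_lit 68, [(false, nat_lit 8)]), (nat_lit 80, [(false, nat_lit 8)])],
  [(nat_lit 5, [(false, nat_lit 27)]), (nat_lit 17, [(false, nat_lit 27)]), (nat_lit 20, [(false, nat_lit 27)])],
  [(nat_lit 6, [(false, nat_lit 42)]), (nat_lit 66, [(true, nat_lit 42)]), (nat_lit 68, [(true, nat_lit 42)])],
  [],
  [],
  [],
  [],
  [],
  [],
  [],
  [],
  [],
  [],
  [],
  [(nat_lit 34, [(false, nat_lit 9)]), (nat_lit 66, [(false, nat_lit 9)]), (nat_lit 96, [(false, nat_lit 9)])],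
  [],
  [(nat_lit 36, [(false, nat_lit 10)]), (nat_lit 68, [(false, nat_lit 10)]), (nat_lit 96, [(false, nat_lit 10)])],
  [],
  [(nat_lit 6, [(true, nat_lit 38)]), (nat_lit 34, [(false, nat_lit 40)]), (nat_lit 66, [(false, nat_lit 38), (false, nat_lit 40)]), (nat_lit 68, [(false, nat_lit 38)]), (nat_lit 96, [(true, nat_lit 40)])],
  [],
  [],
  [],
  [(nat_lit 34, [(true, nat_lit 36)]), (nat_lit 66, [(true, nat_lit 36)]), (nat_lit 96, [(false, nat_lit 36)])],
  [],
  [(nat_lit 36, [(false, nat_lit 34)]), (nat_lit 68, [(false, nat_lit 34)]), (nat_lit 96, [(true, nat_lit 34)])],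
  [],
  [(nat_lit 34, [(true, nat_lit 60)]), (nat_lit 66, [(true, nat_lit 60)]), (nat_lit 96, [(true, nat_lit 60)])],
  [],
  [],
  [],
  [],
  [],
  [(nat_lit 20, [(false, nat_lit 30), (false, nat_lit 32)]), (nat_lit 36, [(false, nat_lit 30)]), (nat_lit 68, [(true, nat_lit 32)]), (nat_lit 80, [(true, nat_lit 30), (true, nat_lit 32)]), (nat_lit 96, [(true, nat_lit 30)])],
  [(nat_lit 5, [(true, nat_lit 59)]), (nat_lit 17, [(true, nat_lit 59)]), (nat_lit 20, [(true, nat_lit 59)])],
  [(nat_lit 6, [(true, nat_lit 58)]), (nat_lit 66, [(true, nat_lit 58)]), (nat_lit 68, [(true, nat_lit 58)])],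
  [],
  [],
  [],
  [],
  [],
  [(nat_lit 36, [(false, nat_lit 57)]), (nat_lit 68, [(false, nat_lit 57)]), (nat_lit 96, [(false, nat_lit 57)])],
  [],
  [],
  [],
  [],
  [],
  [],
  [(nat_lit 3, [(false, nat_lit 11)]), (nat_lit 129, [(false, nat_lit 11)]), (nat_lit 130, [(false, nat_lit 11)])],
  [],
  [],
  [],
  [],
  [],
  [(nat_lit 9, [(false, nat_lit 12)]), (nat_lit 129, [(false, nat_lit 12)]), (nat_lit 136, [(false, nat_lit 12)])],
  [(nat_lit 10, [(false, nat_lit 13)]), (nat_lit 130, [(false, nat_lit 13)]), (nat_lit 136, [(false, nat_lit 13)])],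
  [(nat_lit 3, [(true, nat_lit 29)]), (nat_lit 9, [(true, nat_lit 31)]), (nat_lit 129, [(false, nat_lit 29), (true, nat_lit 31)]), (nat_lit 130, [(false, nat_lit 29)]), (nat_lit 136, [(false, nat_lit 31)])],
  [],
  [],
  [],
  [],
  [],
  [(nat_lit 17, [(false, nat_lit 14)]), (nat_lit 129, [(false, nat_lit 14)]), (nat_lit 144, [(false, nat_lit 14)])],
  [],
  [(nat_lit 17, [(true, nat_lit 33)]), (nat_lit 129, [(true, nat_lit 33)]), (nat_lit 144, [(false, nat_lit 33)])],
  [],
  [(nat_lit 17, [(true, nat_lit 35)]), (nat_lit 129, [(true, nat_lit 35)]), (nat_lit 144, [(false, nat_lit 35)])],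
  [],
  [],
  [],
  [(nat_lit 9, [(true, nat_lit 37)]), (nat_lit 17, [(true, nat_lit 39)]), (nat_lit 129, [(false, nat_lit 37), (true, nat_lit 39)]), (nat_lit 136, [(false, nat_lit 37)]), (nat_lit 144, [(false, nat_lit 39)])],
  [],
  [(nat_lit 17, [(true, nat_lit 56)]), (nat_lit 129, [(true, nat_lit 56)]), (nat_lit 144, [(true, nat_lit 56)])],
  [],
  [(nat_lit 17, [(false, nat_lit 55)]), (nat_lit 129, [(false, nat_lit 55)]), (nat_lit 144, [(false, nat_lit 55)])],
  [],
  [],
  [],
  [],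
  [],
  [],
  [],
  [],
  [],
  [],
  [],
  [(nat_lit 9, [(true, nat_lit 41)]), (nat_lit 129, [(false, nat_lit 41)]), (nat_lit 136, [(false, nat_lit 41)])],
  [(nat_lit 10, [(true, nat_lit 28)]), (nat_lit 130, [(false, nat_lit 28)]), (nat_lit 136, [(false, nat_lit 28)])],
  [(nat_lit 9, [(true, nat_lit 54)]), (nat_lit 129, [(false, nat_lit 54)]), (nat_lit 136, [(true, nat_lit 54)])],
  [],
  [],
  [],
  [],
  [],
  [],
  [],
  [],
  [],
  [],
  [],
  [],
  [],
  [(nat_lit 9, [(false, nat_lit 53)]), (nat_lit 129, [(false, nat_lit 53)]), (nat_lit 136, [(false, nat_lit 53)])],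
  [],
  [],
  [],
  [],
  [],
  [],
  [],
  [],
  [(nat_lit 66, [(false, nat_lit 15)]), (nat_lit 130, [(false, nat_lit 15)]), (nat_lit 192, [(false, nat_lit 15)])],
  [(nat_lit 3, [(true, nat_lit 43)]), (nat_lit 129, [(false, nat_lit 43)]), (nat_lit 130, [(false, nat_lit 43)])],
  [],
  [],
  [(nat_lit 66, [(true, nat_lit 26)]), (nat_lit 130, [(true, nat_lit 26)]), (nat_lit 192, [(false, nat_lit 26)])],
  [],
  [],
  [],
  [(nat_lit 66, [(true, nat_lit 24)]), (nat_lit 130, [(true, nat_lit 24)]), (nat_lit 192, [(false, nat_lit 24)])],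
  [(nat_lit 3, [(false, nat_lit 52)]), (nat_lit 129, [(false, nat_lit 52)]), (nat_lit 130, [(false, nat_lit 52)])],
  [],
  [],
  [],
  [],
  [(nat_lit 80, [(false, nat_lit 16)]), (nat_lit 144, [(false, nat_lit 16)]), (nat_lit 192, [(false, nat_lit 16)])],
  [(nat_lit 17, [(true, nat_lit 45)]), (nat_lit 129, [(false, nat_lit 45)]), (nat_lit 144, [(false, nat_lit 45)])],
  [(nat_lit 66, [(false, nat_lit 22)]), (nat_lit 130, [(false, nat_lit 22)]), (nat_lit 192, [(true, nat_lit 22)])],
  [(nat_lit 17, [(false, nat_lit 51)]), (nat_lit 129, [(true, nat_lit 51)]), (nat_lit 144, [(false, nat_lit 51)])],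
  [(nat_lit 20, [(false, nat_lit 20)]), (nat_lit 68, [(false, nat_lit 20)]), (nat_lit 80, [(false, nat_lit 20)])],
  [(nat_lit 17, [(true, nat_lit 50)]), (nat_lit 129, [(false, nat_lit 50)]), (nat_lit 144, [(true, nat_lit 50)])],
  [(nat_lit 66, [(false, nat_lit 49)]), (nat_lit 130, [(false, nat_lit 49)]), (nat_lit 192, [(false, nat_lit 49)])],
  [],
  [],
  [],
  [],
  [],
  [],
  [],
  [],
  [],
  [],
  [],
  [(nat_lit 66, [(true, nat_lit 18)]), (nat_lit 130, [(true, nat_lit 18)]), (nat_lit 192, [(false, nat_lit 18)])],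
  [],
  [],
  [],
  [(nat_lit 66, [(true, nat_lit 48)]), (nat_lit 130, [(true, nat_lit 48)]), (nat_lit 192, [(true, nat_lit 48)])],
  [],
  [],
  [],
  [(nat_lit 66, [(false, nat_lit 47)]), (nat_lit 130, [(false, nat_lit 47)]), (nat_lit 192, [(false, nat_lit 47)])],
  [],
  [],
  [],
  [],
  [],
  [],
  [],
  [],
  [],
  [],
  [],
  [],
  [],
  [],
  [],
  [],
  [],
  [],
  [],
  [],
  [(nat_lit 15, [(false, nat_lit 63)]), (nat_lit 30, [(false, nat_lit 63)]), (nat_lit 39, [(true, nat_lit 63)]), (nat_lit 51, [(false, nat_lit 63)]), (nat_lit 75, [(false, nat_lit 63)]), (nat_lit 77, [(false, nat_lit 63)]), (nat_lit 83, [(false, nat_lit 63)]), (nat_lit 90, [(true, nat_lit 63)]), (nat_lit 113, [(false, nat_lit 63)]), (nat_lit 120, [(false, nat_lit 63)]), (nat_lit 150, [(false, nat_lit 63)]), (nat_lit 156, [(false, nat_lit 63)]), (nat_lit 165, [(false, nat_lit 63)]), (nat_lit 166, [(false, nat_lit 63)]), (nat_lit 178, [(true, nat_lit 63)]), (nat_lit 184, [(false, nat_lit 63)]),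 (nat_lit 197, [(false, nat_lit 63)]), (nat_lit 204, [(true, nat_lit 63)]), (nat_lit 225, [(false, nat_lit 63)]), (nat_lit 232, [(false, nat_lit 63)])]]

/-- representatives -/
def ZP : List (ℕ × List (Bool × ℕ)) := [
  (nat_lit 0, [(false, nat_lit 0)]),
  (nat_lit 21, [(false, nat_lit 20)]),
  (nat_lit 25, [(false, nat_lit 24)]),
  (nat_lit 41, [(false, nat_lit 40)]),
  (nat_lit 42, [(false, nat_lit 40)]),
  (nat_lit 44, [(false, nat_lit 40)]),
  (nat_lit 52, [(false, nat_lit 48)]),
  (nat_lit 70, [(false, nat_lit 68)]),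
  (nat_lit 84, [(false, nat_lit 80)]),
  (nat_lit 98, [(false, nat_lit 96)]),
  (nat_lit 100, [(false, nat_lit 96)]),
  (nat_lit 131, [(false, nat_lit 130)]),
  (nat_lit 137, [(false, nat_lit 136)]),
  (nat_lit 138, [(false, nat_lit 136)]),
  (nat_lit 145, [(false, nat_lit 144)]),
  (nat_lit 194, [(false, nat_lit 192)]),
  (nat_lit 208, [(false, nat_lit 192)]),
  (nat_lit 29, [(true, nat_lit 20), (false, nat_lit 24)]),
  (nat_lit 226, [(true, nat_lit 96), (false, nat_lit 192)]),
  (nat_lit 43, [(false, nat_lit 40)]),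
  (nat_lit 212, [(false, nat_lit 80)]),
  (nat_lit 45, [(false, nat_lit 40)]),
  (nat_lit 210, [(true, nat_lit 192)]),
  (nat_lit 53, [(false, nat_lit 20)]),
  (nat_lit 202, [(true, nat_lit 136), (false, nat_lit 192)]),
  (nat_lit 57, [(true, nat_lit 24), (false, nat_lit 40)]),
  (nat_lit 198, [(true, nat_lit 68), (false, nat_lit 192)]),
  (nat_lit 85, [(false, nat_lit 20)]),
  (nat_lit 170, [(true, nat_lit 40), (false, nat_lit 136)]),
  (nat_lit 139, [(false, nat_lit 130)]),
  (nat_lit 116, [(false, nat_lit 48), (true, nat_lit 96)]),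
  (nat_lit 139, [(false, nat_lit 136)]),
  (nat_lit 116, [(true, nat_lit 80), (false, nat_lit 96)]),
  (nat_lit 147, [(true, nat_lit 130), (false, nat_lit 144)]),
  (nat_lit 108, [(false, nat_lit 40), (true, nat_lit 96)]),
  (nat_lit 149, [(true, nat_lit 20), (false, nat_lit 144)]),
  (nat_lit 106, [(true, nat_lit 40), (false, nat_lit 96)]),
  (nat_lit 153, [(true, nat_lit 24), (false, nat_lit 136)]),
  (nat_lit 102, [(false, nat_lit 68)]),
  (nat_lit 153, [(true, nat_lit 24), (false, nat_lit 144)]),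
  (nat_lit 102, [(true, nat_lit 96)]),
  (nat_lit 169, [(true, nat_lit 40), (false, nat_lit 136)]),
  (nat_lit 86, [(true, nat_lit 68)]),
  (nat_lit 195, [(false, nat_lit 130)]),
  (nat_lit 60, [(false, nat_lit 40), (true, nat_lit 48)]),
  (nat_lit 209, [(false, nat_lit 144)]),
  (nat_lit 46, [(false, nat_lit 40)]),
  (nat_lit 234, [(false, nat_lit 40), (true, nat_lit 96), (false, nat_lit 136), (false, nat_lit 192)]),
  (nat_lit 230, [(true, nat_lit 68), (false, nat_lit 96), (true, nat_lit 192)]),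
  (nat_lit 214, [(false, nat_lit 68), (false, nat_lit 192)]),
  (nat_lit 213, [(true, nat_lit 20), (true, nat_lit 144)]),
  (nat_lit 211, [(true, nat_lit 130), (false, nat_lit 144)]),
  (nat_lit 203, [(false, nat_lit 130)]),
  (nat_lit 185, [(false, nat_lit 24), (true, nat_lit 40), (false, nat_lit 136)]),
  (nat_lit 171, [(false, nat_lit 40), (true, nat_lit 136)]),
  (nat_lit 157, [(false, nat_lit 20), (true, nat_lit 24), (false, nat_lit 144)]),
  (nat_lit 155, [(true, nat_lit 130), (false, nat_lit 136), (true, nat_lit 144)]),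
  (nat_lit 124, [(false, nat_lit 40), (true, nat_lit 48), (false, nat_lit 96)]),
  (nat_lit 118, [(true, nat_lit 68)]),
  (nat_lit 117, [(true, nat_lit 20)]),
  (nat_lit 110, [(false, nat_lit 40), (true, nat_lit 96)]),
  (nat_lit 61, [(true, nat_lit 20), (false, nat_lit 24), (true, nat_lit 40)]),
  (nat_lit 47, [(true, nat_lit 40)]),
  (nat_lit 255, [(false, nat_lit 184)])]

/-- the table -/
def DP : Dat := ⟨FP, FBP, fsP, HP, PP, ZP⟩

end Pool.Agent.H250R3.Tor
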